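import Pool.Agent.Work.MP_95d40a_an.R2.Main

set_option autoImplicit false

/-!
# Asy: `n(L_p) ≥ (1 - ε) M_p` for `p` near one, two and infinity, real scalars (helper46)
-/

open MeasureTheory Filter Topology
open scoped ENNReal

namespace Pool.Agent.Work.MP_95d40a_an.R2

universe u

lemma kappa_conj {r : ℝ} (hr : 1 < r) : kappa (r / (r - 1)) = kappa r := by
  have h0 : r ≠ 0 := by linarith
  have h1 : r - 1 ≠ 0 := by linarith
  have e1 : r / (r - 1) - 1 = 1 / (r - 1) := by field_simp; ring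
  have e2 : r / (r - 1) / (r / (r - 1) - 1) = r := by rw [e1]; field_simp
  have e3 : (r / (r - 1) - 1) / (r / (r - 1)) = 1 / r := by rw [e1]; field_simp
  have e4 : 1 / (r / (r - 1)) = (r - 1) / r := by field_simp
  unfold kappa
  rw [e2, e3, e4, mul_comm]

lemma tendsto_kappa_atTop : Tendsto kappa atTop (𝓝 1) := by
  have a1 : Tendsto (fun x : ℝ => x ^ (1 / x)) atTop (𝓝 1) := tendsto_rpow_div
  have a2 : Tendsto (fun x : ℝ => (x - 1)⁻¹) atTop (𝓝 0) :=
    tendsto_inv_atTop_zero.comp (tendsto_atTop_add_const_right _ (-1) tendsto_id)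
  have a3 : Tendsto (fun x : ℝ => x / (x - 1)) atTop (𝓝 1) := by
    have : Tendsto (fun x : ℝ => 1 + (x - 1)⁻¹) atTop (𝓝 (1 + 0)) := tendsto_const_nhds.add a2
    rw [add_zero] at this
    refine this.congr' ?_
    filter_upwards [eventually_gt_atTop (1 : ℝ)] with x hx
    have : x - 1 ≠ 0 := by linarith
    field_simp
    ring
  have a4 : Tendsto (fun x : ℝ => (x - 1) / x) atTop (𝓝 1) := by
    have : Tendsto (fun x : ℝ => (x / (x - 1))⁻¹) atTop (𝓝 1⁻¹) := a3.inv₀ one_ne_zero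
    rw [inv_one] at this
    refine this.congr fun x => ?_
    rw [inv_div]
  have a5 : Tendsto (fun x : ℝ => (x / (x - 1)) ^ ((x - 1) / x)) atTop (𝓝 ((1 : ℝ) ^ (1 : ℝ))) :=
    a3.rpow a4 (Or.inl one_ne_zero)
  rw [Real.one_rpow] at a5
  have a6 := (a1.mul a5).inv₀ (by norm_num)
  rw [one_mul, inv_one] at a6
  refine a6.congr fun x => ?_
  unfold kappa
  rw [one_div (x ^ (1 / x) * (x / (x - 1)) ^ ((x - 1) / x))]

lemma kappa_limits {ε : ℝ} (hε : 0 < ε) : ∃ δ : ℝ, 0 < δ ∧ ∀ r : ℝ, 1 < r → (r < 1 + δ ∨ δ⁻¹ < r) → 1 - ε ≤ kappa r := by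
  obtain ⟨R, hR⟩ := eventually_atTop.1 (tendsto_kappa_atTop.eventually_const_lt (show 1 - ε < 1 by linarith))
  refine ⟨(max R 1 + 1)⁻¹, by positivity, ?_⟩
  intro r hr h
  have hpos : 0 < max R 1 + 1 := by positivity
  rcases h with h | h
  · rw [← kappa_conj hr]
    refine (hR _ ?_).le
    have h1 : 0 < r - 1 := by linarith
    rw [le_div_iff₀ h1]
    have h2 : (r - 1) * (max R 1 + 1) ≤ 1 := by
      have : r - 1 ≤ (max R 1 + 1)⁻¹ := by linarith
      calc (r - 1) * (max R 1 + 1) ≤ (max R 1 + 1)⁻¹ * (max R 1 + 1) := by gcongr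
        _ = 1 := inv_mul_cancel₀ hpos.ne'
    have h3 : R * (r - 1) ≤ (max R 1 + 1) * (r - 1) := by
      have : R ≤ max R 1 + 1 := by linarith [le_max_left R 1]
      gcongr
    linarith
  · rw [inv_inv] at h
    exact (hR _ (by linarith [le_max_left R 1])).le

theorem real_asym {ε : ℝ} (hε : 0 < ε) : ∃ δ : ℝ, 0 < δ ∧ ∀ (p : ℝ≥0∞) [Fact (1 ≤ p)], 1 < p → p ≠ ∞ → p ≠ 2 →
    (p.toReal < 1 + δ ∨ |p.toReal - 2| < δ ∨ δ⁻¹ < p.toReal) →
    ∀ (Ω : Type u) [MeasurableSpace Ω] (μ : Measure Ω), Nontrivial (Lp ℝ p μ) →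
    (1 - ε) * Mp p.toReal ≤ numIndex ℝ (Lp ℝ p μ) := by
  obtain ⟨d1, hd1, h1'⟩ := kappa_limits hε
  obtain ⟨d2, hd2, h2'⟩ := real_near_two.{u} hε
  refine ⟨min d1 d2, by positivity, ?_⟩
  intro p _ h1 h2 h3 hcase Ω _ μ _
  have hpr := toReal_gt_one h1 h2
  have hfar : (p.toReal < 1 + d1 ∨ d1⁻¹ < p.toReal) → (1 - ε) * Mp p.toReal ≤ numIndex ℝ (Lp ℝ p μ) := by
    intro h
    refine le_trans ?_ (real_lower h1 h2 h3)
    exact mul_le_mul_of_nonneg_right (h1' _ hpr h) (Mp_nonneg hpr)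
  rcases hcase with h | h | h
  · exact hfar (Or.inl (h.trans_le (by linarith [min_le_left d1 d2])))
  · exact h2' p h1 h2 (h.trans_le (min_le_right _ _)) Ω μ inferInstance
  · refine hfar (Or.inr (lt_of_le_of_lt ?_ h))
    exact inv_anti₀ (by positivity) (min_le_left _ _)

end Pool.Agent.Work.MP_95d40a_an.R2
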