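import Pool.Agent.Work.MP_95d40a_an.R2.Four

set_option autoImplicit false

/-!
# Avg: averaging over the cyclic group

`M : Lp ℝ p μ`, `j : Ω → ZMod N` with measurable fibres, `EE M hj i = M 1_{j = i}`.  `r = p.toReal`.
For `z : ZMod N → ℝ` and `m : ZMod N` put `X_m = ∑_i z (i + m) • EE i`.
* `JP_sum_EE`: `JP r μ (∑_i c_i • EE_i) y = ∑_l jj r (c_l) * JP r μ EE_l y`: pointwise a.e. (`cut_coe`, `Lp_sum_coe`-like
  lemma): at `ω` with `j ω = l` the sum is `c_l M ω`, `EE_l ω = M ω`, `EE_i ω = 0` for `i ≠ l`.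
  (Use `JP_real_eq`: `JP = ∫ jj r (x ω) * y ω`, `jj_mul`.)  Alternatively split with `JP_add_left` inductively.
* `norm_sum_EE`: `‖∑_i c_i • EE_i‖ ^ r = ∑_i |c_i| ^ r ‖EE_i‖ ^ r` (`norm_rpow_eq`), and `∑_i ‖EE_i‖ ^ r = ‖M‖ ^ r`.
* `nr_bound` for `X_m`: `|∑_{i,l} jj r (z (l+m)) z (i+m) JP EE_l (T EE_i)| ≤ v ∑_i |z (i+m)|^r ‖EE_i‖^r`.  Average over
  `m` (`v = numRadius T`): with `R(d) = avg_m z (m + d) jj r (z m)`,
  `|∑_{i,l} R(i - l) JP EE_l (T EE_i)| ≤ v avg |z|^r ‖M‖^r`, i.e. `|∑_d tau d R(d)| ≤ v avg |z|^r ‖M‖^r`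
  (`i = l + d`).
* the same for `z'(j) = z (-j)`, whose `R'` is `R'(d) = R(-d)`.  Subtract: `rho z (jj r ∘ z) d = R(d) - R(-d)`.
-/

open MeasureTheory
open scoped ENNReal

namespace Pool.Agent.Work.MP_95d40a_an.R2

variable {Ω : Type*} [MeasurableSpace Ω] {μ : Measure Ω} {p : ℝ≥0∞} {N : ℕ} [NeZero N]

private lemma Lp_sum_coeR {ι : Type*} (s : Finset ι) (f : ι → Lp ℝ p μ) :
    ((∑ i ∈ s, f i : Lp ℝ p μ) : Ω → ℝ) =ᵐ[μ] fun ω => ∑ i ∈ s, f i ω := by
  classical
  induction s using Finset.induction_on with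
  | empty =>
    simp only [Finset.sum_empty]
    exact Lp.coeFn_zero ℝ p μ
  | insert i s hi ih =>
    rw [Finset.sum_insert hi]
    filter_upwards [Lp.coeFn_add (f i) (∑ j ∈ s, f j), ih] with ω e1 e2
    rw [e1, Pi.add_apply, e2, Finset.sum_insert hi]

/-- values of a combination of the pieces -/
lemma sum_EE_coe' (M : Lp ℝ p μ) {j : Ω → ZMod N} (hj : ∀ i, MeasurableSet {ω | j ω = i}) (c : ZMod N → ℝ) :
    ∀ᵐ ω ∂μ, (∑ i, c i • EE M hj i : Lp ℝ p μ) ω = c (j ω) * M ω := by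
  have h1 := Lp_sum_coeR Finset.univ (fun i => c i • EE M hj i)
  have h2 : ∀ i, ∀ᵐ ω ∂μ, (c i • EE M hj i : Lp ℝ p μ) ω = c i * ({ω | j ω = i}.indicator M ω) := by
    intro i
    filter_upwards [Lp.coeFn_smul (c i) (EE M hj i), cut_coe M (hj i)] with ω e1 e2
    rw [e1, Pi.smul_apply, smul_eq_mul]
    unfold EE
    rw [e2]
  filter_upwards [h1, ae_all_iff.2 h2] with ω e1 e2
  rw [e1, Finset.sum_congr rfl (fun i _ => e2 i), Finset.sum_eq_single (j ω)]
  · rw [Set.indicator_of_mem (by simp)]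
  · intro i _ hi
    rw [Set.indicator_of_notMem (by simpa using fun h => hi h.symm), mul_zero]
  · intro h
    exact absurd (Finset.mem_univ _) h

/-- values of a piece -/
lemma EE_coe' (M : Lp ℝ p μ) {j : Ω → ZMod N} (hj : ∀ i, MeasurableSet {ω | j ω = i}) :
    ∀ᵐ ω ∂μ, ∀ l, EE M hj l ω = if j ω = l then M ω else 0 := by
  rw [ae_all_iff]
  intro l
  filter_upwards [cut_coe M (hj l)] with ω e2
  unfold EE
  rw [e2]
  by_cases h : j ω = l
  · rw [Set.indicator_of_mem (by simpa using h), if_pos h]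
  · rw [Set.indicator_of_notMem (by simpa using h), if_neg h]

theorem JP_sum_EE [Fact (1 ≤ p)] (h1 : 1 < p) (h2 : p ≠ ∞) (M : Lp ℝ p μ) {j : Ω → ZMod N}
    (hj : ∀ i, MeasurableSet {ω | j ω = i}) (c : ZMod N → ℝ) (y : Lp ℝ p μ) :
    JP p.toReal μ (∑ i, c i • EE M hj i : Lp ℝ p μ) y =
      ∑ l, jj p.toReal (c l) * JP p.toReal μ (EE M hj l : Ω → ℝ) y := by
  have hint : ∀ l, Integrable (fun ω => jj p.toReal (EE M hj l ω) * y ω) μ := by
    intro l
    have := integrable_JP h1 h2 (EE M hj l) y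
    refine this.congr (Filter.Eventually.of_forall fun ω => ?_)
    simp only [RCLike.ofReal_real_eq_id, id, starRingEnd_apply, star_trivial, Real.norm_eq_abs, jj]
    ring
  simp_rw [JP_real_eq]
  simp_rw [← integral_const_mul]
  rw [← integral_finsetSum _ (fun l _ => (hint l).const_mul _)]
  apply integral_congr_ae
  filter_upwards [sum_EE_coe' M hj c, EE_coe' M hj] with ω e1 e2
  rw [e1, jj_mul]
  simp only [e2]
  rw [Finset.sum_eq_single (j ω)]
  · rw [if_pos rfl]; ring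
  · intro l _ hl
    rw [if_neg (fun h => hl h.symm)]
    simp [jj]
  · intro h
    exact absurd (Finset.mem_univ _) h

theorem norm_sum_EE [Fact (1 ≤ p)] (h1 : 1 < p) (h2 : p ≠ ∞) (M : Lp ℝ p μ) {j : Ω → ZMod N}
    (hj : ∀ i, MeasurableSet {ω | j ω = i}) (c : ZMod N → ℝ) :
    ‖(∑ i, c i • EE M hj i : Lp ℝ p μ)‖ ^ p.toReal = ∑ i, |c i| ^ p.toReal * ‖EE M hj i‖ ^ p.toReal := by
  have hpr := toReal_gt_one h1 h2
  simp_rw [norm_rpow_eq h1 h2, ← integral_const_mul]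
  rw [← integral_finsetSum _ (fun l _ => (integrable_rpow h1 h2 (EE M hj l)).const_mul _)]
  apply integral_congr_ae
  filter_upwards [sum_EE_coe' M hj c, EE_coe' M hj] with ω e1 e2
  rw [e1]
  simp only [e2]
  rw [Finset.sum_eq_single (j ω)]
  · rw [if_pos rfl, norm_mul, Real.mul_rpow (norm_nonneg _) (norm_nonneg _), Real.norm_eq_abs]
  · intro l _ hl
    rw [if_neg (fun h => hl h.symm), norm_zero, Real.zero_rpow (by linarith), mul_zero]
  · intro h
    exact absurd (Finset.mem_univ _) h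

theorem sum_norm_EE [Fact (1 ≤ p)] (h1 : 1 < p) (h2 : p ≠ ∞) (M : Lp ℝ p μ) {j : Ω → ZMod N}
    (hj : ∀ i, MeasurableSet {ω | j ω = i}) : ∑ i, ‖EE M hj i‖ ^ p.toReal = ‖M‖ ^ p.toReal := by
  have h := norm_sum_EE h1 h2 M hj (fun _ => 1)
  have e : (∑ i, (1 : ℝ) • EE M hj i : Lp ℝ p μ) = M := by
    apply Lp.ext
    filter_upwards [sum_EE_coe' M hj (fun _ => 1)] with ω e1
    rw [e1, one_mul]
  rw [e] at h
  rw [h]
  refine Finset.sum_congr rfl fun i _ => ?_
  rw [abs_one, Real.one_rpow, one_mul]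

private lemma JP_sum_rightR [Fact (1 ≤ p)] (h1 : 1 < p) (h2 : p ≠ ∞) {ι : Type*} (s : Finset ι) (x : Lp ℝ p μ)
    (f : ι → Lp ℝ p μ) :
    JP p.toReal μ (x : Ω → ℝ) (∑ i ∈ s, f i : Lp ℝ p μ) = ∑ i ∈ s, JP p.toReal μ (x : Ω → ℝ) (f i) := by
  classical
  induction s using Finset.induction_on with
  | empty =>
    rw [Finset.sum_empty, Finset.sum_empty]
    have := JP_smul_right (μ := μ) (p := p) p.toReal (0 : ℝ) (x : Ω → ℝ) (0 : Lp ℝ p μ)
    simpa using this
  | insert i s hi ih => rw [Finset.sum_insert hi, JP_add_right h1 h2, ih, Finset.sum_insert hi]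

private lemma one_sided [Fact (1 ≤ p)] (h1 : 1 < p) (h2 : p ≠ ∞) (T : Lp ℝ p μ →L[ℝ] Lp ℝ p μ) (M : Lp ℝ p μ)
    {j : Ω → ZMod N} (hj : ∀ i, MeasurableSet {ω | j ω = i}) (z : ZMod N → ℝ) :
    |∑ d, tau T M hj d * avg (fun m => z (m + d) * jj p.toReal (z m))| ≤
      numRadius T * ‖M‖ ^ p.toReal * avg (fun i => |z i| ^ p.toReal) := by
  have hNpos : (0 : ℝ) < N := by
    have := NeZero.pos N
    exact_mod_cast this
  obtain ⟨K, hK⟩ : ∃ K : ZMod N → ZMod N → ℝ,
      K = fun l i => JP p.toReal μ (EE M hj l : Ω → ℝ) (T (EE M hj i)) := ⟨_, rfl⟩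
  obtain ⟨J, hJd⟩ : ∃ J : ZMod N → ℝ,
      J = fun m => ∑ l, jj p.toReal (z (l + m)) * ∑ i, z (i + m) * K l i := ⟨_, rfl⟩
  have hJ : ∀ m, |J m| ≤ numRadius T * ∑ i, |z (i + m)| ^ p.toReal * ‖EE M hj i‖ ^ p.toReal := by
    intro m
    have key := nr_bound h1 h2 T (∑ i, z (i + m) • EE M hj i)
    rw [JP_sum_EE h1 h2, norm_sum_EE h1 h2, map_sum] at key
    have e : ∀ l, JP p.toReal μ (EE M hj l : Ω → ℝ) (∑ i, T (z (i + m) • EE M hj i) : Lp ℝ p μ) =
        ∑ i, z (i + m) * K l i := by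
      intro l
      rw [JP_sum_rightR h1 h2]
      refine Finset.sum_congr rfl fun i _ => ?_
      rw [map_smul, JP_smul_right, hK]
    simp_rw [e] at key
    rw [hJd]
    exact key
  have e1 : ∑ d, tau T M hj d * avg (fun m => z (m + d) * jj p.toReal (z m)) = avg J := by
    have g1 : ∀ d, tau T M hj d = ∑ l, K l (l + d) := fun d => by rw [hK]; rfl
    have g2 : ∀ l, ∑ m, jj p.toReal (z (l + m)) * ∑ i, z (i + m) * K l i =
        ∑ d, K l (l + d) * ∑ m, z (m + d) * jj p.toReal (z m) := by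
      intro l
      have g3 : ∀ m, ∑ i, z (i + m) * K l i = ∑ d, z (l + d + m) * K l (l + d) := by
        intro m
        exact (Equiv.sum_comp (Equiv.addLeft l) (fun i => z (i + m) * K l i)).symm
      simp_rw [g3, Finset.mul_sum]
      rw [Finset.sum_comm]
      refine Finset.sum_congr rfl fun d _ => ?_
      rw [← Equiv.sum_comp (Equiv.addLeft l) (fun m => K l (l + d) * (z (m + d) * jj p.toReal (z m)))]
      refine Finset.sum_congr rfl fun m _ => ?_
      simp only [Equiv.coe_addLeft]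
      have : l + m + d = l + d + m := by ring
      rw [this]; ring
    unfold avg
    rw [hJd]
    simp only
    rw [Finset.sum_comm]
    simp_rw [g2, g1]
    rw [Finset.sum_comm, Finset.sum_div]
    refine Finset.sum_congr rfl fun d _ => ?_
    rw [← Finset.sum_mul]; ring
  rw [e1]
  have e2 : |avg J| ≤ avg (fun m => |J m|) := by
    unfold avg
    rw [abs_div, abs_of_pos hNpos]
    have := Finset.abs_sum_le_sum_abs J Finset.univ
    gcongr
  have e3 : avg (fun m => |J m|) ≤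
      avg (fun m => numRadius T * ∑ i, |z (i + m)| ^ p.toReal * ‖EE M hj i‖ ^ p.toReal) := by
    unfold avg
    have := Finset.sum_le_sum fun m (_ : m ∈ Finset.univ) => hJ m
    gcongr
  refine (e2.trans e3).trans (le_of_eq ?_)
  unfold avg
  rw [← Finset.mul_sum, Finset.sum_comm, ← sum_norm_EE h1 h2 M hj]
  have g4 : ∀ i, ∑ m, |z (i + m)| ^ p.toReal * ‖EE M hj i‖ ^ p.toReal =
      ‖EE M hj i‖ ^ p.toReal * ∑ m, |z m| ^ p.toReal := by
    intro i
    rw [← Equiv.sum_comp (Equiv.addLeft i) (fun m => |z m| ^ p.toReal), Finset.mul_sum]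
    refine Finset.sum_congr rfl fun m _ => ?_
    simp only [Equiv.coe_addLeft]
    ring
  simp_rw [g4]
  rw [← Finset.sum_mul]
  ring

theorem avg_bound [Fact (1 ≤ p)] (h1 : 1 < p) (h2 : p ≠ ∞) (T : Lp ℝ p μ →L[ℝ] Lp ℝ p μ) (M : Lp ℝ p μ)
    {j : Ω → ZMod N} (hj : ∀ i, MeasurableSet {ω | j ω = i}) (z : ZMod N → ℝ) :
    |∑ d, tau T M hj d * rho z (fun i => jj p.toReal (z i)) d| ≤
      2 * numRadius T * ‖M‖ ^ p.toReal * avg (fun i => |z i| ^ p.toReal) := by
  have k1 := one_sided h1 h2 T M hj z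
  have k2 := one_sided h1 h2 T M hj (fun i => z (-i))
  have e1 : avg (fun i => |z (-i)| ^ p.toReal) = avg (fun i => |z i| ^ p.toReal) :=
    avg_neg (fun i => |z i| ^ p.toReal)
  have e2 : ∀ d, avg (fun m => z (-(m + d)) * jj p.toReal (z (-m))) =
      avg (fun m => z m * jj p.toReal (z (m + d))) := by
    intro d
    rw [← avg_shift (fun m => z m * jj p.toReal (z (m + d))) (-d),
      ← avg_neg (fun m => z (m + -d) * jj p.toReal (z (m + -d + d)))]
    congr 1
    funext m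
    have a1 : -(m + d) = -m + -d := by ring
    have a2 : -m + -d + d = -m := by ring
    rw [a1, a2]
  simp_rw [e2] at k2
  rw [e1] at k2
  have e3 : ∑ d, tau T M hj d * rho z (fun i => jj p.toReal (z i)) d =
      ∑ d, tau T M hj d * avg (fun m => z (m + d) * jj p.toReal (z m)) -
      ∑ d, tau T M hj d * avg (fun m => z m * jj p.toReal (z (m + d))) := by
    rw [← Finset.sum_sub_distrib]
    refine Finset.sum_congr rfl fun d _ => ?_
    rw [← mul_sub]
    congr 1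
    unfold rho avg
    rw [← sub_div, ← Finset.sum_sub_distrib]
  rw [e3]
  have := abs_sub (∑ d, tau T M hj d * avg (fun m => z (m + d) * jj p.toReal (z m)))
    (∑ d, tau T M hj d * avg (fun m => z m * jj p.toReal (z (m + d))))
  linarith

end Pool.Agent.Work.MP_95d40a_an.R2
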