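import Pool.Agent.Work.MP_95d40a_an.DimTwo
import Pool.Agent.Work.MP_95d40a_an.StepK
import Pool.Agent.Work.MP_95d40a_an.CTwo

set_option autoImplicit false

/-!
# Definitions for the theorem: real scalars, `n(L_p) ≥ (1 - ε) M_p` for `p` near two

`t` is the number with `u (1 - t²) = 1 + t²`, `u = - log t` (`t = 0.301291...`, `u = 1.199678...`).
`cM t = max_s s |log s| / (1 + s²)`.  The profile on a quadrant is `ff t v = 1 - b v - d v²`,
`v ∈ [0,1]`, `hh = ff log ff`.
-/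

open MeasureTheory
open scoped ENNReal

namespace Pool.Agent.Work.MP_95d40a_an.R2

noncomputable def cM (t : ℝ) : ℝ := t / (1 - t ^ 2)
noncomputable def cb (t : ℝ) : ℝ := 2 * t * (1 - t) / (1 + t)
noncomputable def cd (t : ℝ) : ℝ := (1 - t) ^ 2 / (1 + t)
noncomputable def cm (t : ℝ) : ℝ := 2 * (1 - t) / (1 + t)

/-- the profile -/
noncomputable def ff (t v : ℝ) : ℝ := 1 - cb t * v - cd t * v ^ 2
/-- `ff log ff` -/
noncomputable def hh (t v : ℝ) : ℝ := ff t v * Real.log (ff t v)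
/-- `- ff'` -/
noncomputable def mm (t v : ℝ) : ℝ := cb t + 2 * cd t * v
/-- the first three derivatives of `hh` -/
noncomputable def h1 (t v : ℝ) : ℝ := - mm t v * (1 + Real.log (ff t v))
noncomputable def h2 (t v : ℝ) : ℝ := -2 * cd t * (1 + Real.log (ff t v)) + mm t v ^ 2 / ff t v
noncomputable def h3 (t v : ℝ) : ℝ := mm t v * (6 * cd t * ff t v + mm t v ^ 2) / ff t v ^ 2

/-- the kernel of the fourth derivative of the correlation function -/
noncomputable def SS (t v : ℝ) : ℝ :=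
  t * h3 t v + cm t * (mm t v ^ 2 / ff t v) + h3 t (1 - v) + cb t * (mm t (1 - v) ^ 2 / ff t (1 - v)) +
    4 * cd t ^ 2 * (1 - v) * (Real.log (ff t (1 - v)) - Real.log (ff t v)) - 8 * cM t * cd t ^ 2 * v

/-- `q(1) = q(0) + ∫ SS` -/
noncomputable def qq (t : ℝ) : ℝ :=
  2 * cM t * (2 * cd t * (1 + t) + cb t * cm t) + 6 * cd t * (1 - t) + cm t ^ 2 * (- Real.log t) -
    4 * cd t * (1 - t + t * Real.log t)

/-- the critical parameter -/
structure Crit (t : ℝ) : Prop where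
  lo : 0.3012 < t
  hi : t < 0.3014
  crit : (- Real.log t) * (1 - t ^ 2) = 1 + t ^ 2

/-- the four trigonometric integrals combined; `c = sin k = ± 1` -/
noncomputable def AA (t k c : ℝ) : ℝ :=
  c * ((∫ v in (0 : ℝ)..1, hh t v * Real.cos (k * v)) * (∫ v in (0 : ℝ)..1, ff t v * Real.sin (k * v)) -
      (∫ v in (0 : ℝ)..1, hh t v * Real.sin (k * v)) * (∫ v in (0 : ℝ)..1, ff t v * Real.cos (k * v))) +
    cM t * ((∫ v in (0 : ℝ)..1, ff t v * Real.cos (k * v)) ^ 2 + (∫ v in (0 : ℝ)..1, ff t v * Real.sin (k * v)) ^ 2)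

/-- `n`-point sums -/
noncomputable def dsum (g : ℝ → ℝ) (n : ℕ) : ℝ := (∑ i ∈ Finset.range n, g ((i : ℝ) / n)) / n

/-- the discrete version of `AA` -/
noncomputable def AN (t : ℝ) (n : ℕ) (k c : ℝ) : ℝ :=
  c * (dsum (fun v => hh t v * Real.cos (k * v)) n * dsum (fun v => ff t v * Real.sin (k * v)) n -
      dsum (fun v => hh t v * Real.sin (k * v)) n * dsum (fun v => ff t v * Real.cos (k * v)) n) +
    cM t * (dsum (fun v => ff t v * Real.cos (k * v)) n ^ 2 + dsum (fun v => ff t v * Real.sin (k * v)) n ^ 2)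

/-- the frequency `(2 l + 1) π / 2` -/
noncomputable def fr (l : ℕ) : ℝ := (2 * l + 1) * Real.pi / 2

section cyc

variable {N : ℕ} [NeZero N]

/-- `cos (2 π a / N)` -/
noncomputable def co (a : ZMod N) : ℝ := (ZMod.stdAddChar a : ℂ).re
/-- `sin (2 π a / N)` -/
noncomputable def si (a : ZMod N) : ℝ := (ZMod.stdAddChar a : ℂ).im

/-- average over the cyclic group -/
noncomputable def avg (f : ZMod N → ℝ) : ℝ := (∑ j, f j) / N

/-- antisymmetric part of the correlation -/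
noncomputable def rho (z g : ZMod N → ℝ) (d : ZMod N) : ℝ :=
  avg fun m => z (m + d) * g m - z m * g (m + d)

/-- sine coefficients of `rho` -/
noncomputable def rhat (z g : ZMod N → ℝ) (k : ZMod N) : ℝ :=
  2 * ((avg fun m => z m * si (k * m)) * (avg fun m => g m * co (k * m)) -
    (avg fun m => z m * co (k * m)) * (avg fun m => g m * si (k * m)))

end cyc

section oper

variable {Ω : Type*} [MeasurableSpace Ω] {μ : Measure Ω} {p : ℝ≥0∞} {N : ℕ} [NeZero N]

/-- the piece of `M` where `j = i` -/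
noncomputable def EE (M : Lp ℝ p μ) {j : Ω → ZMod N} (hj : ∀ i, MeasurableSet {ω | j ω = i}) (i : ZMod N) :
    Lp ℝ p μ := cut M (hj i)

/-- the cyclic correlation of the matrix entries of `T` -/
noncomputable def tau [Fact (1 ≤ p)] (T : Lp ℝ p μ →L[ℝ] Lp ℝ p μ) (M : Lp ℝ p μ) {j : Ω → ZMod N}
    (hj : ∀ i, MeasurableSet {ω | j ω = i}) (d : ZMod N) : ℝ :=
  ∑ l, JP p.toReal μ (EE M hj l : Ω → ℝ) (T (EE M hj (l + d)))

/-- its sine transform -/
noncomputable def VV [Fact (1 ≤ p)] (T : Lp ℝ p μ →L[ℝ] Lp ℝ p μ) (M : Lp ℝ p μ) {j : Ω → ZMod N}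
    (hj : ∀ i, MeasurableSet {ω | j ω = i}) (k : ZMod N) : ℝ :=
  ∑ d, tau T M hj d * si (k * d)

end oper

end Pool.Agent.Work.MP_95d40a_an.R2
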