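import Pool.Agent.Work.MP_95d40a_an.R2.Defs

set_option autoImplicit false

/-!
# Four: real Fourier analysis on `ZMod N`

`co a + i si a = ψ a`, `ψ = ZMod.stdAddChar` (`ZMod.stdAddChar_coe`, `ZMod.toCircle_intCast`, ...).
* `si_int`, `co_int`: `ψ (a : ℤ) = exp (2 π i a / N)`.
* addition formulas from `AddChar.map_add_eq_mul`.
* orthogonality: `∑ k, ψ (k * b) = N` if `b = 0` and `0` otherwise (`AddChar.sum_mulShift`,
  `ZMod.isPrimitive_stdAddChar`), so `∑ k, si (k d) si (k d') = (N/2) ([d = d'] - [d + d' = 0])`.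
* `rho` is odd: `rho z g (-d) = - rho z g d` (shift the average by `d`: `Equiv.addRight`).
* `rhat z g k = (1/N) ∑_d rho z g d si (k d)`: insert the definition, substitute `m' = m + d`,
  `si (k (m' - m)) = si (k m') co (k m) - co (k m') si (k m)`.
* `rho_eq`: insert and use the orthogonality and oddness.
* `abs_rhat_le`: `|avg f| ≤ sup |f|`, `|si|, |co| ≤ 1`.
-/

namespace Pool.Agent.Work.MP_95d40a_an.R2

variable {N : ℕ} [NeZero N]

private theorem std_int (a : ℤ) : (ZMod.stdAddChar (a : ZMod N) : ℂ) =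
    Complex.exp (((2 * Real.pi * a / N : ℝ) : ℂ) * Complex.I) := by
  rw [ZMod.stdAddChar_coe]
  congr 1
  push_cast
  ring

theorem si_int (a : ℤ) : si (a : ZMod N) = Real.sin (2 * Real.pi * a / N) := by
  unfold si
  rw [std_int, Complex.exp_ofReal_mul_I_im]

theorem co_int (a : ℤ) : co (a : ZMod N) = Real.cos (2 * Real.pi * a / N) := by
  unfold co
  rw [std_int, Complex.exp_ofReal_mul_I_re]

theorem si_nat (a : ℕ) : si (a : ZMod N) = Real.sin (2 * Real.pi * a / N) := by
  have h := si_int (N := N) (a : ℤ)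
  simpa using h

theorem co_nat (a : ℕ) : co (a : ZMod N) = Real.cos (2 * Real.pi * a / N) := by
  have h := co_int (N := N) (a : ℤ)
  simpa using h

theorem si_zero : si (0 : ZMod N) = 0 := by
  simp [si]

theorem co_zero : co (0 : ZMod N) = 1 := by
  simp [co]

private theorem norm_std (a : ZMod N) : ‖(ZMod.stdAddChar a : ℂ)‖ = 1 := by
  exact AddChar.norm_apply _ _

theorem co_sq_add (a : ZMod N) : co a ^ 2 + si a ^ 2 = 1 := by
  have h := norm_std a
  have h2 : Complex.normSq (ZMod.stdAddChar a : ℂ) = 1 := by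
    rw [Complex.normSq_eq_norm_sq, h]; norm_num
  rw [Complex.normSq_apply] at h2
  unfold co si
  nlinarith [h2]

theorem si_add (a b : ZMod N) : si (a + b) = si a * co b + co a * si b := by
  unfold si co
  rw [AddChar.map_add_eq_mul, Complex.mul_im]
  ring

theorem co_add (a b : ZMod N) : co (a + b) = co a * co b - si a * si b := by
  unfold si co
  rw [AddChar.map_add_eq_mul, Complex.mul_re]

private theorem neg_aux (a : ZMod N) : si (-a) = - si a ∧ co (-a) = co a := by
  have h1 : si (-a + a) = si (-a) * co a + co (-a) * si a := si_add _ _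
  have h2 : co (-a + a) = co (-a) * co a - si (-a) * si a := co_add _ _
  rw [neg_add_cancel, si_zero] at h1
  rw [neg_add_cancel, co_zero] at h2
  have h3 := co_sq_add a
  constructor
  · have : si (-a) * (co a ^ 2 + si a ^ 2) = - si a := by
      linear_combination -co a * h1 + si a * h2
    rwa [h3, mul_one] at this
  · have : co (-a) * (co a ^ 2 + si a ^ 2) = co a := by
      linear_combination -si a * h1 - co a * h2
    rwa [h3, mul_one] at this

theorem si_neg (a : ZMod N) : si (-a) = - si a := (neg_aux a).1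

theorem co_neg (a : ZMod N) : co (-a) = co a := (neg_aux a).2

theorem abs_si_le (a : ZMod N) : |si a| ≤ 1 := by
  rw [abs_le_one_iff_mul_self_le_one]
  nlinarith [co_sq_add a, sq_nonneg (co a)]

theorem abs_co_le (a : ZMod N) : |co a| ≤ 1 := by
  rw [abs_le_one_iff_mul_self_le_one]
  nlinarith [co_sq_add a, sq_nonneg (si a)]

private theorem Npos : (0 : ℝ) < N := by
  have := NeZero.pos N
  exact_mod_cast this

theorem abs_avg_le {f : ZMod N → ℝ} {C : ℝ} (hf : ∀ j, |f j| ≤ C) : |avg f| ≤ C := by
  have hN := Npos (N := N)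
  unfold avg
  rw [abs_div, abs_of_pos hN, div_le_iff₀ hN]
  calc |∑ j, f j| ≤ ∑ j, |f j| := Finset.abs_sum_le_sum_abs _ _
    _ ≤ ∑ _j : ZMod N, C := Finset.sum_le_sum fun j _ => hf j
    _ = C * N := by
      rw [Finset.sum_const, Finset.card_univ, ZMod.card, nsmul_eq_mul, mul_comm]

theorem avg_shift (f : ZMod N → ℝ) (d : ZMod N) : (avg fun j => f (j + d)) = avg f := by
  unfold avg
  congr 1
  exact Fintype.sum_equiv (Equiv.addRight d) _ _ (fun _ => rfl)

theorem avg_neg (f : ZMod N → ℝ) : (avg fun j => f (-j)) = avg f := by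
  unfold avg
  congr 1
  exact Fintype.sum_equiv (Equiv.neg _) _ _ (fun _ => rfl)

/-- orthogonality -/
private theorem sum_co (b : ZMod N) : ∑ k, co (k * b) = if b = 0 then (N : ℝ) else 0 := by
  have h := AddChar.sum_mulShift (R := ZMod N) (R' := ℂ) b (ZMod.isPrimitive_stdAddChar N)
  have h2 : (∑ k, (ZMod.stdAddChar (k * b) : ℂ)).re = ∑ k, co (k * b) := by
    rw [Complex.re_sum]; rfl
  rw [← h2, h]
  split_ifs with hb
  · rw [ZMod.card]; simp
  · simp

private theorem sum_si (b : ZMod N) : ∑ k, si (k * b) = 0 := by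
  have h := AddChar.sum_mulShift (R := ZMod N) (R' := ℂ) b (ZMod.isPrimitive_stdAddChar N)
  have h2 : (∑ k, (ZMod.stdAddChar (k * b) : ℂ)).im = ∑ k, si (k * b) := by
    rw [Complex.im_sum]; rfl
  rw [← h2, h]
  split_ifs with hb
  · rw [ZMod.card]; simp
  · simp

private theorem rho_odd (z g : ZMod N → ℝ) (d : ZMod N) : rho z g (-d) = - rho z g d := by
  unfold rho
  rw [← avg_shift (fun m => z (m + -d) * g m - z m * g (m + -d)) d]
  unfold avg
  rw [← neg_div, ← Finset.sum_neg_distrib]
  congr 1
  refine Finset.sum_congr rfl fun m _ => ?_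
  simp only [add_neg_cancel_right]
  ring

/-- `rhat = (1/N) ∑ rho si` -/
private theorem rhat_eq (z g : ZMod N → ℝ) (k : ZMod N) :
    rhat z g k = (∑ d, rho z g d * si (k * d)) / N := by
  have hN := Npos (N := N)
  have key : ∑ d, (∑ m, (z (m + d) * g m - z m * g (m + d))) * si (k * d) =
      2 * ((∑ m, z m * si (k * m)) * (∑ m, g m * co (k * m)) -
        (∑ m, z m * co (k * m)) * (∑ m, g m * si (k * m))) := by
    have e1 : ∑ d, (∑ m, (z (m + d) * g m - z m * g (m + d))) * si (k * d) =
        ∑ m, ∑ m', (z m' * g m - z m * g m') * (si (k * m') * co (k * m) - co (k * m') * si (k * m)) := by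
      simp_rw [Finset.sum_mul]
      rw [Finset.sum_comm]
      refine Finset.sum_congr rfl fun m _ => ?_
      refine Fintype.sum_equiv (Equiv.addLeft m) _ _ (fun d => ?_)
      simp only [Equiv.coe_addLeft]
      congr 1
      have h : k * d = k * (m + d) + -(k * m) := by ring
      conv_lhs => rw [h]
      rw [si_add, si_neg, co_neg]
      ring
    rw [e1]
    have e2 : ∀ m m' : ZMod N, (z m' * g m - z m * g m') * (si (k * m') * co (k * m) - co (k * m') * si (k * m)) =
        (g m * co (k * m)) * (z m' * si (k * m')) - (g m * si (k * m)) * (z m' * co (k * m')) -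
        (z m * co (k * m)) * (g m' * si (k * m')) + (z m * si (k * m)) * (g m' * co (k * m')) := by
      intro m m'; ring
    simp_rw [e2, Finset.sum_add_distrib, Finset.sum_sub_distrib, ← Finset.mul_sum, ← Finset.sum_mul]
    ring
  have e3 : ∑ d, rho z g d * si (k * d) =
      (∑ d, (∑ m, (z (m + d) * g m - z m * g (m + d))) * si (k * d)) / N := by
    rw [Finset.sum_div]
    refine Finset.sum_congr rfl fun d _ => ?_
    unfold rho avg
    ring
  rw [e3, key]
  unfold rhat avg
  field_simp

private theorem sum_si_si (a b : ZMod N) : ∑ k, si (k * a) * si (k * b) =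
    (1 / 2) * ((if a - b = 0 then (N : ℝ) else 0) - (if a + b = 0 then (N : ℝ) else 0)) := by
  rw [← sum_co, ← sum_co, ← Finset.sum_sub_distrib, Finset.mul_sum]
  refine Finset.sum_congr rfl fun k _ => ?_
  have h1 : k * (a - b) = k * a + -(k * b) := by ring
  have h2 : k * (a + b) = k * a + k * b := by ring
  rw [h1, h2, co_add, co_add, co_neg, si_neg]
  ring

theorem rho_eq (z g : ZMod N → ℝ) (d : ZMod N) : rho z g d = ∑ k, rhat z g k * si (k * d) := by
  have hN := Npos (N := N)
  have e1 : ∑ k, rhat z g k * si (k * d) = (∑ a, rho z g a * ∑ k, si (k * a) * si (k * d)) / N := by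
    simp_rw [rhat_eq]
    have a1 : ∀ x : ZMod N, (∑ d, rho z g d * si (x * d)) / (N : ℝ) * si (x * d) =
        ∑ a, rho z g a * (si (x * a) * si (x * d)) / N := by
      intro x
      rw [Finset.sum_div, Finset.sum_mul]
      refine Finset.sum_congr rfl fun a _ => ?_
      ring
    simp_rw [a1]
    rw [Finset.sum_comm, Finset.sum_div]
    refine Finset.sum_congr rfl fun a _ => ?_
    rw [Finset.mul_sum, Finset.sum_div]
  rw [e1]
  simp_rw [sum_si_si]
  have e2 : ∀ a : ZMod N, rho z g a * ((1 / 2) * ((if a - d = 0 then (N : ℝ) else 0) -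
      (if a + d = 0 then (N : ℝ) else 0))) =
      (if a = d then rho z g a * (N / 2) else 0) - (if a = -d then rho z g a * (N / 2) else 0) := by
    intro a
    simp only [sub_eq_zero, ← eq_neg_iff_add_eq_zero]
    split_ifs <;> ring
  simp_rw [e2, Finset.sum_sub_distrib, Finset.sum_ite_eq', Finset.mem_univ, if_true, rho_odd]
  field_simp
  ring

/-- the pairing of `rho` with any function in terms of sine transforms -/
theorem sum_rho (z g τ : ZMod N → ℝ) : ∑ d, τ d * rho z g d = ∑ k, rhat z g k * ∑ d, τ d * si (k * d) := by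
  simp_rw [rho_eq, Finset.mul_sum]
  rw [Finset.sum_comm]
  refine Finset.sum_congr rfl fun k _ => Finset.sum_congr rfl fun d _ => ?_
  ring

theorem rhat_neg (z g : ZMod N → ℝ) (k : ZMod N) : rhat z g (-k) = - rhat z g k := by
  unfold rhat avg
  simp_rw [neg_mul, si_neg, co_neg, mul_neg, Finset.sum_neg_distrib]
  ring

theorem rhat_self (z : ZMod N → ℝ) (k : ZMod N) : rhat z z k = 0 := by
  unfold rhat
  ring

theorem rhat_add (z g h : ZMod N → ℝ) (k : ZMod N) : rhat z (fun j => g j + h j) k = rhat z g k + rhat z h k := by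
  unfold rhat avg
  simp_rw [add_mul, Finset.sum_add_distrib]
  ring

theorem rhat_smul (z g : ZMod N → ℝ) (c : ℝ) (k : ZMod N) : rhat z (fun j => c * g j) k = c * rhat z g k := by
  unfold rhat avg
  simp_rw [mul_assoc c, ← Finset.mul_sum]
  ring

theorem abs_rhat_le {z g : ZMod N → ℝ} {B : ℝ} (hz : ∀ j, |z j| ≤ 1) (hg : ∀ j, |g j| ≤ B) (k : ZMod N) :
    |rhat z g k| ≤ 4 * B := by
  have hB : 0 ≤ B := le_trans (abs_nonneg _) (hg 0)
  have h1 : |avg fun m => z m * si (k * m)| ≤ 1 := abs_avg_le fun j => by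
    rw [abs_mul]
    nlinarith [hz j, abs_si_le (k * j), abs_nonneg (z j), abs_nonneg (si (k * j))]
  have h2 : |avg fun m => z m * co (k * m)| ≤ 1 := abs_avg_le fun j => by
    rw [abs_mul]
    nlinarith [hz j, abs_co_le (k * j), abs_nonneg (z j), abs_nonneg (co (k * j))]
  have h3 : |avg fun m => g m * co (k * m)| ≤ B := abs_avg_le fun j => by
    rw [abs_mul]
    nlinarith [hg j, abs_co_le (k * j), abs_nonneg (g j), abs_nonneg (co (k * j))]
  have h4 : |avg fun m => g m * si (k * m)| ≤ B := abs_avg_le fun j => by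
    rw [abs_mul]
    nlinarith [hg j, abs_si_le (k * j), abs_nonneg (g j), abs_nonneg (si (k * j))]
  unfold rhat
  rw [abs_mul, abs_two]
  have h5 : |(avg fun m => z m * si (k * m)) * (avg fun m => g m * co (k * m)) -
    (avg fun m => z m * co (k * m)) * (avg fun m => g m * si (k * m))| ≤ 2 * B := by
    refine le_trans (abs_sub _ _) ?_
    rw [abs_mul, abs_mul]
    have e1 := mul_le_mul h1 h3 (abs_nonneg _) zero_le_one
    have e2 := mul_le_mul h2 h4 (abs_nonneg _) zero_le_one
    linarith
  linarith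

end Pool.Agent.Work.MP_95d40a_an.R2
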