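import Pool.Agent.Work.MP_95d40a_an.R2.LinA

set_option autoImplicit false

/-!
# Lin: comparison of `VV 1` with the rotation form of the pair `x, y`

Let `x, y, M` with `M ≥ 0`, `M² = x² + y²`, `|x - M co j| ≤ (2π/N) M`, `|y - M si j| ≤ (2π/N) M`.  With
`C = ∑ co i • EE i`, `S = ∑ si i • EE i` (`C = M co j`, `S = M si j` a.e., `sum_EE_coe`), by `VV_eq` for `k = 1`:
`VV 1 - ∫ |M|^(r-2) (x T y - y T x) = ∫ |M|^(r-2) [(M co j - x) T S + x (T S - T y) - (M si j - y) T C - y (T C - T x)]`,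
each of the four terms is at most `(2π/N) ‖M‖^r` in absolute value (`|x|, |y| ≤ M`, `‖C‖, ‖S‖ ≤ ‖M‖`,
`∫ M^(r-1) |g| ≤ ‖M‖^(r-1) ‖g‖` (from `JP_bound` or Hoelder), `‖S - y‖, ‖C - x‖ ≤ (2π/N) ‖M‖`,
`Lp.norm_le_mul_norm_of_ae_le_mul`).
-/

open MeasureTheory
open scoped ENNReal

namespace Pool.Agent.Work.MP_95d40a_an.R2

variable {Ω : Type*} [MeasurableSpace Ω] {μ : Measure Ω} {p : ℝ≥0∞} {N : ℕ} [NeZero N]

private lemma hold [Fact (1 ≤ p)] (h1 : 1 < p) (h2 : p ≠ ∞) (x y : Lp ℝ p μ) :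
    ∫ ω, |x ω| ^ (p.toReal - 1) * |y ω| ∂μ ≤ ‖x‖ ^ (p.toReal - 1) * ‖y‖ := by
  have hpr := toReal_gt_one h1 h2
  have e : JP p.toReal μ ((|x| : Lp ℝ p μ) : Ω → ℝ) (|y| : Lp ℝ p μ) =
      ∫ ω, |x ω| ^ (p.toReal - 1) * |y ω| ∂μ := by
    unfold JP
    apply integral_congr_ae
    filter_upwards [Lp.coeFn_abs x, Lp.coeFn_abs y] with ω a1 a2
    rw [a1, a2]
    have := norm_pow_mul_self hpr (x ω)
    simp only [Real.norm_eq_abs, starRingEnd_apply, star_trivial, abs_abs] at this ⊢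
    rw [← this]
    simp only [RCLike.ofReal_real_eq_id, id]
    ring
  rw [← e]
  have h3 := JP_bound h1 h2 (|x| : Lp ℝ p μ) (|y| : Lp ℝ p μ)
  rw [norm_abs_eq_norm, norm_abs_eq_norm] at h3
  exact (le_abs_self _).trans h3

theorem VV_one [Fact (1 ≤ p)] (h1 : 1 < p) (h2 : p ≠ ∞) (T : Lp ℝ p μ →L[ℝ] Lp ℝ p μ) (hT : ‖T‖ ≤ 1)
    (M x y : Lp ℝ p μ) {j : Ω → ZMod N} (hj : ∀ i, MeasurableSet {ω | j ω = i})
    (hM : ∀ᵐ ω ∂μ, 0 ≤ M ω ∧ M ω ^ 2 = x ω ^ 2 + y ω ^ 2)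
    (hx : ∀ᵐ ω ∂μ, |x ω - M ω * co (j ω)| ≤ 2 * Real.pi / N * M ω)
    (hy : ∀ᵐ ω ∂μ, |y ω - M ω * si (j ω)| ≤ 2 * Real.pi / N * M ω) :
    (∫ ω, |M ω| ^ (p.toReal - 2) * (x ω * T y ω - y ω * T x ω) ∂μ) - 8 * Real.pi / N * ‖M‖ ^ p.toReal ≤
      VV T M hj 1 := by
  have hpr := toReal_gt_one h1 h2
  set r := p.toReal with hr
  have hN : (0 : ℝ) < N := by
    have := NeZero.pos N
    exact_mod_cast this
  have hpi := Real.pi_pos
  set δ : ℝ := 2 * Real.pi / N with hδ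
  have hδ0 : 0 ≤ δ := by positivity
  set S : Lp ℝ p μ := ∑ i, si (1 * i) • EE M hj i with hS
  set C : Lp ℝ p μ := ∑ i, co (1 * i) • EE M hj i with hC
  have hSc : ∀ᵐ ω ∂μ, S ω = si (j ω) * M ω := by
    filter_upwards [sum_EE_coe M hj (fun i => si (1 * i))] with ω h
    rw [hS, h, one_mul]
  have hCc : ∀ᵐ ω ∂μ, C ω = co (j ω) * M ω := by
    filter_upwards [sum_EE_coe M hj (fun i => co (1 * i))] with ω h
    rw [hC, h, one_mul]
  have hTn : ∀ z : Lp ℝ p μ, ‖T z‖ ≤ ‖z‖ := fun z => by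
    calc ‖T z‖ ≤ ‖T‖ * ‖z‖ := T.le_opNorm z
      _ ≤ 1 * ‖z‖ := by gcongr
      _ = ‖z‖ := one_mul _
  have nS : ‖T S‖ ≤ ‖M‖ := by
    refine (hTn S).trans (Lp.norm_le_norm_of_ae_le ?_)
    filter_upwards [hSc] with ω h
    rw [h, norm_mul, Real.norm_eq_abs]
    have := abs_si_le (j ω)
    have h0 := norm_nonneg (M ω)
    nlinarith
  have nC : ‖T C‖ ≤ ‖M‖ := by
    refine (hTn C).trans (Lp.norm_le_norm_of_ae_le ?_)
    filter_upwards [hCc] with ω h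
    rw [h, norm_mul, Real.norm_eq_abs]
    have := abs_co_le (j ω)
    have h0 := norm_nonneg (M ω)
    nlinarith
  have nyS : ‖T (y - S)‖ ≤ δ * ‖M‖ := by
    refine (hTn _).trans (Lp.norm_le_mul_norm_of_ae_le_mul ?_)
    filter_upwards [hSc, Lp.coeFn_sub y S, hy, hM] with ω h a hy hM
    rw [a, Pi.sub_apply, h, Real.norm_eq_abs, Real.norm_eq_abs, abs_of_nonneg hM.1, mul_comm (si _)]
    exact hy
  have nxC : ‖T (x - C)‖ ≤ δ * ‖M‖ := by
    refine (hTn _).trans (Lp.norm_le_mul_norm_of_ae_le_mul ?_)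
    filter_upwards [hCc, Lp.coeFn_sub x C, hx, hM] with ω h a hx hM
    rw [a, Pi.sub_apply, h, Real.norm_eq_abs, Real.norm_eq_abs, abs_of_nonneg hM.1, mul_comm (co _)]
    exact hx
  have mM : AEStronglyMeasurable (fun ω => |M ω| ^ (r - 2)) μ :=
    ((Lp.memLp M).1.norm.aemeasurable.pow_const _).aestronglyMeasurable
  have mz : ∀ z : Lp ℝ p μ, AEStronglyMeasurable (z : Ω → ℝ) μ := fun z => (Lp.memLp z).1
  have hMr : ∀ ω, |M ω| ^ (r - 2) * |M ω| = |M ω| ^ (r - 1) := fun ω => by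
    have := norm_pow_mul_self hpr (M ω)
    simpa only [Real.norm_eq_abs] using this
  have i0 : ∀ z : Lp ℝ p μ, Integrable (fun ω => |M ω| ^ (r - 1) * |z ω|) μ := fun z => by
    have := integrable_rpow_mul h1 h2 M z
    simpa only [Real.norm_eq_abs] using this
  have hxM : ∀ᵐ ω ∂μ, |x ω| ≤ |M ω| ∧ |y ω| ≤ |M ω| := by
    filter_upwards [hM] with ω h
    exact ⟨sq_le_sq.mp (by nlinarith [h.2, sq_nonneg (y ω)]),
      sq_le_sq.mp (by nlinarith [h.2, sq_nonneg (x ω)])⟩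
  have iF : ∀ u v u' v' : Lp ℝ p μ, (∀ᵐ ω ∂μ, |u ω| ≤ |M ω|) → (∀ᵐ ω ∂μ, |v ω| ≤ |M ω|) →
      Integrable (fun ω => |M ω| ^ (r - 2) * (u ω * u' ω - v ω * v' ω)) μ := by
    intro u v u' v' hu hv
    refine Integrable.mono' ((i0 u').add (i0 v'))
      (mM.mul (((mz u).mul (mz u')).sub ((mz v).mul (mz v')))) ?_
    filter_upwards [hu, hv] with ω a b
    rw [Pi.add_apply, Real.norm_eq_abs, abs_mul, abs_of_nonneg (by positivity : 0 ≤ |M ω| ^ (r - 2)),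
      ← hMr]
    have h3 : |u ω * u' ω - v ω * v' ω| ≤ |M ω| * |u' ω| + |M ω| * |v' ω| := by
      refine (abs_sub _ _).trans ?_
      rw [abs_mul, abs_mul]
      gcongr
    calc |M ω| ^ (r - 2) * |u ω * u' ω - v ω * v' ω| ≤
        |M ω| ^ (r - 2) * (|M ω| * |u' ω| + |M ω| * |v' ω|) := by gcongr
      _ = _ := by ring
  have hVV : VV T M hj 1 = ∫ ω, |M ω| ^ (r - 2) * (C ω * T S ω - S ω * T C ω) ∂μ := by
    rw [VV_eq h1 h2]
    apply integral_congr_ae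
    filter_upwards [hSc, hCc] with ω a b
    rw [a, b, one_mul]
    ring
  have hSM : ∀ᵐ ω ∂μ, |S ω| ≤ |M ω| := by
    filter_upwards [hSc] with ω a
    rw [a, abs_mul]
    have := abs_si_le (j ω)
    have h0 := abs_nonneg (M ω)
    nlinarith
  have hCM : ∀ᵐ ω ∂μ, |C ω| ≤ |M ω| := by
    filter_upwards [hCc] with ω a
    rw [a, abs_mul]
    have := abs_co_le (j ω)
    have h0 := abs_nonneg (M ω)
    nlinarith
  have iF1 := iF x y (T y) (T x) (hxM.mono fun _ h => h.1) (hxM.mono fun _ h => h.2)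
  have iF2 := iF C S (T S) (T C) hCM hSM
  have hB : ‖(∫ ω, |M ω| ^ (r - 2) * (x ω * T y ω - y ω * T x ω) ∂μ) -
      ∫ ω, |M ω| ^ (r - 2) * (C ω * T S ω - S ω * T C ω) ∂μ‖ ≤
      ∫ ω, (δ * (|M ω| ^ (r - 1) * |T S ω|) + |M ω| ^ (r - 1) * |T (y - S) ω|) +
        (δ * (|M ω| ^ (r - 1) * |T C ω|) + |M ω| ^ (r - 1) * |T (x - C) ω|) ∂μ := by
    rw [← integral_sub iF1 iF2]
    apply norm_integral_le_of_norm_le
    · exact (((i0 _).const_mul δ).add (i0 _)).add (((i0 _).const_mul δ).add (i0 _))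
    have e1 : ∀ᵐ ω ∂μ, T (y - S) ω = T y ω - T S ω := by
      rw [map_sub]
      exact Lp.coeFn_sub _ _
    have e2 : ∀ᵐ ω ∂μ, T (x - C) ω = T x ω - T C ω := by
      rw [map_sub]
      exact Lp.coeFn_sub _ _
    filter_upwards [e1, e2, hxM, hSc, hCc, hx, hy, hM] with ω b1 b2 b3 b4 b5 b6 b7 b8
    rw [b1, b2]
    have c1 : |M ω| ^ (r - 2) * (x ω * T y ω - y ω * T x ω) -
        |M ω| ^ (r - 2) * (C ω * T S ω - S ω * T C ω) = |M ω| ^ (r - 2) *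
        (((x ω - C ω) * T S ω + x ω * (T y ω - T S ω)) -
          ((y ω - S ω) * T C ω + y ω * (T x ω - T C ω))) := by ring
    rw [c1, Real.norm_eq_abs, abs_mul, abs_of_nonneg (by positivity : 0 ≤ |M ω| ^ (r - 2)), ← hMr]
    have d1 : |x ω - C ω| ≤ δ * |M ω| := by
      rw [b5, abs_of_nonneg b8.1, mul_comm (co _)]; exact b6
    have d2 : |y ω - S ω| ≤ δ * |M ω| := by
      rw [b4, abs_of_nonneg b8.1, mul_comm (si _)]; exact b7
    have d3 : |((x ω - C ω) * T S ω + x ω * (T y ω - T S ω)) -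
          ((y ω - S ω) * T C ω + y ω * (T x ω - T C ω))| ≤
        (δ * |M ω| * |T S ω| + |M ω| * |T y ω - T S ω|) +
          (δ * |M ω| * |T C ω| + |M ω| * |T x ω - T C ω|) := by
      refine (abs_sub _ _).trans (add_le_add ?_ ?_)
      · refine (abs_add_le _ _).trans ?_
        rw [abs_mul, abs_mul]
        exact add_le_add (mul_le_mul_of_nonneg_right d1 (abs_nonneg _))
          (mul_le_mul_of_nonneg_right b3.1 (abs_nonneg _))
      · refine (abs_add_le _ _).trans ?_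
        rw [abs_mul, abs_mul]
        exact add_le_add (mul_le_mul_of_nonneg_right d2 (abs_nonneg _))
          (mul_le_mul_of_nonneg_right b3.2 (abs_nonneg _))
    calc |M ω| ^ (r - 2) * |((x ω - C ω) * T S ω + x ω * (T y ω - T S ω)) -
          ((y ω - S ω) * T C ω + y ω * (T x ω - T C ω))| ≤ |M ω| ^ (r - 2) *
        ((δ * |M ω| * |T S ω| + |M ω| * |T y ω - T S ω|) +
          (δ * |M ω| * |T C ω| + |M ω| * |T x ω - T C ω|)) := by gcongr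
      _ = _ := by ring
  have hI : ∫ ω, (δ * (|M ω| ^ (r - 1) * |T S ω|) + |M ω| ^ (r - 1) * |T (y - S) ω|) +
        (δ * (|M ω| ^ (r - 1) * |T C ω|) + |M ω| ^ (r - 1) * |T (x - C) ω|) ∂μ ≤
      4 * δ * ‖M‖ ^ r := by
    have j1 : Integrable (fun ω => δ * (|M ω| ^ (r - 1) * |T S ω|)) μ := (i0 _).const_mul δ
    have j2 : Integrable (fun ω => |M ω| ^ (r - 1) * |T (y - S) ω|) μ := i0 _
    have j3 : Integrable (fun ω => δ * (|M ω| ^ (r - 1) * |T C ω|)) μ := (i0 _).const_mul δ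
    have j4 : Integrable (fun ω => |M ω| ^ (r - 1) * |T (x - C) ω|) μ := i0 _
    have j12 : Integrable (fun ω => δ * (|M ω| ^ (r - 1) * |T S ω|) +
      |M ω| ^ (r - 1) * |T (y - S) ω|) μ := j1.add j2
    have j34 : Integrable (fun ω => δ * (|M ω| ^ (r - 1) * |T C ω|) +
      |M ω| ^ (r - 1) * |T (x - C) ω|) μ := j3.add j4
    rw [integral_add j12 j34, integral_add j1 j2, integral_add j3 j4,
      integral_const_mul, integral_const_mul]
    have hMM : ‖M‖ ^ r = ‖M‖ ^ (r - 1) * ‖M‖ := by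
      rcases eq_or_ne ‖M‖ 0 with h0 | h0
      · rw [h0, Real.zero_rpow (by linarith)]; simp
      · rw [← Real.rpow_add_one h0]; congr 1; ring
    have hp0 : 0 ≤ ‖M‖ ^ (r - 1) := by positivity
    have k1 : δ * ∫ ω, |M ω| ^ (r - 1) * |T S ω| ∂μ ≤ δ * ‖M‖ ^ r := by
      rw [hMM]
      refine mul_le_mul_of_nonneg_left ((hold h1 h2 M (T S)).trans ?_) hδ0
      gcongr
    have k2 : ∫ ω, |M ω| ^ (r - 1) * |T (y - S) ω| ∂μ ≤ δ * ‖M‖ ^ r := by
      rw [hMM]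
      refine (hold h1 h2 M (T (y - S))).trans ?_
      calc ‖M‖ ^ (r - 1) * ‖T (y - S)‖ ≤ ‖M‖ ^ (r - 1) * (δ * ‖M‖) := by gcongr
        _ = _ := by ring
    have k3 : δ * ∫ ω, |M ω| ^ (r - 1) * |T C ω| ∂μ ≤ δ * ‖M‖ ^ r := by
      rw [hMM]
      refine mul_le_mul_of_nonneg_left ((hold h1 h2 M (T C)).trans ?_) hδ0
      gcongr
    have k4 : ∫ ω, |M ω| ^ (r - 1) * |T (x - C) ω| ∂μ ≤ δ * ‖M‖ ^ r := by
      rw [hMM]
      refine (hold h1 h2 M (T (x - C))).trans ?_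
      calc ‖M‖ ^ (r - 1) * ‖T (x - C)‖ ≤ ‖M‖ ^ (r - 1) * (δ * ‖M‖) := by gcongr
        _ = _ := by ring
    linarith
  have h5 := (le_abs_self _).trans ((Real.norm_eq_abs _).symm.le.trans (hB.trans hI))
  rw [← hVV] at h5
  have e8 : 8 * Real.pi / N * ‖M‖ ^ r = 4 * δ * ‖M‖ ^ r := by rw [hδ]; ring
  rw [e8]
  linarith

end Pool.Agent.Work.MP_95d40a_an.R2
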