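import Pool.Agent.Work.MP_95d40a_an.R2.Avg

set_option autoImplicit false

/-!
# LinA: the sine transform of `tau` as an integral

`r = p.toReal`, `Cf k = ∑_i co (k i) • EE i`, `Sf k = ∑_i si (k i) • EE i` (so `Cf k ω = co (k j(ω)) M ω` a.e.).
* `sum_EE_coe`: `(∑_i c_i • EE_i) ω = c_{j ω} M ω` a.e. (`cut_coe`, `Lp.coeFn_smul`, finite sums `Lp.coeFn_add`; there is a
  complex version `Lp_sum_coe` in `CRow.lean` whose proof can be copied).
* `VV_neg`: `VV (-k) = - VV k` (`si_neg`).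
* `VV_eq`: `VV k = ∑_d ∑_l JP EE_l (T EE_{l+d}) si (k d) = ∑_{l,i} JP EE_l (T EE_i) si (k (i - l))`,
  `si (k(i-l)) = si (k i) co (k l) - co (k i) si (k l)`, linearity of `T` and of `JP` in the second argument, and
  `∑_l co (k l) JP EE_l y = ∫ |M|^(r-2) M co (k j(ω)) y ω` (`JP = ∫ |x|^(r-2) x y`, `JP_real_eq`, `jj`).
-/

open MeasureTheory
open scoped ENNReal

namespace Pool.Agent.Work.MP_95d40a_an.R2

variable {Ω : Type*} [MeasurableSpace Ω] {μ : Measure Ω} {p : ℝ≥0∞} {N : ℕ} [NeZero N]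

private lemma lp_sum_coe {ι : Type*} (s : Finset ι) (f : ι → Lp ℝ p μ) :
    ((∑ i ∈ s, f i : Lp ℝ p μ) : Ω → ℝ) =ᵐ[μ] fun ω => ∑ i ∈ s, f i ω := by
  classical
  induction s using Finset.induction_on with
  | empty =>
    simp only [Finset.sum_empty]
    exact Lp.coeFn_zero ℝ p μ
  | insert i s hi ih =>
    rw [Finset.sum_insert hi]
    filter_upwards [Lp.coeFn_add (f i) (∑ j ∈ s, f j), ih] with ω e1 e2
    rw [e1, Pi.add_apply, e2, Finset.sum_insert hi]

private lemma EE_all (M : Lp ℝ p μ) {j : Ω → ZMod N} (hj : ∀ i, MeasurableSet {ω | j ω = i}) :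
    ∀ᵐ ω ∂μ, ∀ i, EE M hj i ω = if j ω = i then M ω else 0 := by
  rw [ae_all_iff]
  intro i
  filter_upwards [cut_coe M (hj i)] with ω h
  unfold EE
  rw [h]
  by_cases hi : j ω = i
  · rw [if_pos hi, Set.indicator_of_mem (by exact hi)]
  · rw [if_neg hi, Set.indicator_of_notMem (by exact hi)]

private lemma jp_sum_right [Fact (1 ≤ p)] (h1 : 1 < p) (h2 : p ≠ ∞) {ι : Type*} (s : Finset ι)
    (x : Lp ℝ p μ) (f : ι → Lp ℝ p μ) :
    JP p.toReal μ (x : Ω → ℝ) (∑ i ∈ s, f i : Lp ℝ p μ) = ∑ i ∈ s, JP p.toReal μ (x : Ω → ℝ) (f i) := by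
  classical
  induction s using Finset.induction_on with
  | empty =>
    rw [Finset.sum_empty, Finset.sum_empty]
    have := JP_smul_right (μ := μ) (p := p) p.toReal (0 : ℝ) (x : Ω → ℝ) (0 : Lp ℝ p μ)
    simpa using this
  | insert i s hi ih => rw [Finset.sum_insert hi, JP_add_right h1 h2, ih, Finset.sum_insert hi]

theorem sum_EE_coe [Fact (1 ≤ p)] (M : Lp ℝ p μ) {j : Ω → ZMod N}
    (hj : ∀ i, MeasurableSet {ω | j ω = i}) (c : ZMod N → ℝ) :
    ∀ᵐ ω ∂μ, (∑ i, c i • EE M hj i : Lp ℝ p μ) ω = c (j ω) * M ω := by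
  have hall : ∀ᵐ ω ∂μ, ∀ i, (c i • EE M hj i : Lp ℝ p μ) ω = c i * EE M hj i ω := by
    rw [ae_all_iff]
    intro i
    filter_upwards [Lp.coeFn_smul (c i) (EE M hj i)] with ω e
    rw [e, Pi.smul_apply, smul_eq_mul]
  filter_upwards [lp_sum_coe Finset.univ fun i => c i • EE M hj i, hall, EE_all M hj] with ω e1 e2 e3
  rw [e1, Finset.sum_congr rfl fun i _ => e2 i, Finset.sum_eq_single (j ω)]
  · rw [e3, if_pos rfl]
  · intro i _ hi
    rw [e3, if_neg (Ne.symm hi), mul_zero]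
  · intro h; exact absurd (Finset.mem_univ _) h

theorem VV_neg [Fact (1 ≤ p)] (T : Lp ℝ p μ →L[ℝ] Lp ℝ p μ) (M : Lp ℝ p μ)
    {j : Ω → ZMod N} (hj : ∀ i, MeasurableSet {ω | j ω = i}) (k : ZMod N) : VV T M hj (-k) = - VV T M hj k := by
  unfold VV
  rw [← Finset.sum_neg_distrib]
  refine Finset.sum_congr rfl fun d _ => ?_
  rw [neg_mul, si_neg, mul_neg]

theorem VV_eq [Fact (1 ≤ p)] (h1 : 1 < p) (h2 : p ≠ ∞) (T : Lp ℝ p μ →L[ℝ] Lp ℝ p μ) (M : Lp ℝ p μ)
    {j : Ω → ZMod N} (hj : ∀ i, MeasurableSet {ω | j ω = i}) (k : ZMod N) :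
    VV T M hj k = ∫ ω, |M ω| ^ (p.toReal - 2) * M ω *
      (co (k * j ω) * (T (∑ i, si (k * i) • EE M hj i)) ω - si (k * j ω) * (T (∑ i, co (k * i) • EE M hj i)) ω) ∂μ := by
  set S : Lp ℝ p μ := ∑ i, si (k * i) • EE M hj i with hS
  set C : Lp ℝ p μ := ∑ i, co (k * i) • EE M hj i with hC
  have hTS : T S = ∑ i, si (k * i) • T (EE M hj i) := by
    rw [hS, map_sum]; exact Finset.sum_congr rfl fun i _ => map_smul _ _ _
  have hTC : T C = ∑ i, co (k * i) • T (EE M hj i) := by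
    rw [hC, map_sum]; exact Finset.sum_congr rfl fun i _ => map_smul _ _ _
  have e1 : VV T M hj k = ∑ l, JP p.toReal μ (EE M hj l : Ω → ℝ)
      (co (k * l) • T S + (- si (k * l)) • T C : Lp ℝ p μ) := by
    unfold VV tau
    simp_rw [Finset.sum_mul]
    rw [Finset.sum_comm]
    refine Finset.sum_congr rfl fun l _ => ?_
    rw [← Equiv.sum_comp (Equiv.addLeft (-l))]
    rw [JP_add_right h1 h2, JP_smul_right, JP_smul_right, hTS, hTC, jp_sum_right h1 h2,
      jp_sum_right h1 h2, Finset.mul_sum, Finset.mul_sum, ← Finset.sum_add_distrib]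
    refine Finset.sum_congr rfl fun i _ => ?_
    rw [JP_smul_right, JP_smul_right]
    simp only [Equiv.coe_addLeft]
    have e2 : l + (-l + i) = i := by ring
    have e3 : k * (-l + i) = k * i + -(k * l) := by ring
    rw [e2, e3, si_add, si_neg, co_neg]
    ring
  rw [e1]
  have hint : ∀ l ∈ (Finset.univ : Finset (ZMod N)), Integrable (fun ω =>
      ((‖EE M hj l ω‖ ^ (p.toReal - 2) : ℝ) : ℝ) * (starRingEnd ℝ (EE M hj l ω) *
        (co (k * l) • T S + (- si (k * l)) • T C : Lp ℝ p μ) ω)) μ := fun l _ =>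
    integrable_JP (𝕜 := ℝ) h1 h2 (EE M hj l) (co (k * l) • T S + (- si (k * l)) • T C)
  have e4 : ∑ l, JP p.toReal μ (EE M hj l : Ω → ℝ)
      (co (k * l) • T S + (- si (k * l)) • T C : Lp ℝ p μ) =
      ∫ ω, ∑ l, ((‖EE M hj l ω‖ ^ (p.toReal - 2) : ℝ) : ℝ) * (starRingEnd ℝ (EE M hj l ω) *
        (co (k * l) • T S + (- si (k * l)) • T C : Lp ℝ p μ) ω) ∂μ := by
    rw [integral_finsetSum _ hint]
    rfl
  rw [e4]
  apply integral_congr_ae
  have hall : ∀ᵐ ω ∂μ, ∀ l, (co (k * l) • T S + (- si (k * l)) • T C : Lp ℝ p μ) ω =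
      co (k * l) * T S ω - si (k * l) * T C ω := by
    rw [ae_all_iff]
    intro l
    filter_upwards [Lp.coeFn_add (co (k * l) • T S) ((- si (k * l)) • T C),
      Lp.coeFn_smul (co (k * l)) (T S), Lp.coeFn_smul (- si (k * l)) (T C)] with ω a1 a2 a3
    rw [a1, Pi.add_apply, a2, a3, Pi.smul_apply, Pi.smul_apply, smul_eq_mul, smul_eq_mul]
    ring
  filter_upwards [hall, EE_all M hj] with ω b1 b2
  rw [Finset.sum_eq_single (j ω)]
  · rw [b1, b2, if_pos rfl]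
    simp only [Real.norm_eq_abs, starRingEnd_apply, star_trivial]
    ring
  · intro l _ hl
    rw [b2 l, if_neg (Ne.symm hl)]
    simp
  · intro h; exact absurd (Finset.mem_univ _) h

end Pool.Agent.Work.MP_95d40a_an.R2
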