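import Pool.Agent.Work.MP_95d40a_an.R2.LinA

set_option autoImplicit false

/-!
# Mz: the upper bound for the sine transform

* `mz`: `∫ ((T X)² + (T Y)²)^(r/2) ≤ 2^(|r-2|/2) ∫ (X² + Y²)^(r/2)` if `‖T‖ ≤ 1`:
  `r ≤ 2`: `(a²+b²)^(r/2) ≤ |a|^r + |b|^r ≤ 2^(1-r/2) (a²+b²)^(r/2)`; `r ≥ 2`: `|a|^r + |b|^r ≤ (a²+b²)^(r/2) ≤
  2^(r/2-1) (|a|^r + |b|^r)` (`Real.rpow_add_le_mul_rpow_add_rpow`, `Real.add_rpow_le_rpow_add`, or concavity /
  convexity of `x ^ (r/2)`); and `∫ |TX|^r ≤ ∫ |X|^r` (`norm_rpow_eq`).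
* `VV_le`: by `VV_eq`; `|co (k j) T S - si (k j) T C| ≤ sqrt ((T C)² + (T S)²) =: R` (Cauchy-Schwarz), so with
  `R ∈ Lp`: `|VV k| ≤ ∫ |M|^(r-1) R ≤ ‖M‖^(r-1) ‖R‖` (apply `JP_bound` to `|M|` and `R`, or Hoelder),
  `‖R‖^r ≤ 2^(|r-2|/2) ‖M‖^r` by `mz` (`C² + S² = M²` by `sum_EE_coe`, `co_sq_add`), hence
  `|VV k| ≤ 2^(|r-2|/(2r)) ‖M‖^r ≤ (1 + |r-2|) ‖M‖^r` (`2^x ≤ 1 + x` on `[0,1]`).
-/

open MeasureTheory
open scoped ENNReal

namespace Pool.Agent.Work.MP_95d40a_an.R2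

variable {Ω : Type*} [MeasurableSpace Ω] {μ : Measure Ω} {p : ℝ≥0∞} {N : ℕ} [NeZero N]

private lemma pw_nn (s : ℝ) (hs : 0 < s) : ∃ A B : ℝ, 0 ≤ A ∧ 0 ≤ B ∧ A * B = 2 ^ |s - 1| ∧
    ∀ u v : ℝ, 0 ≤ u → 0 ≤ v → (u + v) ^ s ≤ A * (u ^ s + v ^ s) ∧ u ^ s + v ^ s ≤ B * (u + v) ^ s := by
  rcases le_total s 1 with h | h
  · refine ⟨1, 2 ^ (1 - s), by norm_num, by positivity, ?_, fun u v hu hv => ?_⟩
    · rw [one_mul, abs_of_nonpos (by linarith)]; congr 1; ring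
    lift u to NNReal using hu
    lift v to NNReal using hv
    constructor
    · have := NNReal.rpow_add_le_add_rpow u v hs.le h
      rw [one_mul]
      exact_mod_cast this
    · have h1 := NNReal.rpow_add_le_mul_rpow_add_rpow (u ^ s) (v ^ s) (p := s⁻¹)
        ((one_le_inv₀ hs).2 h)
      rw [NNReal.rpow_rpow_inv hs.ne', NNReal.rpow_rpow_inv hs.ne'] at h1
      have h2 := NNReal.rpow_le_rpow h1 hs.le
      rw [NNReal.rpow_inv_rpow hs.ne', NNReal.mul_rpow, ← NNReal.rpow_mul] at h2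
      have e : (s⁻¹ - 1) * s = 1 - s := by field_simp
      rw [e] at h2
      exact_mod_cast h2
  · refine ⟨2 ^ (s - 1), 1, by positivity, by norm_num, ?_, fun u v hu hv => ?_⟩
    · rw [mul_one, abs_of_nonneg (by linarith)]
    lift u to NNReal using hu
    lift v to NNReal using hv
    constructor
    · have := NNReal.rpow_add_le_mul_rpow_add_rpow u v h
      exact_mod_cast this
    · have := NNReal.add_rpow_le_rpow_add u v h
      rw [one_mul]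
      exact_mod_cast this

private lemma sq_half (r a : ℝ) : (a ^ 2) ^ (r / 2) = |a| ^ r := by
  rw [← sq_abs, ← Real.rpow_natCast, ← Real.rpow_mul (abs_nonneg a)]
  congr 1
  push_cast
  ring

private lemma int_sq [Fact (1 ≤ p)] (h1 : 1 < p) (h2 : p ≠ ∞) (X Y : Lp ℝ p μ) :
    Integrable (fun ω => (X ω ^ 2 + Y ω ^ 2) ^ (p.toReal / 2)) μ := by
  have hpr := toReal_gt_one h1 h2
  obtain ⟨A, B, hA, hB, hAB, hp⟩ := pw_nn (p.toReal / 2) (by linarith)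
  have hi : Integrable (fun ω => A * (‖X ω‖ ^ p.toReal + ‖Y ω‖ ^ p.toReal)) μ :=
    ((integrable_rpow h1 h2 X).add (integrable_rpow h1 h2 Y)).const_mul A
  refine Integrable.mono' hi ?_ ?_
  · exact (((Lp.memLp X).1.aemeasurable.pow_const 2).add
      ((Lp.memLp Y).1.aemeasurable.pow_const 2)).pow_const _ |>.aestronglyMeasurable
  · refine Filter.Eventually.of_forall fun ω => ?_
    rw [Real.norm_of_nonneg (by positivity)]
    have := (hp (X ω ^ 2) (Y ω ^ 2) (by positivity) (by positivity)).1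
    rw [sq_half, sq_half] at this
    exact this

theorem mz [Fact (1 ≤ p)] (h1 : 1 < p) (h2 : p ≠ ∞) (T : Lp ℝ p μ →L[ℝ] Lp ℝ p μ) (hT : ‖T‖ ≤ 1) (X Y : Lp ℝ p μ) :
    ∫ ω, (T X ω ^ 2 + T Y ω ^ 2) ^ (p.toReal / 2) ∂μ ≤
      2 ^ (|p.toReal - 2| / 2) * ∫ ω, (X ω ^ 2 + Y ω ^ 2) ^ (p.toReal / 2) ∂μ := by
  have hpr := toReal_gt_one h1 h2
  obtain ⟨A, B, hA, hB, hAB, hp⟩ := pw_nn (p.toReal / 2) (by linarith)
  have hTn : ∀ z : Lp ℝ p μ, ‖T z‖ ^ p.toReal ≤ ‖z‖ ^ p.toReal := fun z => by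
    apply Real.rpow_le_rpow (norm_nonneg _) _ (by linarith)
    calc ‖T z‖ ≤ ‖T‖ * ‖z‖ := T.le_opNorm z
      _ ≤ 1 * ‖z‖ := by gcongr
      _ = ‖z‖ := one_mul _
  have e1 : ∫ ω, (T X ω ^ 2 + T Y ω ^ 2) ^ (p.toReal / 2) ∂μ ≤
      ∫ ω, A * (‖T X ω‖ ^ p.toReal + ‖T Y ω‖ ^ p.toReal) ∂μ := by
    apply integral_mono (int_sq h1 h2 _ _)
      (((integrable_rpow h1 h2 (T X)).add (integrable_rpow h1 h2 (T Y))).const_mul A)
    intro ω
    have := (hp (T X ω ^ 2) (T Y ω ^ 2) (by positivity) (by positivity)).1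
    rw [sq_half, sq_half] at this
    exact this
  have e2 : ∫ ω, A * (‖T X ω‖ ^ p.toReal + ‖T Y ω‖ ^ p.toReal) ∂μ =
      A * (‖T X‖ ^ p.toReal + ‖T Y‖ ^ p.toReal) := by
    rw [integral_const_mul, integral_add (integrable_rpow h1 h2 (T X)) (integrable_rpow h1 h2 (T Y)),
      ← norm_rpow_eq h1 h2, ← norm_rpow_eq h1 h2]
  have e3 : ‖X‖ ^ p.toReal + ‖Y‖ ^ p.toReal ≤ B * ∫ ω, (X ω ^ 2 + Y ω ^ 2) ^ (p.toReal / 2) ∂μ := by
    rw [norm_rpow_eq h1 h2, norm_rpow_eq h1 h2,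
      ← integral_add (integrable_rpow h1 h2 X) (integrable_rpow h1 h2 Y), ← integral_const_mul]
    apply integral_mono ((integrable_rpow h1 h2 X).add (integrable_rpow h1 h2 Y))
      ((int_sq h1 h2 X Y).const_mul B)
    intro ω
    have := (hp (X ω ^ 2) (Y ω ^ 2) (by positivity) (by positivity)).2
    rw [sq_half, sq_half] at this
    exact this
  have e4 : |p.toReal - 2| / 2 = |p.toReal / 2 - 1| := by
    have : p.toReal / 2 - 1 = (p.toReal - 2) / 2 := by ring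
    rw [this, abs_div, abs_two]
  rw [e4, ← hAB]
  calc ∫ ω, (T X ω ^ 2 + T Y ω ^ 2) ^ (p.toReal / 2) ∂μ ≤ A * (‖T X‖ ^ p.toReal + ‖T Y‖ ^ p.toReal) :=
        e1.trans e2.le
    _ ≤ A * (‖X‖ ^ p.toReal + ‖Y‖ ^ p.toReal) :=
        mul_le_mul_of_nonneg_left (add_le_add (hTn X) (hTn Y)) hA
    _ ≤ A * (B * ∫ ω, (X ω ^ 2 + Y ω ^ 2) ^ (p.toReal / 2) ∂μ) := mul_le_mul_of_nonneg_left e3 hA
    _ = _ := by ring

private lemma hold [Fact (1 ≤ p)] (h1 : 1 < p) (h2 : p ≠ ∞) (x y : Lp ℝ p μ) :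
    ∫ ω, |x ω| ^ (p.toReal - 1) * |y ω| ∂μ ≤ ‖x‖ ^ (p.toReal - 1) * ‖y‖ := by
  have hpr := toReal_gt_one h1 h2
  have e : JP p.toReal μ ((|x| : Lp ℝ p μ) : Ω → ℝ) (|y| : Lp ℝ p μ) =
      ∫ ω, |x ω| ^ (p.toReal - 1) * |y ω| ∂μ := by
    unfold JP
    apply integral_congr_ae
    filter_upwards [Lp.coeFn_abs x, Lp.coeFn_abs y] with ω a1 a2
    rw [a1, a2]
    have := norm_pow_mul_self hpr (x ω)
    simp only [Real.norm_eq_abs, starRingEnd_apply, star_trivial, abs_abs] at this ⊢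
    rw [← this]
    simp only [RCLike.ofReal_real_eq_id, id]
    ring
  rw [← e]
  have h3 := JP_bound h1 h2 (|x| : Lp ℝ p μ) (|y| : Lp ℝ p μ)
  rw [norm_abs_eq_norm, norm_abs_eq_norm] at h3
  exact (le_abs_self _).trans h3

theorem VV_le [Fact (1 ≤ p)] (h1 : 1 < p) (h2 : p ≠ ∞) (hr : |p.toReal - 2| ≤ 1 / 2)
    (T : Lp ℝ p μ →L[ℝ] Lp ℝ p μ) (hT : ‖T‖ ≤ 1) (M : Lp ℝ p μ)
    {j : Ω → ZMod N} (hj : ∀ i, MeasurableSet {ω | j ω = i}) (k : ZMod N) :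
    |VV T M hj k| ≤ (1 + |p.toReal - 2|) * ‖M‖ ^ p.toReal := by
  have hpr := toReal_gt_one h1 h2
  rw [VV_eq h1 h2]
  set S : Lp ℝ p μ := ∑ i, si (k * i) • EE M hj i with hS
  set C : Lp ℝ p μ := ∑ i, co (k * i) • EE M hj i with hC
  have hSc : ∀ᵐ ω ∂μ, S ω = si (k * j ω) * M ω := sum_EE_coe M hj (fun i => si (k * i))
  have hCc : ∀ᵐ ω ∂μ, C ω = co (k * j ω) * M ω := sum_EE_coe M hj (fun i => co (k * i))
  -- the function R
  have hRm : MemLp (fun ω => Real.sqrt (T S ω ^ 2 + T C ω ^ 2)) p μ := by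
    have hab : MemLp (fun ω => |T S ω| + |T C ω|) p μ := by
      have a1 : MemLp (fun ω => |T S ω|) p μ := (Lp.memLp (T S)).norm
      have a2 : MemLp (fun ω => |T C ω|) p μ := (Lp.memLp (T C)).norm
      exact a1.add a2
    refine MemLp.of_le hab ?_ ?_
    · exact ((((Lp.memLp (T S)).1.aemeasurable.pow_const 2).add
        ((Lp.memLp (T C)).1.aemeasurable.pow_const 2)).sqrt).aestronglyMeasurable
    · refine Filter.Eventually.of_forall fun ω => ?_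
      rw [Real.norm_of_nonneg (Real.sqrt_nonneg _), Real.norm_of_nonneg (by positivity)]
      apply Real.sqrt_le_iff.2
      refine ⟨by positivity, ?_⟩
      have b1 := sq_abs (T S ω)
      have b2 := sq_abs (T C ω)
      nlinarith [abs_nonneg (T S ω), abs_nonneg (T C ω), mul_nonneg (abs_nonneg (T S ω)) (abs_nonneg (T C ω))]
  obtain ⟨R, hR⟩ : ∃ R : Lp ℝ p μ, (R : Ω → ℝ) =ᵐ[μ] fun ω => Real.sqrt (T S ω ^ 2 + T C ω ^ 2) :=
    ⟨hRm.toLp _, MemLp.coeFn_toLp _⟩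
  have hRn : ‖R‖ ^ p.toReal ≤ 2 ^ (|p.toReal - 2| / 2) * ‖M‖ ^ p.toReal := by
    have a1 : ‖R‖ ^ p.toReal = ∫ ω, (T S ω ^ 2 + T C ω ^ 2) ^ (p.toReal / 2) ∂μ := by
      rw [norm_rpow_eq h1 h2]
      apply integral_congr_ae
      filter_upwards [hR] with ω h
      rw [h, Real.norm_eq_abs, ← sq_half, Real.sq_sqrt (by positivity)]
    have a2 : ∫ ω, (S ω ^ 2 + C ω ^ 2) ^ (p.toReal / 2) ∂μ = ‖M‖ ^ p.toReal := by
      rw [norm_rpow_eq h1 h2]
      apply integral_congr_ae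
      filter_upwards [hSc, hCc] with ω b1 b2
      have : S ω ^ 2 + C ω ^ 2 = M ω ^ 2 := by
        rw [b1, b2]
        have := co_sq_add (k * j ω)
        linear_combination (M ω) ^ 2 * this
      rw [this, sq_half, Real.norm_eq_abs]
    rw [a1, ← a2]
    exact mz h1 h2 T hT S C
  have hR2 : ‖R‖ ≤ (1 + |p.toReal - 2|) * ‖M‖ := by
    have h0 := abs_nonneg (p.toReal - 2)
    rw [← Real.rpow_le_rpow_iff (norm_nonneg _) (by positivity) (by linarith : 0 < p.toReal),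
      Real.mul_rpow (by linarith) (norm_nonneg _)]
    refine hRn.trans (mul_le_mul_of_nonneg_right ?_ (by positivity))
    have c1 : (2 : ℝ) ^ (|p.toReal - 2| / 2) ≤ 1 + |p.toReal - 2| / 2 * 1 := by
      have := rpow_one_add_le_one_add_mul_self (s := 1) (by norm_num)
        (p := |p.toReal - 2| / 2) (by linarith) (by linarith)
      have e : (1 : ℝ) + 1 = 2 := by norm_num
      rw [e] at this
      exact this
    have c2 : (1 + |p.toReal - 2|) ≤ (1 + |p.toReal - 2|) ^ p.toReal := by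
      have := Real.rpow_le_rpow_of_exponent_le (x := 1 + |p.toReal - 2|) (by linarith) hpr.le
      rwa [Real.rpow_one] at this
    linarith
  have hMr : ∀ ω, |M ω| ^ (p.toReal - 2) * |M ω| = |M ω| ^ (p.toReal - 1) := fun ω => by
    have := norm_pow_mul_self hpr (M ω)
    simpa only [Real.norm_eq_abs] using this
  have hMM : ‖M‖ ^ p.toReal = ‖M‖ ^ (p.toReal - 1) * ‖M‖ := by
    rcases eq_or_ne ‖M‖ 0 with h0 | h0
    · rw [h0, Real.zero_rpow (by linarith)]; simp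
    · rw [← Real.rpow_add_one h0]; congr 1; ring
  have iR : Integrable (fun ω => |M ω| ^ (p.toReal - 1) * |R ω|) μ := by
    have := integrable_rpow_mul h1 h2 M R
    simpa only [Real.norm_eq_abs] using this
  rw [← Real.norm_eq_abs]
  refine (norm_integral_le_of_norm_le iR ?_).trans ((hold h1 h2 M R).trans ?_)
  · filter_upwards [hR] with ω h
    rw [Real.norm_eq_abs, abs_mul, abs_mul, abs_of_nonneg (by positivity : 0 ≤ |M ω| ^ (p.toReal - 2)),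
      hMr]
    refine mul_le_mul_of_nonneg_left ?_ (by positivity)
    rw [h, abs_of_nonneg (Real.sqrt_nonneg _)]
    apply Real.abs_le_sqrt
    have := co_sq_add (k * j ω)
    nlinarith [sq_nonneg (co (k * j ω) * T C ω + si (k * j ω) * T S ω)]
  · calc ‖M‖ ^ (p.toReal - 1) * ‖R‖ ≤ ‖M‖ ^ (p.toReal - 1) * ((1 + |p.toReal - 2|) * ‖M‖) := by gcongr
      _ = _ := by rw [hMM]; ring

end Pool.Agent.Work.MP_95d40a_an.R2
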