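import Pool.Agent.Work.MP_95d40a_an.R2.ZetaS
import Pool.Agent.Work.MP_95d40a_an.RealKey3

set_option autoImplicit false

/-!
# Near: scalar facts near two

`Mp_near`: for `r > 2`, `s ∈ (0,1]`, `θ = r - 2`: `|s^(r-1) - s| = s (1 - s^θ) ≤ θ s (- log s) ≤ θ cM (1 + s²)`
(`cM_max`), `(1 + s²)/(1 + s^r) ≤ 1 + s² - s^r ≤ 1 + θ s² (- log s) ≤ 1 + θ` (and the value at `s = 0` is `0`), so
`Mp r ≤ θ cM (1 + θ)`.  For `r < 2` use `Mp_conj_le` (`Mp r ≤ Mp q`, `q = r/(r-1) > 2`, `r = q/(q-1)`,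
`q - 2 = (2 - r)/(r - 1) ≤ (2-r)(1 + 2 (2-r))` for `2 - r ≤ 1/2`).  Both cases give
`Mp r ≤ |r-2| cM (1 + 6 |r-2|)` for `|r-2| ≤ 1/10`.

`ell_near`: `c ≠ 0` real with `t² ≤ |c| ≤ 1`, `a = (r-2) log |c|`, `|a| ≤ 2.4 |r-2| ≤ 1`:
`jj r c - c = c (e^a - 1)`, `|e^a - 1 - a| ≤ a²` (`Real.abs_exp_sub_one_sub_id_le`), so
`|jj r c - c - (r-2) ell c| ≤ |c| a² ≤ 6 (r-2)²`.

`pow_near`: `|c|^r ≤ (1 + 6 |r-2|) c²` for `t² ≤ |c| ≤ 1`, `|r-2| ≤ 1/10`: `|c|^r = c² |c|^(r-2) ≤ c² e^{2.4 |r-2|}`.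
-/

open Set

namespace Pool.Agent.Work.MP_95d40a_an.R2

variable {t : ℝ}

private lemma xlog {x : ℝ} (hx : 0 < x) (hx1 : x ≤ 1) : x * (- Real.log x) ≤ 1 / 2 := by
  have hy : 0 ≤ - Real.log x := by
    have := Real.log_nonpos hx.le hx1
    linarith
  have h1 := Real.quadratic_le_exp_of_nonneg hy
  rw [Real.exp_neg, Real.exp_log hx] at h1
  have h2 : 2 * (- Real.log x) ≤ x⁻¹ := by
    nlinarith [sq_nonneg (- Real.log x - 1)]
  have h3 : x * (2 * (- Real.log x)) ≤ x * x⁻¹ := by gcongr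
  rw [mul_inv_cancel₀ hx.ne'] at h3
  linarith

private lemma Mp_ge_two (ht : Crit t) {r : ℝ} (hr : 2 ≤ r) :
    Mp r ≤ (r - 2) * (cM t * (1 + (r - 2))) := by
  obtain ⟨s, hs0, hs1, hs⟩ := exists_Mp (p := r) (by linarith)
  have hcM := cM_bounds ht
  have hcM0 : 0 < cM t := by linarith [hcM.1]
  obtain ⟨θ, rfl⟩ : ∃ θ, r = 2 + θ := ⟨r - 2, by ring⟩
  have hθ : 0 ≤ θ := by linarith
  have e0 : 2 + θ - 2 = θ := by ring
  rw [e0]
  rcases hs0.eq_or_lt with rfl | hs0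
  · rw [Real.zero_rpow (by linarith), Real.zero_rpow (by linarith)] at hs
    have : Mp (2 + θ) = 0 := by simpa using hs.symm
    rw [this]; positivity
  have e1 : s ^ (2 + θ - 1) = s * s ^ θ := by
    rw [show 2 + θ - 1 = 1 + θ by ring, Real.rpow_add hs0, Real.rpow_one]
  have e2 : s ^ (2 + θ) = s ^ 2 * s ^ θ := by
    rw [Real.rpow_add hs0]; norm_num
  rw [e1, e2] at hs
  set w := s ^ θ with hw
  have hw0 : 0 < w := by positivity
  have hw1 : w ≤ 1 := Real.rpow_le_one hs0.le hs1 hθ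
  have hw2 : 1 + θ * Real.log s ≤ w := by
    rw [hw, Real.rpow_def_of_pos hs0]
    have := Real.add_one_le_exp (Real.log s * θ)
    linarith
  have hL := xlog hs0 hs1
  have hM := cM_max ht hs0
  have hlog : 0 ≤ - Real.log s := by
    have := Real.log_nonpos hs0.le hs1
    linarith
  have habs : |s * w - s| = s * (1 - w) := by
    rw [abs_of_nonpos (by nlinarith)]; ring
  rw [habs] at hs
  have h1 : s * (1 - w) ≤ θ * (s * (- Real.log s)) := by nlinarith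
  have h2 : s * (1 - w) ≤ θ * (cM t * (1 + s ^ 2)) := h1.trans (by gcongr)
  have h3 : s ^ 2 - s ^ 2 * w ≤ θ := by
    have a1 : s ^ 2 * (1 - w) ≤ s ^ 2 * (θ * (- Real.log s)) := by
      have : 1 - w ≤ θ * (- Real.log s) := by linarith
      gcongr
    have a2 : s ^ 2 * (θ * (- Real.log s)) = θ * (s * (s * (- Real.log s))) := by ring
    have a3 : s * (s * (- Real.log s)) ≤ 1 := by
      have : s * (s * (- Real.log s)) ≤ 1 * (1 / 2) := by
        apply mul_le_mul hs1 hL _ zero_le_one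
        positivity
      linarith
    have a4 : θ * (s * (s * (- Real.log s))) ≤ θ * 1 := by gcongr
    nlinarith
  have hpos : 0 < 1 + s ^ 2 * w := by positivity
  have h4 : 1 + s ^ 2 ≤ (1 + θ) * (1 + s ^ 2 * w) := by
    have : 0 ≤ θ * (s ^ 2 * w) := by positivity
    nlinarith
  have h5 : Mp (2 + θ) * (1 + s ^ 2 * w) ≤ (θ * (cM t * (1 + θ))) * (1 + s ^ 2 * w) := by
    calc Mp (2 + θ) * (1 + s ^ 2 * w) = s * (1 - w) := hs.symm
      _ ≤ θ * (cM t * (1 + s ^ 2)) := h2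
      _ ≤ θ * (cM t * ((1 + θ) * (1 + s ^ 2 * w))) := by gcongr
      _ = _ := by ring
  exact le_of_mul_le_mul_right h5 hpos

theorem Mp_near (ht : Crit t) {r : ℝ} (hr : |r - 2| ≤ 1 / 10) :
    Mp r ≤ |r - 2| * (cM t * (1 + 6 * |r - 2|)) := by
  have hcM := cM_bounds ht
  have hcM0 : 0 < cM t := by linarith [hcM.1]
  rcases le_total 2 r with h | h
  · have h0 : 0 ≤ r - 2 := by linarith
    rw [abs_of_nonneg h0]
    refine (Mp_ge_two ht h).trans ?_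
    gcongr
    linarith
  · rw [abs_of_nonpos (by linarith)] at hr ⊢
    obtain ⟨δ, rfl⟩ : ∃ δ, r = 2 - δ := ⟨2 - r, by ring⟩
    have hδ0 : 0 ≤ δ := by linarith
    have hδ1 : δ ≤ 1 / 10 := by linarith
    have e0 : -(2 - δ - 2) = δ := by ring
    rw [e0]
    have hd : 0 < 1 - δ := by linarith
    set q := (2 - δ) / (1 - δ) with hq
    have hq2 : q - 2 = δ / (1 - δ) := by rw [hq]; field_simp; ring
    have hq3 : 0 ≤ δ / (1 - δ) := by positivity
    have hq4 : 2 ≤ q := by linarith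
    have hconj : 2 - δ = q / (q - 1) := by
      have : q - 1 = 1 / (1 - δ) := by rw [hq]; field_simp; ring
      rw [this, hq]; field_simp
    have h1 := Mp_conj_le (p := q) (by linarith) hconj
    have h2 := Mp_ge_two ht hq4
    rw [hq2] at h2
    refine (h1.trans h2).trans ?_
    have e3 : δ / (1 - δ) * (cM t * (1 + δ / (1 - δ))) = δ * (cM t * (1 / (1 - δ) ^ 2)) := by
      field_simp; ring
    rw [e3]
    have h5 : 1 / (1 - δ) ^ 2 ≤ 1 + 6 * δ := by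
      rw [div_le_iff₀ (by positivity)]
      nlinarith [mul_nonneg hδ0 (by nlinarith : 0 ≤ 4 - 11 * δ + 6 * δ ^ 2)]
    gcongr

private lemma log_bd (ht : Crit t) {c : ℝ} (hc : t ^ 2 ≤ |c|) (hc1 : |c| ≤ 1) :
    0 < |c| ∧ |Real.log c| ≤ 2.4 := by
  have ht0 : 0 < t := by linarith [ht.lo]
  have hc0 : 0 < |c| := lt_of_lt_of_le (by positivity) hc
  refine ⟨hc0, ?_⟩
  rw [← Real.log_abs c]
  have h1 := Real.log_nonpos hc0.le hc1
  have h2 := Real.log_le_log (by positivity) hc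
  rw [Real.log_pow] at h2
  have h3 := (u_bounds ht).2
  rw [abs_of_nonpos h1]
  push_cast at h2
  linarith

theorem ell_near (ht : Crit t) {r c : ℝ} (hr : |r - 2| ≤ 1 / 10) (hc : t ^ 2 ≤ |c|) (hc1 : |c| ≤ 1) :
    |jj r c - c - (r - 2) * ell c| ≤ 6 * (r - 2) ^ 2 := by
  obtain ⟨hc0, hl⟩ := log_bd ht hc hc1
  have hpow : |c| ^ (r - 2) = Real.exp ((r - 2) * Real.log c) := by
    rw [Real.rpow_def_of_pos hc0, Real.log_abs]; congr 1; ring
  set a := (r - 2) * Real.log c with ha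
  have hA : |a| ≤ 2.4 * |r - 2| := by
    rw [ha, abs_mul, mul_comm]
    gcongr
  have hA1 : |a| ≤ 1 := by linarith
  have h1 := Real.abs_exp_sub_one_sub_id_le hA1
  have e1 : jj r c - c - (r - 2) * ell c = c * (Real.exp a - 1 - a) := by
    unfold jj ell
    rw [hpow, ha]; ring
  rw [e1, abs_mul]
  have h2 : a ^ 2 ≤ 6 * (r - 2) ^ 2 := by
    rw [← sq_abs a, ← sq_abs (r - 2)]
    have h3 : |a| ^ 2 ≤ (2.4 * |r - 2|) ^ 2 := by gcongr
    nlinarith [sq_nonneg |r - 2|]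
  calc |c| * |Real.exp a - 1 - a| ≤ 1 * a ^ 2 := by gcongr
    _ ≤ _ := by linarith

theorem abs_ell_le {c : ℝ} (hc1 : |c| ≤ 1) : |ell c| ≤ 1 / 2 := by
  unfold ell
  rcases eq_or_ne c 0 with rfl | hc
  · simp
  have hc0 : 0 < |c| := abs_pos.2 hc
  have h := xlog hc0 hc1
  rw [← Real.log_abs, abs_mul, abs_of_nonpos (Real.log_nonpos hc0.le hc1)]
  exact h

theorem pow_near (ht : Crit t) {r c : ℝ} (hr : |r - 2| ≤ 1 / 10) (hc : t ^ 2 ≤ |c|) (hc1 : |c| ≤ 1) :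
    |c| ^ r ≤ (1 + 6 * |r - 2|) * c ^ 2 := by
  obtain ⟨hc0, hl⟩ := log_bd ht hc hc1
  obtain ⟨d, rfl⟩ : ∃ d, r = 2 + d := ⟨r - 2, by ring⟩
  have e0 : 2 + d - 2 = d := by ring
  rw [e0] at hr ⊢
  have hpow : |c| ^ (2 + d) = |c| ^ 2 * Real.exp (d * Real.log c) := by
    rw [Real.rpow_add hc0, Real.rpow_two, Real.rpow_def_of_pos hc0 d, Real.log_abs, mul_comm (Real.log c)]
  rw [hpow, sq_abs]
  set a := d * Real.log c with ha
  have hA : |a| ≤ 2.4 * |d| := by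
    rw [ha, abs_mul, mul_comm]
    gcongr
  have hA1 : |a| ≤ 1 := by linarith
  have h1 := Real.abs_exp_sub_one_sub_id_le hA1
  have h2 := (abs_le.1 h1).2
  have h3 : a ≤ 2.4 * |d| := (le_abs_self a).trans hA
  have h4 : a ^ 2 ≤ 0.6 * |d| := by
    rw [← sq_abs a]
    have h5 : |a| ^ 2 ≤ (2.4 * |d|) ^ 2 := by gcongr
    nlinarith [abs_nonneg d]
  have h5 : Real.exp a ≤ 1 + 6 * |d| := by linarith [abs_nonneg d]
  rw [mul_comm]
  gcongr

end Pool.Agent.Work.MP_95d40a_an.R2
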