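import Pool.Agent.Work.MP_95d40a_an.R2.Sector

set_option autoImplicit false

/-!
# Pair: a pair which `T` rotates

`r = p.toReal`, `θ = |r - 2| ≤ δ ≤ 1/2`, `v = numRadius T ≤ δ`.  Choose `x` with `‖x‖ = 1`, `‖T x‖ ≥ 1 - δ`
(`ContinuousLinearMap`: `‖T‖ = 1`), `y = - T x`, `M` from `exists_mod`, `W = ‖M‖^r = ∫ M^r`
(`norm_rpow_eq`), `W ≥ ‖x‖^r = 1`.  `B(a,b) = ∫ M^(r-2) a b` for `|a| ≤ 2 M` (integrable:
`|M^(r-2) a b| ≤ 2 M^(r-1) |b|`, `integrable_rpow_mul`).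
1. `z = x ± y`, `|z| ≤ 2 M`: `|jj r z - M^(r-2) z| ≤ 4 θ M^(r-1)` (`near_two` with `s = |z|/M`, `M > 0`; both sides are
   `0` if `M = 0`), so `|JP r z (T z) - B(z, T z)| ≤ 4 θ ‖M‖^(r-1) ‖T z‖ ≤ 8 θ W` (`‖z‖ ≤ 2 ‖M‖`), and
   `|JP r z (T z)| ≤ v ‖z‖^r ≤ v 2^r W ≤ 6 v W` (`nr_bound`, `2^(5/2) < 6`).
2. `B(x+y, T(x+y)) - B(x-y, T(x-y)) = 2 (B(x, T y) + B(y, T x))`, so `|B(x, T y) + B(y, T x)| ≤ (6 v + 8 θ) W`.
3. `B(y, T x) = - B(y, y)`, so `B(x, T y) - B(y, T x) ≥ 2 B(y,y) - (6 v + 8 θ) W`.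
4. `|B(y,y) - ‖y‖^r| ≤ 4 θ W`, `|B(x,x) - ‖x‖^r| ≤ 4 θ W` (`s = |y|/M ≤ 1`: `|s^r - s²| = s |s^(r-1) - s| ≤ 4 θ`),
   `W = B(x,x) + B(y,y) ≤ 2 + 8 θ W` (`‖y‖ ≤ 1`), `B(y,y) ≥ (1 - δ)^r - 4 θ W ≥ (1 - 3 δ) - 4 θ W`.
   Hence `2 B(y,y) ≥ (1 - 3δ) (1 - 8 θ) W - 8 θ W`, total `≥ (1 - 3 δ - 24 θ - 6 v) W ≥ (1 - 40 δ) W`.
-/

open MeasureTheory
open scoped ENNReal

namespace Pool.Agent.Work.MP_95d40a_an.R2

variable {Ω : Type*} [MeasurableSpace Ω] {μ : Measure Ω} {p : ℝ≥0∞}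

private theorem holder' [Fact (1 ≤ p)] (h1 : 1 < p) (h2 : p ≠ ∞) (M g : Lp ℝ p μ) :
    ∫ ω, |M ω| ^ (p.toReal - 1) * |g ω| ∂μ ≤ ‖M‖ ^ (p.toReal - 1) * ‖g‖ := by
  have hpr := toReal_gt_one h1 h2
  have h := JP_bound h1 h2 |M| |g|
  rw [norm_abs_eq_norm, norm_abs_eq_norm] at h
  refine le_trans (le_of_eq ?_) ((le_abs_self _).trans h)
  unfold JP
  refine integral_congr_ae ?_
  filter_upwards [Lp.coeFn_abs M, Lp.coeFn_abs g] with ω a b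
  rw [a, b]
  have h3 := norm_pow_mul_self hpr (M ω)
  rw [Real.norm_eq_abs] at h3
  simp only [Real.norm_eq_abs, abs_abs, conj_trivial, RCLike.ofReal_real_eq_id, id_eq]
  rw [← h3]
  ring

private theorem meas' (M a b : Lp ℝ p μ) (r : ℝ) :
    AEStronglyMeasurable (fun ω => |M ω| ^ r * (a ω * b ω)) μ := by
  have m1 : AEStronglyMeasurable (fun ω => |M ω| ^ r) μ := by
    have := (((Lp.memLp M).1.norm.aemeasurable).pow_const r).aestronglyMeasurable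
    simpa only [Real.norm_eq_abs] using this
  exact m1.mul ((Lp.memLp a).1.mul (Lp.memLp b).1)

private theorem intB [Fact (1 ≤ p)] (h1 : 1 < p) (h2 : p ≠ ∞) (M a b : Lp ℝ p μ) (C : ℝ)
    (ha : ∀ᵐ ω ∂μ, |a ω| ≤ C * |M ω|) :
    Integrable (fun ω => |M ω| ^ (p.toReal - 2) * (a ω * b ω)) μ := by
  have hpr := toReal_gt_one h1 h2
  refine Integrable.mono' ((integrable_rpow_mul h1 h2 M b).const_mul C) (meas' M a b _) ?_
  filter_upwards [ha] with ω h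
  have h3 := norm_pow_mul_self hpr (M ω)
  rw [Real.norm_eq_abs] at h3
  rw [Real.norm_eq_abs, Real.norm_eq_abs, Real.norm_eq_abs, abs_mul, abs_mul, ← h3,
    abs_of_nonneg (by positivity : 0 ≤ |M ω| ^ (p.toReal - 2))]
  calc |M ω| ^ (p.toReal - 2) * (|a ω| * |b ω|) ≤
      |M ω| ^ (p.toReal - 2) * ((C * |M ω|) * |b ω|) := by gcongr
    _ = _ := by ring

private theorem step1 [Fact (1 ≤ p)] (h1 : 1 < p) (h2 : p ≠ ∞) (hθ : |p.toReal - 2| ≤ 1 / 2)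
    (M z g : Lp ℝ p μ) (hz : ∀ᵐ ω ∂μ, |z ω| ≤ 2 * |M ω|) :
    |JP p.toReal μ (z : Ω → ℝ) g - ∫ ω, |M ω| ^ (p.toReal - 2) * (z ω * g ω) ∂μ| ≤
      4 * |p.toReal - 2| * (‖M‖ ^ (p.toReal - 1) * ‖g‖) := by
  have hpr := toReal_gt_one h1 h2
  have i1 := integrable_JP h1 h2 z g
  have i2 := intB h1 h2 M z g 2 hz
  unfold JP
  rw [← integral_sub i1 i2]
  rw [← Real.norm_eq_abs]
  refine (norm_integral_le_integral_norm _).trans ?_
  refine le_trans ?_ (mul_le_mul_of_nonneg_left (holder' h1 h2 M g)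
    (by positivity : 0 ≤ 4 * |p.toReal - 2|))
  rw [← integral_const_mul]
  refine integral_mono_ae (i1.sub i2).norm ?_ ?_
  · have := (integrable_rpow_mul h1 h2 M g).const_mul (4 * |p.toReal - 2|)
    simpa only [Real.norm_eq_abs] using this
  · filter_upwards [hz] with ω h
    simp only [Real.norm_eq_abs, conj_trivial, RCLike.ofReal_real_eq_id, id_eq]
    have e : |z ω| ^ (p.toReal - 2) * (z ω * g ω) - |M ω| ^ (p.toReal - 2) * (z ω * g ω) =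
        ((|z ω| ^ (p.toReal - 2) - |M ω| ^ (p.toReal - 2)) * z ω) * g ω := by ring
    rw [e, abs_mul, abs_mul]
    rcases eq_or_ne (M ω) 0 with h0 | h0
    · have hz0 : z ω = 0 := by
        rw [h0, abs_zero, mul_zero] at h
        exact abs_nonpos_iff.1 h
      rw [hz0, abs_zero, mul_zero, zero_mul]
      positivity
    · have h3 := near_lin hθ (abs_pos.2 h0) (abs_nonneg (z ω)) h
      calc _ ≤ (4 * |p.toReal - 2| * |M ω| ^ (p.toReal - 1)) * |g ω| := by gcongr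
        _ = _ := by ring

private theorem step4 [Fact (1 ≤ p)] (h1 : 1 < p) (h2 : p ≠ ∞) (hθ : |p.toReal - 2| ≤ 1 / 2)
    (M y : Lp ℝ p μ) (hy : ∀ᵐ ω ∂μ, |y ω| ≤ |M ω|) :
    |(∫ ω, |M ω| ^ (p.toReal - 2) * (y ω * y ω) ∂μ) - ‖y‖ ^ p.toReal| ≤
      4 * |p.toReal - 2| * ‖M‖ ^ p.toReal := by
  have hpr := toReal_gt_one h1 h2
  have i1 := intB h1 h2 M y y 1 (by
    filter_upwards [hy] with ω h
    rwa [one_mul])
  have i2 := integrable_rpow h1 h2 y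
  have i3 := integrable_rpow h1 h2 M
  rw [norm_rpow_eq h1 h2 y, norm_rpow_eq h1 h2 M, ← integral_sub i1 i2, ← integral_const_mul]
  rw [← Real.norm_eq_abs]
  refine (norm_integral_le_integral_norm _).trans ?_
  refine integral_mono_ae (i1.sub i2).norm (i3.const_mul _) ?_
  filter_upwards [hy] with ω h
  simp only [Real.norm_eq_abs]
  rcases eq_or_ne (M ω) 0 with h0 | h0
  · have hz0 : y ω = 0 := by
      rw [h0, abs_zero] at h
      exact abs_nonpos_iff.1 h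
    rw [hz0, abs_zero, Real.zero_rpow (by linarith : p.toReal ≠ 0), mul_zero, mul_zero, sub_zero,
      abs_zero]
    positivity
  · have h3 := near_sq hθ (abs_pos.2 h0) (abs_nonneg (y ω)) zero_le_one (by norm_num : (1 : ℝ) ≤ 2)
      (by rwa [one_mul])
    rw [sq_abs, sq, one_mul] at h3
    exact h3

private theorem two_rpow {r : ℝ} (hr : r ≤ 5 / 2) : (2 : ℝ) ^ r ≤ 6 := by
  refine (Real.rpow_le_rpow_of_exponent_le (by norm_num) hr).trans ?_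
  have h : ((2 : ℝ) ^ (5 / 2 : ℝ)) ^ 2 = 32 := by
    rw [← Real.rpow_natCast, ← Real.rpow_mul (by norm_num)]
    norm_num
  nlinarith [Real.rpow_pos_of_pos (by norm_num : (0 : ℝ) < 2) (5 / 2 : ℝ)]

theorem exists_pair [Fact (1 ≤ p)] (h1 : 1 < p) (h2 : p ≠ ∞) {δ : ℝ} (hδ0 : 0 < δ) (hδ : δ ≤ 1 / 40)
    (hr : |p.toReal - 2| ≤ δ) (T : Lp ℝ p μ →L[ℝ] Lp ℝ p μ) (hT : ‖T‖ = 1) (hv : numRadius T ≤ δ) :
    ∃ M x y : Lp ℝ p μ, (∀ᵐ ω ∂μ, 0 ≤ M ω ∧ M ω ^ 2 = x ω ^ 2 + y ω ^ 2) ∧ 0 < ‖M‖ ∧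
      (1 - 40 * δ) * ‖M‖ ^ p.toReal ≤ ∫ ω, |M ω| ^ (p.toReal - 2) * (x ω * T y ω - y ω * T x ω) ∂μ := by
  have hpr := toReal_gt_one h1 h2
  have hθ : |p.toReal - 2| ≤ 1 / 2 := hr.trans (by linarith)
  -- the vector `x`
  obtain ⟨x, hx1, hTx⟩ : ∃ x : Lp ℝ p μ, ‖x‖ = 1 ∧ 1 - δ ≤ ‖T x‖ := by
    obtain ⟨x, hx, hx'⟩ := T.exists_lt_apply_of_lt_opNorm (r := 1 - δ) (by rw [hT]; linarith)
    have hx0 : 0 < ‖x‖ := by
      rcases eq_or_ne x 0 with h | h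
      · rw [h, map_zero, norm_zero] at hx'
        linarith
      · exact norm_pos_iff.2 h
    refine ⟨(‖x‖⁻¹ : ℝ) • x, ?_, ?_⟩
    · rw [norm_smul, norm_inv, norm_norm, inv_mul_cancel₀ hx0.ne']
    · rw [map_smul, norm_smul, norm_inv, norm_norm]
      have h3 : 1 ≤ ‖x‖⁻¹ := by
        rw [one_le_inv₀ hx0]
        exact hx.le
      calc 1 - δ ≤ 1 * ‖T x‖ := by linarith
        _ ≤ _ := by gcongr
  obtain ⟨y, hy⟩ : ∃ y : Lp ℝ p μ, y = - T x := ⟨_, rfl⟩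
  have hyl : 1 - δ ≤ ‖y‖ := by rw [hy, norm_neg]; exact hTx
  have hyu : ‖y‖ ≤ 1 := by
    rw [hy, norm_neg]
    have := T.le_opNorm x
    rwa [hT, hx1, one_mul] at this
  obtain ⟨M, hM⟩ := exists_mod x y
  have hTle : ∀ z : Lp ℝ p μ, ‖T z‖ ≤ ‖z‖ := by
    intro z
    have := T.le_opNorm z
    rwa [hT, one_mul] at this
  -- pointwise bounds
  have bx : ∀ᵐ ω ∂μ, |x ω| ≤ |M ω| := by
    filter_upwards [hM] with ω h
    refine sq_le_sq.1 ?_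
    nlinarith [sq_nonneg (y ω)]
  have byy : ∀ᵐ ω ∂μ, |y ω| ≤ |M ω| := by
    filter_upwards [hM] with ω h
    refine sq_le_sq.1 ?_
    nlinarith [sq_nonneg (x ω)]
  have bS : ∀ᵐ ω ∂μ, |(x + y : Lp ℝ p μ) ω| ≤ 2 * |M ω| := by
    filter_upwards [bx, byy, Lp.coeFn_add x y] with ω a b c
    rw [c, Pi.add_apply]
    exact (abs_add_le _ _).trans (by linarith)
  have bR : ∀ᵐ ω ∂μ, |(x - y : Lp ℝ p μ) ω| ≤ 2 * |M ω| := by
    filter_upwards [bx, byy, Lp.coeFn_sub x y] with ω a b c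
    rw [c, Pi.sub_apply]
    exact (abs_sub _ _).trans (by linarith)
  have hMx : 1 ≤ ‖M‖ := by
    rw [← hx1]
    refine Lp.norm_le_norm_of_ae_le ?_
    filter_upwards [bx] with ω h
    simpa only [Real.norm_eq_abs] using h
  have hM0 : 0 < ‖M‖ := by linarith
  obtain ⟨W, hW⟩ : ∃ W : ℝ, W = ‖M‖ ^ p.toReal := ⟨_, rfl⟩
  have hW1 : 1 ≤ W := by
    rw [hW]
    exact Real.one_le_rpow hMx (by linarith)
  have hWe : ‖M‖ ^ (p.toReal - 1) * ‖M‖ = W := by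
    rw [hW, ← Real.rpow_add_one hM0.ne']
    congr 1
    ring
  have hnS : ∀ z : Lp ℝ p μ, (∀ᵐ ω ∂μ, |z ω| ≤ 2 * |M ω|) → ‖z‖ ≤ 2 * ‖M‖ := by
    intro z hz
    refine Lp.norm_le_mul_norm_of_ae_le_mul ?_
    simpa only [Real.norm_eq_abs] using hz
  -- the form `B`
  obtain ⟨B, hB⟩ : ∃ B : Lp ℝ p μ → Lp ℝ p μ → ℝ,
      B = fun a b => ∫ ω, |M ω| ^ (p.toReal - 2) * (a ω * b ω) ∂μ := ⟨_, rfl⟩
  obtain ⟨θ, hθe⟩ : ∃ θ : ℝ, θ = |p.toReal - 2| := ⟨_, rfl⟩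
  have hθ0 : 0 ≤ θ := by rw [hθe]; positivity
  have hθδ : θ ≤ δ := by rw [hθe]; exact hr
  have key : ∀ z : Lp ℝ p μ, (∀ᵐ ω ∂μ, |z ω| ≤ 2 * |M ω|) → |B z (T z)| ≤ 6 * δ * W + 8 * θ * W := by
    intro z hz
    have k1 := step1 h1 h2 hθ M z (T z) hz
    have k2 := nr_bound h1 h2 T z
    rw [Real.norm_eq_abs] at k2
    have k3 := hnS z hz
    have k4 : ‖z‖ ^ p.toReal ≤ 6 * W := by
      calc ‖z‖ ^ p.toReal ≤ (2 * ‖M‖) ^ p.toReal := by gcongr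
        _ = 2 ^ p.toReal * W := by rw [Real.mul_rpow (by norm_num) hM0.le, hW]
        _ ≤ 6 * W := by
            have := two_rpow (r := p.toReal) (by linarith [(abs_le.1 hθ).2])
            gcongr
    have k5 : ‖M‖ ^ (p.toReal - 1) * ‖T z‖ ≤ 2 * W := by
      calc ‖M‖ ^ (p.toReal - 1) * ‖T z‖ ≤ ‖M‖ ^ (p.toReal - 1) * (2 * ‖M‖) := by
            have := (hTle z).trans k3
            gcongr
        _ = 2 * W := by rw [← hWe]; ring
    have k6 : numRadius T * ‖z‖ ^ p.toReal ≤ δ * (6 * W) := by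
      have := numRadius_nonneg T
      gcongr
    have k7 : 4 * θ * (‖M‖ ^ (p.toReal - 1) * ‖T z‖) ≤ 4 * θ * (2 * W) := by gcongr
    rw [← hθe] at k1
    have k8 : |B z (T z)| ≤ |JP p.toReal μ (z : Ω → ℝ) (T z)| +
        |JP p.toReal μ (z : Ω → ℝ) (T z) - B z (T z)| := by
      have := abs_sub_abs_le_abs_sub (B z (T z)) (JP p.toReal μ (z : Ω → ℝ) (T z))
      rw [abs_sub_comm] at this
      linarith
    rw [hB] at k8 ⊢
    linarith
  have bx1 : ∀ᵐ ω ∂μ, |x ω| ≤ 1 * |M ω| := by simpa only [one_mul] using bx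
  have by1 : ∀ᵐ ω ∂μ, |y ω| ≤ 1 * |M ω| := by simpa only [one_mul] using byy
  have ixT := intB h1 h2 M x (T y) 1 bx1
  have iyT := intB h1 h2 M y (T x) 1 by1
  have hpol : B (x + y) (T (x + y)) - B (x - y) (T (x - y)) = 2 * (B x (T y) + B y (T x)) := by
    rw [hB]
    simp only
    rw [← integral_sub (intB h1 h2 M _ _ 2 bS) (intB h1 h2 M _ _ 2 bR), ← integral_add ixT iyT,
      ← integral_const_mul]
    refine integral_congr_ae ?_
    rw [map_add, map_sub]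
    filter_upwards [Lp.coeFn_add x y, Lp.coeFn_sub x y, Lp.coeFn_add (T x) (T y),
      Lp.coeFn_sub (T x) (T y)] with ω a b c d
    rw [a, b, c, d, Pi.add_apply, Pi.sub_apply, Pi.add_apply, Pi.sub_apply]
    ring
  have hneg : B y (T x) = - B y y := by
    rw [hB]
    simp only
    rw [← integral_neg]
    refine integral_congr_ae ?_
    have e : T x = - y := by rw [hy, neg_neg]
    rw [e]
    filter_upwards [Lp.coeFn_neg y] with ω a
    rw [a, Pi.neg_apply]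
    ring
  have hWs : W = B x x + B y y := by
    rw [hW, norm_rpow_eq h1 h2 M, hB]
    simp only
    rw [← integral_add (intB h1 h2 M x x 1 bx1) (intB h1 h2 M y y 1 by1)]
    refine integral_congr_ae ?_
    filter_upwards [hM] with ω h
    have h3 := norm_pow_mul_sq hpr (M ω)
    rw [Real.norm_eq_abs] at h3 ⊢
    rw [← h3, sq_abs, h.2]
    ring
  have s1 := step4 h1 h2 hθ M x bx
  have s2 := step4 h1 h2 hθ M y byy
  rw [hx1, Real.one_rpow, ← hW, ← hθe] at s1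
  rw [← hW, ← hθe] at s2
  have s1' : B x x ≤ 1 + 4 * θ * W := by
    rw [hB]
    linarith [(abs_le.1 s1).2]
  have s2' : B y y ≤ 1 + 4 * θ * W := by
    have : ‖y‖ ^ p.toReal ≤ 1 := Real.rpow_le_one (norm_nonneg _) hyu (by linarith)
    rw [hB]
    linarith [(abs_le.1 s2).2]
  have s3 : 1 - 3 * δ - 4 * θ * W ≤ B y y := by
    have h3 : 1 - 3 * δ ≤ ‖y‖ ^ p.toReal := by
      have h4 := one_add_mul_self_le_rpow_one_add (s := -δ) (by linarith) (p := p.toReal) hpr.le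
      have h5 : (1 + -δ) ^ p.toReal ≤ ‖y‖ ^ p.toReal :=
        Real.rpow_le_rpow (by linarith) (by linarith) (by linarith)
      have h6 : p.toReal ≤ 3 := by linarith [(abs_le.1 hθ).2]
      nlinarith
    rw [hB]
    linarith [(abs_le.1 s2).1]
  have t1 := (abs_le.1 (key (x + y) bS)).1
  have t2 := (abs_le.1 (key (x - y) bR)).2
  refine ⟨M, x, y, hM, hM0, ?_⟩
  have hfin : ∫ ω, |M ω| ^ (p.toReal - 2) * (x ω * T y ω - y ω * T x ω) ∂μ =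
      B x (T y) - B y (T x) := by
    rw [hB]
    simp only
    rw [← integral_sub ixT iyT]
    refine integral_congr_ae (Filter.Eventually.of_forall fun ω => ?_)
    ring
  rw [hfin, ← hW]
  have u1 : -(6 * δ * W + 8 * θ * W) ≤ B x (T y) + B y (T x) := by linarith
  have u2 : (1 - 8 * θ) * W ≤ 2 := by linarith
  have u3 : (1 - 3 * δ) * ((1 - 8 * θ) * W) ≤ (1 - 3 * δ) * 2 :=
    mul_le_mul_of_nonneg_left u2 (by linarith)
  have u4 : θ * W ≤ δ * W := by gcongr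
  have u5 : 0 ≤ δ * θ * W := by positivity
  have u6 : 0 ≤ δ * W := by positivity
  nlinarith

end Pool.Agent.Work.MP_95d40a_an.R2
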