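import Pool.Agent.Work.MP_95d40a_an.R2.Profile
import Pool.Agent.Work.MP_95d40a_an.R2.Mz
import Pool.Agent.Work.MP_95d40a_an.R2.Lin
import Pool.Agent.Work.MP_95d40a_an.R2.Pair
import Pool.Agent.Work.MP_95d40a_an.R2.Near

set_option autoImplicit false

/-!
# Main: `n(L_p) ≥ (1 - ε) M_p` for `p` near two (helper46)
-/

open MeasureTheory
open scoped ENNReal

namespace Pool.Agent.Work.MP_95d40a_an.R2

universe u

section core

variable {Ω : Type*} [MeasurableSpace Ω] {μ : Measure Ω} {p : ℝ≥0∞}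

lemma avg_le_avg {N : ℕ} [NeZero N] {f g : ZMod N → ℝ} (h : ∀ j, f j ≤ g j) : avg f ≤ avg g := by
  unfold avg
  have : ∑ j, f j ≤ ∑ j, g j := Finset.sum_le_sum fun j _ => h j
  gcongr

lemma avg_const_mul {N : ℕ} [NeZero N] (c : ℝ) (f : ZMod N → ℝ) : avg (fun j => c * f j) = c * avg f := by
  unfold avg
  rw [← Finset.mul_sum]; ring

lemma Mp_nonneg {r : ℝ} (hr : 1 < r) : 0 ≤ Mp r := by
  have h := le_Mp hr le_rfl zero_le_one
  rw [Real.zero_rpow (by linarith), Real.zero_rpow (by linarith), sub_zero, abs_zero, add_zero, mul_one] at h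
  exact h

lemma core {t : ℝ} (ht : Crit t) [Fact (1 ≤ p)] (h1 : 1 < p) (h2 : p ≠ ∞) (hθ : |p.toReal - 2| ≤ 1 / 10)
    {δ' : ℝ} (hδ0 : 0 < δ') (hδ : δ' ≤ 1 / 40) (hr : |p.toReal - 2| ≤ δ') (T : Lp ℝ p μ →L[ℝ] Lp ℝ p μ)
    (hT : ‖T‖ = 1) (hv : numRadius T ≤ δ') {N : ℕ} [NeZero N] (z : ZMod N → ℝ)
    (hz : ∀ j, t ^ 2 ≤ |z j| ∧ |z j| ≤ 1) {e1 : ℝ}
    (hprof : ∀ V : ZMod N → ℝ, (∀ k, V (-k) = - V k) → (∀ k, |V k| ≤ 1) →
        2 * cM t * avg (fun j => z j ^ 2) - e1 - 4 * (1 - V 1) ≤ ∑ k, rhat z (fun j => ell (z j)) k * V k) :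
    |p.toReal - 2| * (2 * cM t * avg (fun j => z j ^ 2) - e1 -
        4 * (40 * δ' + 8 * Real.pi / N + |p.toReal - 2|) - 24 * N * |p.toReal - 2|) ≤
      2 * numRadius T * ((1 + 6 * |p.toReal - 2|) * avg (fun j => z j ^ 2)) := by
  obtain ⟨M, x, y, hM, hMpos, hpair⟩ := exists_pair h1 h2 hδ0 hδ hr T hT hv
  obtain ⟨j, hj, hx, hy⟩ := exists_sector N M x y hM
  obtain ⟨θ, hθd⟩ : ∃ θ, θ = |p.toReal - 2| := ⟨_, rfl⟩
  obtain ⟨W, hW⟩ : ∃ W, W = ‖M‖ ^ p.toReal := ⟨_, rfl⟩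
  obtain ⟨A, hA⟩ : ∃ A, A = avg (fun j => z j ^ 2) := ⟨_, rfl⟩
  have hθ0 : 0 ≤ θ := by rw [hθd]; exact abs_nonneg _
  have hWpos : 0 < W := by rw [hW]; positivity
  have hNpos : (0 : ℝ) < N := by
    have := NeZero.pos N
    exact_mod_cast this
  have b1 := VV_one h1 h2 T hT.le M x y hj hM hx hy
  have b2 := fun k => VV_le h1 h2 (by linarith) T hT.le M hj k
  have b3 := avg_bound h1 h2 T M hj z
  simp only [← hθd, ← hW] at hr hpair hθ b1 b2 b3 ⊢
  rw [← hA] at hprof ⊢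
  -- the normalised transform
  have hden : 0 < (1 + θ) * W := by positivity
  have c1 := hprof (fun k => VV T M hj k / ((1 + θ) * W))
    (fun k => by rw [VV_neg, neg_div])
    (fun k => by
      rw [abs_div, abs_of_pos hden, div_le_one hden]; exact b2 k)
  have c2 : 1 - (40 * δ' + 8 * Real.pi / N + θ) ≤ VV T M hj 1 / ((1 + θ) * W) := by
    rw [le_div_iff₀ hden]
    have hpiN : 0 ≤ 8 * Real.pi / N := by
      have := Real.pi_pos
      positivity
    have e0 : 0 ≤ 40 * δ' + 8 * Real.pi / N := by positivity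
    have e1 : (1 - (40 * δ' + 8 * Real.pi / N + θ)) * (1 + θ) ≤ 1 - 40 * δ' - 8 * Real.pi / N := by
      have := mul_nonneg e0 hθ0
      nlinarith
    calc (1 - (40 * δ' + 8 * Real.pi / N + θ)) * ((1 + θ) * W)
        = (1 - (40 * δ' + 8 * Real.pi / N + θ)) * (1 + θ) * W := by ring
      _ ≤ (1 - 40 * δ' - 8 * Real.pi / N) * W := by gcongr
      _ = (1 - 40 * δ') * W - 8 * Real.pi / N * W := by ring
      _ ≤ _ := by linarith
  -- the Taylor expansion
  have d1 : ∑ d, tau T M hj d * rho z (fun i => jj p.toReal (z i)) d =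
      ∑ k, rhat z (fun i => jj p.toReal (z i)) k * VV T M hj k := sum_rho _ _ _
  obtain ⟨E, hE⟩ : ∃ E : ZMod N → ℝ, E = fun i => jj p.toReal (z i) - z i - (p.toReal - 2) * ell (z i) := ⟨_, rfl⟩
  have hEb : ∀ i, |E i| ≤ 6 * θ ^ 2 := by
    intro i
    rw [hE, hθd, sq_abs]
    exact ell_near ht (by rw [← hθd]; exact hθ) (hz i).1 (hz i).2
  have d2 : ∀ k, rhat z (fun i => jj p.toReal (z i)) k =
      (p.toReal - 2) * rhat z (fun i => ell (z i)) k + rhat z E k := by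
    intro k
    have e1 : (fun i => jj p.toReal (z i)) = fun i => (z i + (p.toReal - 2) * ell (z i)) + E i := by
      funext i; rw [hE]; ring
    rw [e1, rhat_add z (fun i => z i + (p.toReal - 2) * ell (z i)) E, rhat_add z z (fun i => (p.toReal - 2) * ell (z i)),
      rhat_self, rhat_smul z (fun i => ell (z i))]
    ring
  have d3 : ∀ k, |rhat z E k| ≤ 24 * θ ^ 2 := by
    intro k
    have := abs_rhat_le (fun i => (hz i).2) hEb k
    linarith
  obtain ⟨S, hS⟩ : ∃ S, S = ∑ k, rhat z (fun i => ell (z i)) k * VV T M hj k := ⟨_, rfl⟩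
  obtain ⟨R, hR⟩ : ∃ R, R = ∑ k, rhat z E k * VV T M hj k := ⟨_, rfl⟩
  have d4 : ∑ d, tau T M hj d * rho z (fun i => jj p.toReal (z i)) d = (p.toReal - 2) * S + R := by
    rw [d1, hS, hR, Finset.mul_sum, ← Finset.sum_add_distrib]
    refine Finset.sum_congr rfl fun k _ => ?_
    rw [d2]; ring
  have d5 : |R| ≤ N * (24 * θ ^ 2 * ((1 + θ) * W)) := by
    rw [hR]
    calc |∑ k, rhat z E k * VV T M hj k| ≤ ∑ k : ZMod N, |rhat z E k * VV T M hj k| := Finset.abs_sum_le_sum_abs _ _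
      _ ≤ ∑ k : ZMod N, 24 * θ ^ 2 * ((1 + θ) * W) := by
        refine Finset.sum_le_sum fun k _ => ?_
        rw [abs_mul]
        exact mul_le_mul (d3 k) (b2 k) (abs_nonneg _) (by positivity)
      _ = _ := by
        rw [Finset.sum_const, Finset.card_univ, ZMod.card, nsmul_eq_mul]
  have d6 : ∑ k, rhat z (fun j => ell (z j)) k * (VV T M hj k / ((1 + θ) * W)) = S / ((1 + θ) * W) := by
    rw [hS, Finset.sum_div]
    exact Finset.sum_congr rfl fun k _ => by ring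
  rw [d6] at c1
  obtain ⟨L, hL⟩ : ∃ L, L = 2 * cM t * A - e1 - 4 * (40 * δ' + 8 * Real.pi / N + θ) := ⟨_, rfl⟩
  have d7 : L * ((1 + θ) * W) ≤ S := by
    rw [← le_div_iff₀ hden]
    have : L ≤ 2 * cM t * A - e1 - 4 * (1 - VV T M hj 1 / ((1 + θ) * W)) := by rw [hL]; linarith
    linarith
  -- bound for the averages
  have f1 : avg (fun i => |z i| ^ p.toReal) ≤ (1 + 6 * θ) * A := by
    rw [hA, ← avg_const_mul]
    apply avg_le_avg
    intro i
    have := pow_near ht (r := p.toReal) (by rw [← hθd]; exact hθ) (hz i).1 (hz i).2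
    rw [← hθd] at this
    exact this
  have hv0 : 0 ≤ numRadius T := numRadius_nonneg T
  have f2 : |(p.toReal - 2) * S + R| ≤ 2 * numRadius T * W * ((1 + 6 * θ) * A) := by
    rw [← d4]
    refine b3.trans ?_
    gcongr
  have f3 : θ * S ≤ 2 * numRadius T * W * ((1 + 6 * θ) * A) + N * (24 * θ ^ 2 * ((1 + θ) * W)) := by
    have g1 : θ * S ≤ |(p.toReal - 2) * S| := by
      rw [abs_mul, hθd]
      exact mul_le_mul_of_nonneg_left (le_abs_self S) (abs_nonneg _)
    have g2 : |(p.toReal - 2) * S| ≤ |(p.toReal - 2) * S + R| + |R| := by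
      have := abs_sub ((p.toReal - 2) * S + R) R
      have e : (p.toReal - 2) * S + R - R = (p.toReal - 2) * S := by ring
      rwa [e] at this
    linarith
  have f4 : θ * (L * ((1 + θ) * W)) ≤ θ * S := mul_le_mul_of_nonneg_left d7 hθ0
  have hA0 : 0 ≤ A := by
    rw [hA]; unfold avg
    exact div_nonneg (Finset.sum_nonneg fun i _ => sq_nonneg _) hNpos.le
  have f5 : θ * (L - 24 * N * θ) * ((1 + θ) * W) ≤ 2 * numRadius T * ((1 + 6 * θ) * A) * ((1 + θ) * W) := by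
    have g1 : 0 ≤ 2 * numRadius T * ((1 + 6 * θ) * A) * (θ * W) := by positivity
    nlinarith
  have f6 := le_of_mul_le_mul_right f5 hden
  rw [hL] at f6
  exact f6

end core

theorem real_near_two {ε : ℝ} (hε : 0 < ε) : ∃ δ : ℝ, 0 < δ ∧ ∀ (p : ℝ≥0∞) [Fact (1 ≤ p)], 1 < p → p ≠ ∞ →
    |p.toReal - 2| < δ → ∀ (Ω : Type u) [MeasurableSpace Ω] (μ : Measure Ω), Nontrivial (Lp ℝ p μ) →
    (1 - ε) * Mp p.toReal ≤ numIndex ℝ (Lp ℝ p μ) := by
  obtain ⟨t, ht⟩ := exists_crit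
  rcases le_or_gt 1 ε with h | h
  · refine ⟨1, one_pos, ?_⟩
    intro p _ h1 h2 _ Ω _ μ _
    have hpr := toReal_gt_one h1 h2
    have hMp : 0 ≤ Mp p.toReal := Mp_nonneg hpr
    apply le_numIndex
    intro T
    have := numRadius_nonneg T
    have h4 : (1 - ε) * Mp p.toReal * ‖T‖ ≤ 0 :=
      mul_nonpos_of_nonpos_of_nonneg (mul_nonpos_of_nonpos_of_nonneg (by linarith) hMp) (norm_nonneg _)
    linarith
  have hcM := cM_bounds ht
  have htl := ht.lo
  have hth := ht.hi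
  obtain ⟨c0, hc0⟩ : ∃ c0, c0 = cM t * t ^ 4 := ⟨_, rfl⟩
  have hc0pos : 0 < c0 := by
    have h1 : 0 < cM t := by linarith
    have h2 : 0 < t := by linarith
    rw [hc0]; positivity
  have hc0one : c0 ≤ 1 := by
    have h2 : 0 < t := by linarith
    have h3 : t ^ 4 ≤ 1 := pow_le_one₀ h2.le (by linarith)
    have h4 : 0 < t ^ 4 := by positivity
    rw [hc0]
    nlinarith
  obtain ⟨b, hb⟩ : ∃ b, b = c0 * ε / 5 := ⟨_, rfl⟩
  have hb0 : 0 < b := by rw [hb]; positivity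
  have hb1 : b ≤ 1 / 5 := by rw [hb]; nlinarith
  obtain ⟨n0, hn0⟩ : ∃ n0 : ℕ, 32 * Real.pi / b ≤ n0 := exists_nat_ge _
  have hn0pos : (0 : ℝ) < n0 := by
    have : 0 < 32 * Real.pi / b := by
      have := Real.pi_pos
      positivity
    linarith
  obtain ⟨N, hN, z, hNn, hz, hprof⟩ := profile ht hb0 n0
  have hNpos : (0 : ℝ) < N := by
    have : (n0 : ℝ) ≤ N := by exact_mod_cast hNn
    linarith
  have hpiN : 32 * Real.pi / N ≤ b := by
    have h1 : (n0 : ℝ) ≤ N := by exact_mod_cast hNn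
    rw [div_le_iff₀ hNpos]
    rw [div_le_iff₀ hb0] at hn0
    nlinarith
  obtain ⟨δ', hδ'⟩ : ∃ δ', δ' = b / 160 := ⟨_, rfl⟩
  have hδ'0 : 0 < δ' := by rw [hδ']; positivity
  have hδ'1 : δ' ≤ 1 / 40 := by rw [hδ']; linarith
  refine ⟨min δ' (b / (4 + 24 * N)), by positivity, ?_⟩
  intro p _ h1 h2 hlt Ω _ μ _
  have hr1 : |p.toReal - 2| < δ' := hlt.trans_le (min_le_left _ _)
  have hr2 : |p.toReal - 2| < b / (4 + 24 * N) := hlt.trans_le (min_le_right _ _)
  obtain ⟨θ, hθd⟩ : ∃ θ, θ = |p.toReal - 2| := ⟨_, rfl⟩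
  rw [← hθd] at hr1 hr2
  have hθ0 : 0 ≤ θ := by rw [hθd]; exact abs_nonneg _
  have hθsmall : θ ≤ ε / 100 := by
    have : b ≤ ε / 5 := by rw [hb]; nlinarith
    rw [hδ'] at hr1
    linarith
  have hθ10 : θ ≤ 1 / 10 := by linarith
  have hMp := Mp_near ht (r := p.toReal) (by rw [← hθd]; exact hθ10)
  rw [← hθd] at hMp
  have hcore_err : b + 4 * (40 * δ' + 8 * Real.pi / N + θ) + 24 * N * θ ≤ 5 * b := by
    have e1 : 160 * δ' = b := by rw [hδ']; ring
    have e2 : (4 + 24 * N) * θ ≤ b := by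
      rw [lt_div_iff₀ (by positivity)] at hr2
      linarith
    have e3 : 32 * Real.pi / N = 4 * (8 * Real.pi / N) := by ring
    rw [e3] at hpiN
    linarith
  apply le_csInf
  · exact ⟨_, ContinuousLinearMap.id ℝ _, ContinuousLinearMap.norm_id, rfl⟩
  · rintro _ ⟨T, hT, rfl⟩
    have hcMpos : 0 < cM t := by linarith
    rcases le_or_gt (numRadius T) δ' with hv | hv
    · have hA : t ^ 4 ≤ avg (fun j => z j ^ 2) := by
        have e1 : avg (fun _ : ZMod N => t ^ 4) = t ^ 4 := by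
          unfold avg
          rw [Finset.sum_const, Finset.card_univ, ZMod.card, nsmul_eq_mul]
          field_simp
        rw [← e1]
        apply avg_le_avg
        intro j
        have h3 : 0 ≤ t ^ 2 := sq_nonneg t
        have h4 : (t ^ 2) ^ 2 ≤ |z j| ^ 2 := pow_le_pow_left₀ h3 (hz j).1 2
        rw [sq_abs] at h4
        calc t ^ 4 = (t ^ 2) ^ 2 := by ring
          _ ≤ _ := h4
      have key := core ht h1 h2 (by rw [← hθd]; exact hθ10) hδ'0 hδ'1 (by rw [← hθd]; exact hr1.le) T hT hv z hz hprof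
      rw [← hθd] at key
      obtain ⟨A, hAd⟩ : ∃ A, A = avg (fun j => z j ^ 2) := ⟨_, rfl⟩
      rw [← hAd] at key hA
      have hApos : 0 < A := by
        have h3 : 0 < t := by linarith
        have : 0 < t ^ 4 := by positivity
        linarith
      have k1 : 5 * b ≤ cM t * A * ε := by
        rw [hb, hc0]
        have : cM t * t ^ 4 ≤ cM t * A := by gcongr
        nlinarith
      have k2 : θ * (2 * cM t * A * (1 - ε / 2)) ≤ 2 * numRadius T * ((1 + 6 * θ) * A) := by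
        refine le_trans ?_ key
        apply mul_le_mul_of_nonneg_left _ hθ0
        nlinarith
      have k3 : θ * (cM t * (1 - ε / 2)) ≤ numRadius T * (1 + 6 * θ) := by
        have : (θ * (cM t * (1 - ε / 2))) * (2 * A) ≤ (numRadius T * (1 + 6 * θ)) * (2 * A) := by linarith
        exact le_of_mul_le_mul_right this (by positivity)
      have k4 : (1 - ε) * (1 + 6 * θ) * (1 + 6 * θ) ≤ 1 - ε / 2 := by
        have g1 : (1 + 6 * θ) * (1 + 6 * θ) ≤ 1 + 16 * θ := by nlinarith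
        calc (1 - ε) * (1 + 6 * θ) * (1 + 6 * θ) = (1 - ε) * ((1 + 6 * θ) * (1 + 6 * θ)) := by ring
          _ ≤ (1 - ε) * (1 + 16 * θ) := by
            apply mul_le_mul_of_nonneg_left g1; linarith
          _ ≤ 1 - ε / 2 := by nlinarith
      have k5 : ((1 - ε) * Mp p.toReal) * (1 + 6 * θ) ≤ numRadius T * (1 + 6 * θ) := by
        refine le_trans ?_ k3
        calc ((1 - ε) * Mp p.toReal) * (1 + 6 * θ)
            ≤ ((1 - ε) * (θ * (cM t * (1 + 6 * θ)))) * (1 + 6 * θ) := by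
              have : 0 ≤ 1 - ε := by linarith
              gcongr
          _ = (θ * cM t) * ((1 - ε) * (1 + 6 * θ) * (1 + 6 * θ)) := by ring
          _ ≤ (θ * cM t) * (1 - ε / 2) := by
              apply mul_le_mul_of_nonneg_left k4
              positivity
          _ = _ := by ring
      exact le_of_mul_le_mul_right k5 (by positivity)
    · refine le_trans ?_ hv.le
      have k1 : cM t * (1 + 6 * θ) ≤ 1 := by nlinarith
      have k2 : θ * (cM t * (1 + 6 * θ)) ≤ θ := by nlinarith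
      have hpr := toReal_gt_one h1 h2
      have hMp0 : 0 ≤ Mp p.toReal := Mp_nonneg hpr
      nlinarith

end Pool.Agent.Work.MP_95d40a_an.R2
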