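import Pool.Agent.Work.MP_95d40a_an.R2.Num

set_option autoImplicit false

/-!
# SPos: the lower bound for the kernel

`SS_lower`: sixteen intervals.  Points `0, 0.15, 0.23, 0.29, 0.335, 0.37, 0.4, 0.425, 0.45, 0.475, 0.5, 0.53, 0.565,
0.61, 0.68, 0.8, 1` (margin of the final numerical inequality at least `0.148` in each of them).  For `v ∈ [p, q]`
(two consecutive points) all terms are monotone.  Write `bl = 0.3234 ≤ cb ≤ bh = 0.3237`, `dl = 0.3750 ≤ cd ≤ dh = 0.3753`,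
`ml = 1.0736 ≤ cm`, `tl = 0.3012 ≤ t`, `cM ≤ Mh = 0.3316`, and put
`F v = 1 - bl v - dl v²` (upper bound of `ff`), `Fl v = 1 - bh v - dh v²` (lower bound of `ff`, positive on `[0,1]`),
`m v = bl + 2 dl v` (lower bound of `mm`), `H v = 6 dl m v / F v + (m v)³ / (F v)²` (lower bound of
`h3 = 6 cd mm / ff + mm³ / ff²`).  Since `ff` decreases and `mm` increases in `v`, for `v ∈ [p, q]`:
`SS v ≥ tl H(p) + ml m(p)² / F(p) + H(1-q) + bl m(1-q)² / F(1-q) + L - 8 Mh dh² q`, where `L = 0` if `p ≥ 1/2`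
(then `ff (1-v) ≥ ff v` for `v ≥ 1/2`), and `L = 4 dh² (1-p) (1 - F(p) / Fl(1-p))` if `p < 1/2`
(`log x ≥ 1 - 1/x`, `ff(1-v)/ff(v) ≥ Fl(1-p)/F(p)`, which is `≤ 1`, and `1 - v ≤ 1 - p`), while
`cos (π v / 2) ≤ cos (π p / 2) ≤ 1 - x²/2 + x⁴/24` with `x = 3.1415 p / 2` (`Real.cos_le_one_sub_mul_cos_sq`-type bounds,
e.g. `Real.cos_bound` or `Real.cos_le_...`; on `[0, π/2]` the bound `cos x ≤ 1 - x²/2 + x⁴/24` holds).
Checked numerically with `27/5 = 5.4`.
Suggestion: prove one general lemma (one for `p < q ≤ 1/2`, one for `1/2 ≤ p < q`) with hypotheses that are purely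
rational inequalities and instantiate it sixteen times with `norm_num`.

`qq_upper`: `qq t = 3.3275...`, `27/5 * (2/π) = 3.43..`; use the bounds of `Num` (`1 - t ≤ 0.6988`,
`- Real.log t < 1.1999`; for the last term `1 - t + t log t ≥ 1 - t - t * 1.1999`).
-/

open Set

namespace Pool.Agent.Work.MP_95d40a_an.R2

variable {t : ℝ}

private theorem sin_ge (y : ℝ) (hy : 0 ≤ y) : y - y ^ 3 / 6 ≤ Real.sin y := by
  have hd : ∀ x : ℝ, HasDerivAt (fun z : ℝ => Real.sin z - z + z ^ 3 / 6)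
      (Real.cos x - 1 + x ^ 2 / 2) x := by
    intro x
    have h1 := ((Real.hasDerivAt_sin x).sub (hasDerivAt_id x)).add ((hasDerivAt_pow 3 x).div_const 6)
    refine HasDerivAt.congr_deriv h1 ?_
    norm_num
    ring
  have hm : Monotone (fun z : ℝ => Real.sin z - z + z ^ 3 / 6) := by
    refine monotone_of_deriv_nonneg (fun x => (hd x).differentiableAt) fun x => ?_
    rw [(hd x).deriv]
    have := Real.one_sub_sq_div_two_le_cos (x := x)
    linarith
  have h2 := hm hy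
  simp only [Real.sin_zero] at h2
  norm_num at h2
  linarith

private theorem cos_le' (x : ℝ) (hx : 0 ≤ x) (hx' : x ≤ 3) :
    Real.cos x ≤ 1 - x ^ 2 / 2 + x ^ 4 / 24 := by
  have h1 := sin_ge (x / 2) (by linarith)
  have h2 : Real.cos x = 1 - 2 * Real.sin (x / 2) ^ 2 := by
    have h3 := Real.cos_two_mul (x / 2)
    have h4 := Real.sin_sq_add_cos_sq (x / 2)
    rw [show 2 * (x / 2) = x by ring] at h3
    nlinarith
  have h5 : 0 ≤ x / 2 - (x / 2) ^ 3 / 6 := by
    have h6 : x / 2 - (x / 2) ^ 3 / 6 = x * (24 - x ^ 2) / 48 := by ring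
    rw [h6]
    have : 0 ≤ 24 - x ^ 2 := by nlinarith
    positivity
  have h7 : (x / 2 - (x / 2) ^ 3 / 6) ^ 2 ≤ Real.sin (x / 2) ^ 2 := by
    exact pow_le_pow_left₀ h5 h1 2
  have h8 : (x / 2 - (x / 2) ^ 3 / 6) ^ 2 = x ^ 2 / 4 - x ^ 4 / 48 + x ^ 6 / 2304 := by ring
  have h9 : 0 ≤ x ^ 6 := by positivity
  rw [h2]
  linarith

private theorem cos_piece {p v : ℝ} (hp : 0 ≤ p) (hpv : p ≤ v) (hv : v ≤ 1) :
    Real.cos (Real.pi * v / 2) ≤ 1 - (3.1415 * p / 2) ^ 2 / 2 + (3.1415 * p / 2) ^ 4 / 24 := by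
  have hpi := Real.pi_gt_d4
  have hpi' := Real.pi_lt_d4
  have h1 : 3.1415 * p / 2 ≤ Real.pi * v / 2 := by nlinarith
  have h2 : Real.cos (Real.pi * v / 2) ≤ Real.cos (3.1415 * p / 2) := by
    refine Real.cos_le_cos_of_nonneg_of_le_pi (by positivity) ?_ h1
    nlinarith
  exact h2.trans (cos_le' _ (by positivity) (by nlinarith))

private theorem mm_lower (ht : Crit t) {a w : ℝ} (ha : 0 ≤ a) (haw : a ≤ w) :
    0.3234 + 0.75 * a ≤ mm t w := by
  have h1 := (cb_bounds ht).1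
  have h2 := (cd_bounds ht).1
  rw [mm]
  nlinarith

private theorem ff_upper (ht : Crit t) {a w : ℝ} (ha : 0 ≤ a) (haw : a ≤ w) :
    ff t w ≤ 1 - 0.3234 * a - 0.375 * a ^ 2 := by
  have h1 := (cb_bounds ht).1
  have h2 := (cd_bounds ht).1
  have h3 : a ^ 2 ≤ w ^ 2 := pow_le_pow_left₀ ha haw 2
  rw [ff]
  nlinarith

private theorem h3_lower (ht : Crit t) {a w : ℝ} (ha : 0 ≤ a) (haw : a ≤ w) (hw : w ≤ 1) :
    6 * 0.375 * (0.3234 + 0.75 * a) / (1 - 0.3234 * a - 0.375 * a ^ 2) +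
      (0.3234 + 0.75 * a) ^ 3 / (1 - 0.3234 * a - 0.375 * a ^ 2) ^ 2 ≤ h3 t w := by
  have hm := mm_lower ht ha haw
  have hF := ff_upper ht ha haw
  have hf := ff_pos ht ⟨ha.trans haw, hw⟩
  have hd := (cd_bounds ht).1
  have e : h3 t w = 6 * cd t * mm t w / ff t w + mm t w ^ 3 / ff t w ^ 2 := by
    rw [h3]
    field_simp
  rw [e]
  have hm0 : 0 ≤ 0.3234 + 0.75 * a := by positivity
  have hm1 : 0 ≤ mm t w := hm0.trans hm
  have hd0 : 0 ≤ cd t := by linarith
  have hd' : 0.375 ≤ cd t := by linarith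
  refine add_le_add ?_ ?_
  · refine div_le_div₀ (by positivity) ?_ hf hF
    exact mul_le_mul (by linarith) hm hm0 (by positivity)
  · refine div_le_div₀ (by positivity) ?_ (by positivity) ?_
    · exact pow_le_pow_left₀ hm0 hm 3
    · exact pow_le_pow_left₀ hf.le hF 2

private theorem sq_lower (ht : Crit t) {a w : ℝ} (ha : 0 ≤ a) (haw : a ≤ w) (hw : w ≤ 1) :
    (0.3234 + 0.75 * a) ^ 2 / (1 - 0.3234 * a - 0.375 * a ^ 2) ≤ mm t w ^ 2 / ff t w := by
  have hm := mm_lower ht ha haw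
  have hF := ff_upper ht ha haw
  have hf := ff_pos ht ⟨ha.trans haw, hw⟩
  have hm0 : 0 ≤ 0.3234 + 0.75 * a := by positivity
  gcongr

private theorem mul_lower {a b x y : ℝ} (ha : 0 ≤ a) (hab : a ≤ b) (hx : 0 ≤ x) (hxy : x ≤ y) :
    a * x ≤ b * y := mul_le_mul hab hxy hx (ha.trans hab)

private theorem h3_nonneg' {a : ℝ} (ha : 0 ≤ a) (ha' : a ≤ 1) :
    0 ≤ 6 * 0.375 * (0.3234 + 0.75 * a) / (1 - 0.3234 * a - 0.375 * a ^ 2) +
      (0.3234 + 0.75 * a) ^ 3 / (1 - 0.3234 * a - 0.375 * a ^ 2) ^ 2 := by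
  have : 0 < 1 - 0.3234 * a - 0.375 * a ^ 2 := by nlinarith
  positivity

private theorem sq_nonneg' {a : ℝ} (ha : 0 ≤ a) (ha' : a ≤ 1) :
    0 ≤ (0.3234 + 0.75 * a) ^ 2 / (1 - 0.3234 * a - 0.375 * a ^ 2) := by
  have : 0 < 1 - 0.3234 * a - 0.375 * a ^ 2 := by nlinarith
  positivity

/-- lower bound of the logarithmic term, first half -/
private theorem log_lo (ht : Crit t) {p v : ℝ} (hp : 0 ≤ p) (hpv : p ≤ v) (hv : v ≤ 1)
    (hk : 1 - 0.3237 * (1 - p) - 0.3753 * (1 - p) ^ 2 ≤ 1 - 0.3234 * p - 0.375 * p ^ 2) :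
    4 * 0.3753 ^ 2 * (1 - p) * (1 - (1 - 0.3234 * p - 0.375 * p ^ 2) /
      (1 - 0.3237 * (1 - p) - 0.3753 * (1 - p) ^ 2)) ≤
      4 * cd t ^ 2 * (1 - v) * (Real.log (ff t (1 - v)) - Real.log (ff t v)) := by
  have hF := ff_upper ht hp hpv
  have hf := ff_pos ht ⟨hp.trans hpv, hv⟩
  have hf' := ff_pos ht (v := 1 - v) ⟨by linarith, by linarith⟩
  obtain ⟨hd1, hd2⟩ := cd_bounds ht
  have hb := (cb_bounds ht).2
  have hFl : 1 - 0.3237 * (1 - p) - 0.3753 * (1 - p) ^ 2 ≤ ff t (1 - v) := by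
    refine le_trans ?_ (ff_anti ht (v := 1 - v) (w := 1 - p) (by linarith) (by linarith))
    rw [ff]
    nlinarith [sq_nonneg (1 - p), hpv.trans hv]
  have hFl0 : 0 < 1 - 0.3237 * (1 - p) - 0.3753 * (1 - p) ^ 2 := by nlinarith [hpv.trans hv]
  generalize 1 - 0.3237 * (1 - p) - 0.3753 * (1 - p) ^ 2 = G at *
  generalize 1 - 0.3234 * p - 0.375 * p ^ 2 = F at *
  have h1 : 1 - F / G ≤ Real.log (ff t (1 - v)) - Real.log (ff t v) := by
    have h2 : Real.log (ff t v / ff t (1 - v)) ≤ ff t v / ff t (1 - v) - 1 :=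
      Real.log_le_sub_one_of_pos (div_pos hf hf')
    rw [Real.log_div hf.ne' hf'.ne'] at h2
    have h3 : ff t v / ff t (1 - v) ≤ F / G :=
      div_le_div₀ (hf.le.trans hF) hF hFl0 hFl
    linarith
  have h2 : 1 - F / G ≤ 0 := by
    rw [sub_nonpos, le_div_iff₀ hFl0]
    linarith
  have h3 : 4 * cd t ^ 2 * (1 - v) ≤ 4 * 0.3753 ^ 2 * (1 - p) := by
    have : 0 ≤ 1 - v := by linarith
    gcongr
  have h4 : 0 ≤ 4 * cd t ^ 2 * (1 - v) := by
    have : 0 ≤ 1 - v := by linarith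
    positivity
  calc 4 * 0.3753 ^ 2 * (1 - p) * (1 - F / G) ≤ 4 * cd t ^ 2 * (1 - v) * (1 - F / G) :=
        mul_le_mul_of_nonpos_right h3 h2
    _ ≤ _ := mul_le_mul_of_nonneg_left h1 h4

private theorem log_hi (ht : Crit t) {v : ℝ} (hv0 : 1 / 2 ≤ v) (hv : v ≤ 1) :
    0 ≤ 4 * cd t ^ 2 * (1 - v) * (Real.log (ff t (1 - v)) - Real.log (ff t v)) := by
  have h1 : ff t v ≤ ff t (1 - v) := ff_anti ht (by linarith) (by linarith)
  have h2 := Real.log_le_log (ff_pos ht ⟨by linarith, hv⟩) h1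
  have h3 : 0 ≤ 1 - v := by linarith
  have h4 := sub_nonneg.2 h2
  positivity

private theorem piece (ht : Crit t) {p q v L : ℝ} (hp : 0 ≤ p) (hpv : p ≤ v) (hvq : v ≤ q)
    (hq : q ≤ 1)
    (hL : L ≤ 4 * cd t ^ 2 * (1 - v) * (Real.log (ff t (1 - v)) - Real.log (ff t v)))
    (hfin : 27 / 5 * (1 - (3.1415 * p / 2) ^ 2 / 2 + (3.1415 * p / 2) ^ 4 / 24) ≤
      0.3012 * (6 * 0.375 * (0.3234 + 0.75 * p) / (1 - 0.3234 * p - 0.375 * p ^ 2) +
        (0.3234 + 0.75 * p) ^ 3 / (1 - 0.3234 * p - 0.375 * p ^ 2) ^ 2) +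
      1.0736 * ((0.3234 + 0.75 * p) ^ 2 / (1 - 0.3234 * p - 0.375 * p ^ 2)) +
      (6 * 0.375 * (0.3234 + 0.75 * (1 - q)) / (1 - 0.3234 * (1 - q) - 0.375 * (1 - q) ^ 2) +
        (0.3234 + 0.75 * (1 - q)) ^ 3 / (1 - 0.3234 * (1 - q) - 0.375 * (1 - q) ^ 2) ^ 2) +
      0.3234 * ((0.3234 + 0.75 * (1 - q)) ^ 2 / (1 - 0.3234 * (1 - q) - 0.375 * (1 - q) ^ 2)) +
      L - 8 * 0.3316 * 0.3753 ^ 2 * q) :
    27 / 5 * Real.cos (Real.pi * v / 2) ≤ SS t v := by
  have hv1 : v ≤ 1 := hvq.trans hq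
  have hv0 : 0 ≤ v := hp.trans hpv
  have a0 := cos_piece hp hpv hv1
  have a1 := mul_lower (by norm_num) ht.lo.le (h3_nonneg' hp (hpv.trans hv1))
    (h3_lower ht hp hpv hv1)
  have a2 := mul_lower (by norm_num) (cm_bounds ht).1.le (sq_nonneg' hp (hpv.trans hv1))
    (sq_lower ht hp hpv hv1)
  have a3 := h3_lower ht (a := 1 - q) (w := 1 - v) (by linarith) (by linarith) (by linarith)
  have a4 := mul_lower (by norm_num) (cb_bounds ht).1.le
    (sq_nonneg' (a := 1 - q) (by linarith) (by linarith))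
    (sq_lower ht (a := 1 - q) (w := 1 - v) (by linarith) (by linarith) (by linarith))
  have a5 : 8 * cM t * cd t ^ 2 * v ≤ 8 * 0.3316 * 0.3753 ^ 2 * q := by
    have b1 := (cM_bounds ht).2
    have b2 := (cd_bounds ht).2
    have b3 := (cd_bounds ht).1
    gcongr
  rw [SS]
  linarith

theorem SS_lower (ht : Crit t) {v : ℝ} (hv : v ∈ Icc (0 : ℝ) 1) :
    27 / 5 * Real.cos (Real.pi * v / 2) ≤ SS t v := by
  obtain ⟨hv0, hv1⟩ := hv
  rcases le_total v 0.15 with h | h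
  · have hl : (0 : ℝ) ≤ v := by linarith
    exact piece ht (p := 0) (q := 0.15) (by norm_num) hl h (by norm_num)
      (log_lo ht (by norm_num) hl hv1 (by norm_num)) (by norm_num)
  rcases le_total v 0.23 with h | h
  · have hl : (0.15 : ℝ) ≤ v := by linarith
    exact piece ht (p := 0.15) (q := 0.23) (by norm_num) hl h (by norm_num)
      (log_lo ht (by norm_num) hl hv1 (by norm_num)) (by norm_num)
  rcases le_total v 0.29 with h | h
  · have hl : (0.23 : ℝ) ≤ v := by linarith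
    exact piece ht (p := 0.23) (q := 0.29) (by norm_num) hl h (by norm_num)
      (log_lo ht (by norm_num) hl hv1 (by norm_num)) (by norm_num)
  rcases le_total v 0.335 with h | h
  · have hl : (0.29 : ℝ) ≤ v := by linarith
    exact piece ht (p := 0.29) (q := 0.335) (by norm_num) hl h (by norm_num)
      (log_lo ht (by norm_num) hl hv1 (by norm_num)) (by norm_num)
  rcases le_total v 0.37 with h | h
  · have hl : (0.335 : ℝ) ≤ v := by linarith
    exact piece ht (p := 0.335) (q := 0.37) (by norm_num) hl h (by norm_num)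
      (log_lo ht (by norm_num) hl hv1 (by norm_num)) (by norm_num)
  rcases le_total v 0.4 with h | h
  · have hl : (0.37 : ℝ) ≤ v := by linarith
    exact piece ht (p := 0.37) (q := 0.4) (by norm_num) hl h (by norm_num)
      (log_lo ht (by norm_num) hl hv1 (by norm_num)) (by norm_num)
  rcases le_total v 0.425 with h | h
  · have hl : (0.4 : ℝ) ≤ v := by linarith
    exact piece ht (p := 0.4) (q := 0.425) (by norm_num) hl h (by norm_num)
      (log_lo ht (by norm_num) hl hv1 (by norm_num)) (by norm_num)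
  rcases le_total v 0.45 with h | h
  · have hl : (0.425 : ℝ) ≤ v := by linarith
    exact piece ht (p := 0.425) (q := 0.45) (by norm_num) hl h (by norm_num)
      (log_lo ht (by norm_num) hl hv1 (by norm_num)) (by norm_num)
  rcases le_total v 0.475 with h | h
  · have hl : (0.45 : ℝ) ≤ v := by linarith
    exact piece ht (p := 0.45) (q := 0.475) (by norm_num) hl h (by norm_num)
      (log_lo ht (by norm_num) hl hv1 (by norm_num)) (by norm_num)
  rcases le_total v 0.5 with h | h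
  · have hl : (0.475 : ℝ) ≤ v := by linarith
    exact piece ht (p := 0.475) (q := 0.5) (by norm_num) hl h (by norm_num)
      (log_lo ht (by norm_num) hl hv1 (by norm_num)) (by norm_num)
  rcases le_total v 0.53 with h | h
  · have hl : (0.5 : ℝ) ≤ v := by linarith
    exact piece ht (p := 0.5) (q := 0.53) (L := 0) (by norm_num) hl h (by norm_num)
      (log_hi ht (by linarith) hv1) (by norm_num)
  rcases le_total v 0.565 with h | h
  · have hl : (0.53 : ℝ) ≤ v := by linarith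
    exact piece ht (p := 0.53) (q := 0.565) (L := 0) (by norm_num) hl h (by norm_num)
      (log_hi ht (by linarith) hv1) (by norm_num)
  rcases le_total v 0.61 with h | h
  · have hl : (0.565 : ℝ) ≤ v := by linarith
    exact piece ht (p := 0.565) (q := 0.61) (L := 0) (by norm_num) hl h (by norm_num)
      (log_hi ht (by linarith) hv1) (by norm_num)
  rcases le_total v 0.68 with h | h
  · have hl : (0.61 : ℝ) ≤ v := by linarith
    exact piece ht (p := 0.61) (q := 0.68) (L := 0) (by norm_num) hl h (by norm_num)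
      (log_hi ht (by linarith) hv1) (by norm_num)
  rcases le_total v 0.8 with h | h
  · have hl : (0.68 : ℝ) ≤ v := by linarith
    exact piece ht (p := 0.68) (q := 0.8) (L := 0) (by norm_num) hl h (by norm_num)
      (log_hi ht (by linarith) hv1) (by norm_num)
  have hl : (0.8 : ℝ) ≤ v := by linarith
  have h : v ≤ 1 := hv1
  exact piece ht (p := 0.8) (q := 1) (L := 0) (by norm_num) hl h (by norm_num)
    (log_hi ht (by linarith) hv1) (by norm_num)

theorem qq_upper (ht : Crit t) : qq t ≤ 27 / 5 * (2 / Real.pi) := by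
  have hpi := Real.pi_gt_d4
  have hpi' := Real.pi_lt_d4
  obtain ⟨d1, d2⟩ := cd_bounds ht
  obtain ⟨b1, b2⟩ := cb_bounds ht
  obtain ⟨m1, m2⟩ := cm_bounds ht
  obtain ⟨M1, M2⟩ := cM_bounds ht
  obtain ⟨u1, u2⟩ := u_bounds ht
  have t1 := ht.lo
  have t2 := ht.hi
  have a1 : 2 * cM t * (2 * cd t * (1 + t) + cb t * cm t) ≤
      2 * 0.3316 * (2 * 0.3753 * (1 + 0.3014) + 0.3237 * 1.0741) := by gcongr
  have a2 : 6 * cd t * (1 - t) ≤ 6 * 0.3753 * (1 - 0.3012) := by
    have : 0 ≤ 1 - t := by linarith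
    gcongr
  have a3 : cm t ^ 2 * (- Real.log t) ≤ 1.0741 ^ 2 * 1.1999 := by
    have : 0 ≤ - Real.log t := by linarith
    gcongr
  have a4 : 1 - 0.3014 - 0.3014 * 1.1999 ≤ 1 - t + t * Real.log t := by nlinarith
  have a5 : 4 * 0.3750 * (1 - 0.3014 - 0.3014 * 1.1999) ≤
      4 * cd t * (1 - t + t * Real.log t) := by
    refine mul_le_mul (by linarith) a4 (by norm_num) (by linarith)
  have a6 : (27 / 5 * (2 / 3.1416) : ℝ) ≤ 27 / 5 * (2 / Real.pi) := by gcongr
  refine le_trans ?_ a6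
  rw [qq]
  norm_num at a1 a2 a3 a4 a5 ⊢
  linarith

end Pool.Agent.Work.MP_95d40a_an.R2
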