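import Pool.Agent.Work.MP_95d40a_an.R2.PartsI
import Pool.Agent.Work.MP_95d40a_an.R2.SPos

set_option autoImplicit false

/-!
# Neg: `AA ≤ 0` for the frequencies `k = (2 l + 1) π / 2`, `l ≥ 1`

`cos (fr l) = 0`, `sin (fr l) = (-1)^l`.  By `AA_identity`, `integral_SS`, with `G = 27/5`:
`k⁴ AA = q0 + ∫ SS cos kv = qq - ∫ SS (1 - cos kv) ≤ qq - G ∫ cos (π v / 2) (1 - cos kv)` (as `SS ≥ G cos (π v/2)` and
`1 - cos kv ≥ 0`), `∫_0^1 cos (π v/2) = 2/π` and `∫_0^1 cos (π v / 2) cos (k v) = 0` for `k = (2l+1)π/2`, `l ≥ 1`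
(`cos a cos b = (cos (a+b) + cos (a-b))/2`, `k ± π/2 = (l+1) π, l π`, nonzero multiples of `π`, so the integrals are
`sin(m π)/(m π) = 0`).  Hence `k⁴ AA ≤ qq - G 2/π ≤ 0` by `qq_upper`.
-/

open Set

namespace Pool.Agent.Work.MP_95d40a_an.R2

variable {t : ℝ}

theorem cos_fr (l : ℕ) : Real.cos (fr l) = 0 := by
  rw [Real.cos_eq_zero_iff]
  refine ⟨(l : ℤ), ?_⟩
  unfold fr
  push_cast
  ring

theorem sin_fr (l : ℕ) : Real.sin (fr l) = (-1) ^ l := by
  have h : fr l = (l : ℝ) * Real.pi + Real.pi / 2 := by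
    unfold fr
    ring
  rw [h, Real.sin_add_pi_div_two, Real.cos_nat_mul_pi]

private theorem int_cos {w : ℝ} (hw : w ≠ 0) :
    ∫ v in (0 : ℝ)..1, Real.cos (w * v) = Real.sin w / w := by
  rw [intervalIntegral.integral_comp_mul_left (fun x => Real.cos x) hw, integral_cos, mul_zero,
    mul_one, Real.sin_zero, sub_zero, smul_eq_mul]
  field_simp

theorem AA_nonpos (ht : Crit t) {l : ℕ} (hl : 1 ≤ l) : AA t (fr l) ((-1) ^ l) ≤ 0 := by
  have hpi := Real.pi_pos
  have hl' : (1 : ℝ) ≤ l := by exact_mod_cast hl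
  have hk : 0 < fr l := by
    unfold fr
    positivity
  have hid := AA_identity ht hk (cos_fr l) (sin_fr l)
  have hSS := integral_SS ht
  have hqq := qq_upper ht
  have hI : uIcc (0 : ℝ) 1 = Icc 0 1 := uIcc_of_le zero_le_one
  have hcont := continuousOn_SS ht
  have i0 : IntervalIntegrable (SS t) MeasureTheory.volume 0 1 := by
    apply ContinuousOn.intervalIntegrable
    rw [hI]; exact hcont
  have i1 : IntervalIntegrable (fun v => SS t v * Real.cos (fr l * v))
      MeasureTheory.volume 0 1 := by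
    apply ContinuousOn.intervalIntegrable
    rw [hI]
    exact hcont.mul (by fun_prop : Continuous fun v : ℝ => Real.cos (fr l * v)).continuousOn
  -- the comparison integral
  have hw1 : fr l + Real.pi / 2 ≠ 0 := by positivity
  have hw2 : fr l - Real.pi / 2 ≠ 0 := by
    have : fr l - Real.pi / 2 = l * Real.pi := by unfold fr; ring
    rw [this]; positivity
  have j1 : ∫ v in (0 : ℝ)..1, Real.cos ((fr l + Real.pi / 2) * v) = 0 := by
    rw [int_cos hw1]
    have : fr l + Real.pi / 2 = ((l + 1 : ℕ) : ℝ) * Real.pi := by unfold fr; push_cast; ring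
    rw [this, Real.sin_nat_mul_pi, zero_div]
  have j2 : ∫ v in (0 : ℝ)..1, Real.cos ((fr l - Real.pi / 2) * v) = 0 := by
    rw [int_cos hw2]
    have : fr l - Real.pi / 2 = (l : ℝ) * Real.pi := by unfold fr; ring
    rw [this, Real.sin_nat_mul_pi, zero_div]
  have hp2 : Real.pi / 2 ≠ 0 := by positivity
  have j3 : ∫ v in (0 : ℝ)..1, Real.cos (Real.pi / 2 * v) = 2 / Real.pi := by
    rw [int_cos hp2, Real.sin_pi_div_two]
    field_simp
  have k1 : IntervalIntegrable (fun v : ℝ => Real.cos ((fr l + Real.pi / 2) * v))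
      MeasureTheory.volume 0 1 :=
    (by fun_prop : Continuous fun v : ℝ => Real.cos ((fr l + Real.pi / 2) * v)).intervalIntegrable _ _
  have k2 : IntervalIntegrable (fun v : ℝ => Real.cos ((fr l - Real.pi / 2) * v))
      MeasureTheory.volume 0 1 :=
    (by fun_prop : Continuous fun v : ℝ => Real.cos ((fr l - Real.pi / 2) * v)).intervalIntegrable _ _
  have k3 : IntervalIntegrable (fun v : ℝ => Real.cos (Real.pi / 2 * v))
      MeasureTheory.volume 0 1 :=
    (by fun_prop : Continuous fun v : ℝ => Real.cos (Real.pi / 2 * v)).intervalIntegrable _ _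
  have hG : ∫ v in (0 : ℝ)..1, (27 / 5 * Real.cos (Real.pi * v / 2)) * (1 - Real.cos (fr l * v)) =
      27 / 5 * (2 / Real.pi) := by
    have h1 : ∀ v : ℝ, (27 / 5 * Real.cos (Real.pi * v / 2)) * (1 - Real.cos (fr l * v)) =
        27 / 5 * Real.cos (Real.pi / 2 * v) + (- (27 / 10)) * Real.cos ((fr l + Real.pi / 2) * v) +
          (- (27 / 10)) * Real.cos ((fr l - Real.pi / 2) * v) := by
      intro v
      have e1 : Real.pi * v / 2 = Real.pi / 2 * v := by ring
      rw [e1, add_mul, sub_mul, Real.cos_add, Real.cos_sub]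
      ring
    simp_rw [h1]
    rw [intervalIntegral.integral_add ((k3.const_mul _).add (k1.const_mul _)) (k2.const_mul _),
      intervalIntegral.integral_add (k3.const_mul _) (k1.const_mul _),
      intervalIntegral.integral_const_mul, intervalIntegral.integral_const_mul,
      intervalIntegral.integral_const_mul, j1, j2, j3]
    ring
  have hmono : ∫ v in (0 : ℝ)..1, (27 / 5 * Real.cos (Real.pi * v / 2)) * (1 - Real.cos (fr l * v)) ≤
      ∫ v in (0 : ℝ)..1, (SS t v - SS t v * Real.cos (fr l * v)) := by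
    apply intervalIntegral.integral_mono_on zero_le_one
    · exact (by fun_prop : Continuous fun v : ℝ =>
        (27 / 5 * Real.cos (Real.pi * v / 2)) * (1 - Real.cos (fr l * v))).intervalIntegrable _ _
    · exact i0.sub i1
    · intro v hv
      have h1 := SS_lower ht hv
      have h2 := Real.cos_le_one (fr l * v)
      nlinarith
  rw [hG, intervalIntegral.integral_sub i0 i1] at hmono
  have hk4 : 0 < fr l ^ 4 := by positivity
  have hfin : fr l ^ 4 * AA t (fr l) ((-1) ^ l) ≤ 0 := by
    rw [hid]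
    linarith
  by_contra hcon
  push Not at hcon
  have := mul_pos hk4 hcon
  linarith

end Pool.Agent.Work.MP_95d40a_an.R2
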