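import Pool.Agent.Work.MP_95d40a_an.R2.Defs

set_option autoImplicit false

/-!
# Num: the constants

`exists_crit`: apply the intermediate value theorem to `x ↦ (- log x) (1 - x²) - (1 + x²)` on `[0.3012, 0.3014]`;
it is positive at `0.3012` (`- log 0.3012 = 1.19998 > 1.19955 > 1.0907..../0.9092...`) and negative at `0.3014`
(`- log 0.3014 = 1.19931.. < 1.1998`).  For the logarithms: `exp (1.19955) * 0.3012 < 1` and
`1 < exp (1.1998) * 0.3014`; bound `exp (1.19955) = exp (0.599775) ^ 2` with `Real.exp_bound'` and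
`Real.sum_le_exp_of_nonneg` (7 terms are plenty).  The signs at the end points must be strict (the zero must lie inside).
All other lemmas are algebra (`u = - log t = (1 + t²) / (1 - t²)`).
`cM_max`: with `G(s) = cM (1 + s²) + s log s`: `log s = log t + log (s / t) ≥ - u + 1 - t / s`, hence
`G(s) ≥ cM (1 + s²) - u s + s - t = cM (s - t)² ≥ 0` because `u - 1 = 2 cM t` and `cM (1 - t²) = t`.
-/

open Set

namespace Pool.Agent.Work.MP_95d40a_an.R2

private theorem exp_lo : Real.exp (119955 / 100000 : ℝ) * 0.3012 < 1 := by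
  have h1 : Real.exp (119955 / 200000 : ℝ) ≤ 1.82172 := by
    have h := Real.exp_bound' (x := (119955 / 200000 : ℝ)) (by norm_num) (by norm_num) (n := 8)
      (by norm_num)
    refine h.trans ?_
    norm_num [Finset.sum_range_succ, Nat.factorial]
  have h2 : Real.exp (119955 / 100000 : ℝ) = Real.exp (119955 / 200000 : ℝ) ^ 2 := by
    rw [← Real.exp_nat_mul]
    norm_num
  rw [h2]
  have h3 : 0 < Real.exp (119955 / 200000 : ℝ) := Real.exp_pos _
  nlinarith

private theorem exp_hi : 1 < Real.exp (11998 / 10000 : ℝ) * 0.3014 := by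
  have h1 : 1.8219 ≤ Real.exp (11998 / 20000 : ℝ) := by
    have h := Real.sum_le_exp_of_nonneg (x := (11998 / 20000 : ℝ)) (by norm_num) 8
    refine le_trans ?_ h
    norm_num [Finset.sum_range_succ, Nat.factorial]
  have h2 : Real.exp (11998 / 10000 : ℝ) = Real.exp (11998 / 20000 : ℝ) ^ 2 := by
    rw [← Real.exp_nat_mul]
    norm_num
  rw [h2]
  nlinarith

theorem exists_crit : ∃ t, Crit t := by
  have hlo : 1.19955 < - Real.log 0.3012 := by
    have h := exp_lo
    have h1 : Real.exp (119955 / 100000 : ℝ) < 1 / 0.3012 := by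
      rw [lt_div_iff₀ (by norm_num)]
      exact h
    have h2 := (Real.lt_log_iff_exp_lt (by norm_num)).2 h1
    rw [one_div, Real.log_inv] at h2
    norm_num at h2 ⊢
    linarith
  have hhi : - Real.log 0.3014 < 1.1998 := by
    have h := exp_hi
    have h1 : 1 / 0.3014 < Real.exp (11998 / 10000 : ℝ) := by
      rw [div_lt_iff₀ (by norm_num)]
      exact h
    have h2 := (Real.log_lt_iff_lt_exp (by norm_num)).2 h1
    rw [one_div, Real.log_inv] at h2
    norm_num at h2 ⊢
    linarith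
  have hc : ContinuousOn (fun x : ℝ => (- Real.log x) * (1 - x ^ 2) - (1 + x ^ 2))
      (Icc 0.3012 0.3014) := by
    refine ContinuousOn.sub (ContinuousOn.mul (ContinuousOn.neg (Real.continuousOn_log.mono ?_))
      (by fun_prop)) (by fun_prop)
    intro x hx
    have := hx.1
    simp only [mem_compl_iff, mem_singleton_iff]
    intro h0
    rw [h0] at this
    norm_num at this
  have h0 := intermediate_value_Icc' (by norm_num) hc
  have h1 : (0 : ℝ) ∈ Icc ((- Real.log 0.3014) * (1 - 0.3014 ^ 2) - (1 + 0.3014 ^ 2))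
      ((- Real.log 0.3012) * (1 - 0.3012 ^ 2) - (1 + 0.3012 ^ 2)) := by
    constructor
    · nlinarith
    · nlinarith
  obtain ⟨t, ⟨ht1, ht2⟩, ht⟩ := h0 h1
  refine ⟨t, ⟨lt_of_le_of_ne ht1 ?_, lt_of_le_of_ne ht2 ?_, ?_⟩⟩
  · intro h
    rw [← h] at ht
    simp only at ht
    nlinarith
  · intro h
    rw [h] at ht
    simp only at ht
    nlinarith
  · simp only at ht
    linarith

variable {t : ℝ}

theorem cM_mul (ht : Crit t) : cM t * (1 - t ^ 2) = t := by
  have h1 := ht.lo
  have h2 := ht.hi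
  have h3 : (1 : ℝ) - t ^ 2 ≠ 0 := by nlinarith
  rw [cM, div_mul_cancel₀ _ h3]

theorem cM_mul' (ht : Crit t) : cM t * (1 + t ^ 2) = t * (- Real.log t) := by
  have h1 := ht.lo
  have h2 := ht.hi
  have h3 : (1 : ℝ) - t ^ 2 ≠ 0 := by nlinarith
  rw [cM, ← ht.crit]
  field_simp

theorem cM_mul'' (ht : Crit t) : 2 * cM t * t = - Real.log t - 1 := by
  have h1 := cM_mul ht
  have h2 := cM_mul' ht
  have h3 : 0 < t := by linarith [ht.lo]
  have h4 : (2 * cM t * t) * t = (- Real.log t - 1) * t := by linarith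
  exact mul_right_cancel₀ h3.ne' h4

theorem cb_eq (t : ℝ) : cb t = t * cm t := by
  rw [cb, cm]
  ring

theorem cm_eq (ht : Crit t) : cm t = cb t + 2 * cd t := by
  have h1 := ht.lo
  have h3 : (1 : ℝ) + t ≠ 0 := by linarith
  rw [cm, cb, cd]
  field_simp
  ring

theorem cm_sq (ht : Crit t) : cm t ^ 2 = cb t ^ 2 + 4 * cd t * (1 - t) := by
  have h1 := ht.lo
  have h3 : (1 : ℝ) + t ≠ 0 := by linarith
  rw [cm, cb, cd]
  field_simp
  ring

theorem cb_bounds (ht : Crit t) : 0.3234 < cb t ∧ cb t < 0.3237 := by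
  have h1 := ht.lo
  have h2 := ht.hi
  rw [cb]
  constructor
  · rw [lt_div_iff₀ (by linarith)]
    nlinarith
  · rw [div_lt_iff₀ (by linarith)]
    nlinarith

theorem cd_bounds (ht : Crit t) : 0.3750 < cd t ∧ cd t < 0.3753 := by
  have h1 := ht.lo
  have h2 := ht.hi
  rw [cd]
  constructor
  · rw [lt_div_iff₀ (by linarith)]
    nlinarith
  · rw [div_lt_iff₀ (by linarith)]
    nlinarith

theorem cm_bounds (ht : Crit t) : 1.0736 < cm t ∧ cm t < 1.0741 := by
  have h1 := ht.lo
  have h2 := ht.hi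
  rw [cm]
  constructor
  · rw [lt_div_iff₀ (by linarith)]
    nlinarith
  · rw [div_lt_iff₀ (by linarith)]
    nlinarith

theorem cM_bounds (ht : Crit t) : 0.3312 < cM t ∧ cM t < 0.3316 := by
  have h1 := ht.lo
  have h2 := ht.hi
  rw [cM]
  constructor
  · rw [lt_div_iff₀ (by nlinarith)]
    nlinarith
  · rw [div_lt_iff₀ (by nlinarith)]
    nlinarith

theorem u_bounds (ht : Crit t) : 1.1995 < - Real.log t ∧ - Real.log t < 1.1999 := by
  have h1 := ht.lo
  have h2 := ht.hi
  have h3 := ht.crit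
  have h4 : 0 < 1 - t ^ 2 := by nlinarith
  have h5 : - Real.log t = (1 + t ^ 2) / (1 - t ^ 2) := by
    rw [eq_div_iff h4.ne']
    exact h3
  rw [h5]
  constructor
  · rw [lt_div_iff₀ h4]
    nlinarith
  · rw [div_lt_iff₀ h4]
    nlinarith

theorem ff_zero (t : ℝ) : ff t 0 = 1 := by
  simp [ff]

theorem ff_one (ht : Crit t) : ff t 1 = t := by
  have h1 := ht.lo
  have h3 : (1 : ℝ) + t ≠ 0 := by linarith
  rw [ff, cb, cd]
  field_simp
  ring

theorem ff_anti (ht : Crit t) {v w : ℝ} (hv : 0 ≤ v) (hvw : v ≤ w) : ff t w ≤ ff t v := by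
  have h1 := cb_bounds ht
  have h2 := cd_bounds ht
  rw [ff, ff]
  nlinarith [mul_nonneg (sub_nonneg.2 hvw) (add_nonneg hv (hv.trans hvw))]

theorem ff_mem (ht : Crit t) {v : ℝ} (hv : v ∈ Icc (0 : ℝ) 1) : t ≤ ff t v ∧ ff t v ≤ 1 := by
  constructor
  · have h := ff_anti ht hv.1 hv.2
    rwa [ff_one ht] at h
  · have h := ff_anti ht le_rfl hv.1
    rwa [ff_zero] at h

theorem ff_pos (ht : Crit t) {v : ℝ} (hv : v ∈ Icc (0 : ℝ) 1) : 0 < ff t v := by
  exact lt_of_lt_of_le (by linarith [ht.lo]) (ff_mem ht hv).1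

theorem cM_max (ht : Crit t) {s : ℝ} (hs : 0 < s) : s * (- Real.log s) ≤ cM t * (1 + s ^ 2) := by
  have h0 : 0 < t := by linarith [ht.lo]
  have h1 := cM_mul ht
  have h2 := cM_mul'' ht
  have h3 : 0 < cM t := by linarith [(cM_bounds ht).1]
  have h4 : - Real.log s ≤ - Real.log t - 1 + t / s := by
    have h5 := Real.log_le_sub_one_of_pos (div_pos h0 hs)
    rw [Real.log_div h0.ne' hs.ne'] at h5
    linarith
  have h6 : s * (- Real.log s) ≤ s * (- Real.log t - 1 + t / s) :=
    mul_le_mul_of_nonneg_left h4 hs.le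
  have h7 : s * (- Real.log t - 1 + t / s) = s * (2 * cM t * t) + t := by
    rw [h2]
    field_simp
  rw [h7] at h6
  nlinarith [mul_nonneg h3.le (sq_nonneg (s - t))]

end Pool.Agent.Work.MP_95d40a_an.R2
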