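import Pool.Agent.Work.MP_95d40a_an.R2.Defs

set_option autoImplicit false

/-!
# Osc: oscillating sums are bounded by the variation

`dsum_osc`: let `e_m = exp(i k m / n)`, `k = fr l`, `l < n`.  For all `m`, `|∑_{i<m} e_i| = |1 - e_m| / |1 - e_1| ≤
2 / (2 sin (k / (2 n))) ≤ 2 n / (2 l + 1)`, since `k / (2 n) = (2l+1) π / (4 n) ∈ [0, π/2]` and `sin x ≥ 2 x / π`
(`Real.mul_le_sin`).  The same bound holds for the real and imaginary parts.  Abel summation
(`Finset.sum_range_by_parts` or induction): if `|∑_{i<m} c_i| ≤ P` for all `m` then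
`|∑_{i<n} a_i c_i| ≤ P (|a_{n-1}| + ∑_{i<n-1} |a_i - a_{i+1}|)`.  With `a_i = g (i/n)` and variation bound `B`,
`|dsum (g cos) n| ≤ (1/n) (2n/(2l+1)) B`.  (In the statement `g i = a_i` is indexed up to `n` so that no subtraction
occurs: `|a_n| + ∑_{i<n} |a_i - a_{i+1}| ≤ B`.)
-/

open Filter Topology Set

namespace Pool.Agent.Work.MP_95d40a_an.R2

private lemma Osc_abel (a c : ℕ → ℝ) (P : ℝ) (n : ℕ)
    (hP : ∀ m, |∑ i ∈ Finset.range m, c i| ≤ P) :
    |∑ i ∈ Finset.range n, a i * c i| ≤ P * (|a n| + ∑ i ∈ Finset.range n, |a i - a (i + 1)|) := by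
  have h1 : ∑ i ∈ Finset.range n, a i * c i = a n * (∑ i ∈ Finset.range n, c i) +
      ∑ i ∈ Finset.range n, (a i - a (i + 1)) * (∑ j ∈ Finset.range (i + 1), c j) := by
    induction n with
    | zero => simp
    | succ n ih =>
      rw [Finset.sum_range_succ, ih, Finset.sum_range_succ (fun i => (a i - a (i + 1)) *
        (∑ j ∈ Finset.range (i + 1), c j)), Finset.sum_range_succ c n]
      ring
  rw [h1, mul_add]
  refine (abs_add_le _ _).trans (add_le_add ?_ ?_)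
  · rw [abs_mul, mul_comm]
    exact mul_le_mul_of_nonneg_right (hP n) (abs_nonneg _)
  · rw [Finset.mul_sum]
    refine (Finset.abs_sum_le_sum_abs _ _).trans (Finset.sum_le_sum fun i _ => ?_)
    rw [abs_mul, mul_comm]
    exact mul_le_mul_of_nonneg_right (hP (i + 1)) (abs_nonneg _)

private lemma Osc_cos (θ : ℝ) (m : ℕ) :
    2 * Real.sin (θ / 2) * ∑ i ∈ Finset.range m, Real.cos (θ * i) =
      Real.sin ((m - 1 / 2) * θ) + Real.sin (θ / 2) := by
  induction m with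
  | zero =>
    have h : ((0 : ℕ) - 1 / 2 : ℝ) * θ = - (θ / 2) := by push_cast; ring
    rw [h, Real.sin_neg]; simp
  | succ m ih =>
    rw [Finset.sum_range_succ, mul_add, ih]
    have h1 : (((m + 1 : ℕ) : ℝ) - 1 / 2) * θ = θ * m + θ / 2 := by push_cast; ring
    have h2 : ((m : ℝ) - 1 / 2) * θ = θ * m - θ / 2 := by ring
    rw [h1, h2, Real.sin_add, Real.sin_sub]
    ring

private lemma Osc_sin (θ : ℝ) (m : ℕ) :
    2 * Real.sin (θ / 2) * ∑ i ∈ Finset.range m, Real.sin (θ * i) =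
      Real.cos (θ / 2) - Real.cos ((m - 1 / 2) * θ) := by
  induction m with
  | zero =>
    have h : ((0 : ℕ) - 1 / 2 : ℝ) * θ = - (θ / 2) := by push_cast; ring
    rw [h, Real.cos_neg]; simp
  | succ m ih =>
    rw [Finset.sum_range_succ, mul_add, ih]
    have h1 : (((m + 1 : ℕ) : ℝ) - 1 / 2) * θ = θ * m + θ / 2 := by push_cast; ring
    have h2 : ((m : ℝ) - 1 / 2) * θ = θ * m - θ / 2 := by ring
    rw [h1, h2, Real.cos_add, Real.cos_sub]
    ring

private lemma Osc_bound {n l : ℕ} (hl : l < n) {s : ℝ}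
    (hs : |2 * Real.sin (fr l / n / 2) * s| ≤ 2) : |s| ≤ 2 * n / (2 * l + 1) := by
  have hn : (0 : ℝ) < n := by exact_mod_cast (Nat.zero_le l).trans_lt hl
  have hl' : (l : ℝ) + 1 ≤ n := by exact_mod_cast hl
  have hl0 : (0 : ℝ) ≤ l := Nat.cast_nonneg l
  have hx : fr l / n / 2 = Real.pi / 2 * ((2 * l + 1) / (2 * n)) := by
    unfold fr; field_simp
  have h0 : 0 ≤ fr l / n / 2 := by
    rw [hx]; exact mul_nonneg (by positivity) (by positivity)
  have h1 : fr l / n / 2 ≤ Real.pi / 2 := by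
    rw [hx]
    have : (2 * (l : ℝ) + 1) / (2 * n) ≤ 1 := by
      rw [div_le_one (by positivity)]; linarith
    have hpi := Real.pi_pos
    nlinarith
  have h2 := Real.mul_le_sin h0 h1
  have h3 : (2 * (l : ℝ) + 1) / (2 * n) ≤ Real.sin (fr l / n / 2) := by
    refine le_trans (le_of_eq ?_) h2
    rw [hx]; field_simp
  have h4 : (0 : ℝ) < (2 * l + 1) / (2 * n) := by positivity
  rw [abs_mul, abs_of_pos (by linarith : (0 : ℝ) < 2 * Real.sin (fr l / n / 2))] at hs
  have h5 : (2 * (l : ℝ) + 1) / n * |s| ≤ 2 := by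
    refine le_trans (mul_le_mul_of_nonneg_right ?_ (abs_nonneg s)) hs
    calc (2 * (l : ℝ) + 1) / n = 2 * ((2 * l + 1) / (2 * n)) := by field_simp
      _ ≤ 2 * Real.sin (fr l / n / 2) := by linarith
  rw [le_div_iff₀ (by positivity)]
  have h6 := mul_le_mul_of_nonneg_left h5 hn.le
  have h7 : (n : ℝ) * ((2 * l + 1) / n * |s|) = |s| * (2 * l + 1) := by field_simp
  linarith

private lemma Osc_final {g c : ℝ → ℝ} {n l : ℕ} (hl : l < n) {B : ℝ}
    (hB : |g 1| + ∑ i ∈ Finset.range n, |g ((i : ℝ) / n) - g (((i : ℝ) + 1) / n)| ≤ B)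
    (hc : ∀ m : ℕ, |∑ i ∈ Finset.range m, c ((i : ℝ) / n)| ≤ 2 * n / (2 * l + 1)) :
    |dsum (fun v => g v * c v) n| ≤ 2 * B / (2 * l + 1) := by
  have hn : (0 : ℝ) < n := by exact_mod_cast (Nat.zero_le l).trans_lt hl
  have h1 := Osc_abel (fun i => g ((i : ℝ) / n)) (fun i => c ((i : ℝ) / n)) _ n hc
  unfold dsum
  rw [abs_div, abs_of_pos hn, div_le_iff₀ hn]
  have h2 : g ((n : ℝ) / n) = g 1 := by rw [div_self hn.ne']
  rw [h2] at h1
  push_cast at h1
  refine h1.trans ?_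
  have h3 : (0 : ℝ) ≤ 2 * n / (2 * l + 1) := by positivity
  refine (mul_le_mul_of_nonneg_left hB h3).trans (le_of_eq ?_)
  field_simp

theorem dsum_osc_cos {g : ℝ → ℝ} {n l : ℕ} (hl : l < n) {B : ℝ}
    (hB : |g 1| + ∑ i ∈ Finset.range n, |g ((i : ℝ) / n) - g (((i : ℝ) + 1) / n)| ≤ B) :
    |dsum (fun v => g v * Real.cos (fr l * v)) n| ≤ 2 * B / (2 * l + 1) := by
  refine Osc_final (c := fun v => Real.cos (fr l * v)) hl hB fun m => Osc_bound hl ?_
  have h1 := Osc_cos (fr l / n) m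
  have h2 : ∀ i : ℕ, fr l * ((i : ℝ) / n) = fr l / n * i := fun i => by ring
  simp only [h2]
  rw [h1]
  refine (abs_add_le _ _).trans ?_
  linarith [Real.abs_sin_le_one ((m - 1 / 2) * (fr l / n)), Real.abs_sin_le_one (fr l / n / 2)]

theorem dsum_osc_sin {g : ℝ → ℝ} {n l : ℕ} (hl : l < n) {B : ℝ}
    (hB : |g 1| + ∑ i ∈ Finset.range n, |g ((i : ℝ) / n) - g (((i : ℝ) + 1) / n)| ≤ B) :
    |dsum (fun v => g v * Real.sin (fr l * v)) n| ≤ 2 * B / (2 * l + 1) := by
  refine Osc_final (c := fun v => Real.sin (fr l * v)) hl hB fun m => Osc_bound hl ?_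
  have h1 := Osc_sin (fr l / n) m
  have h2 : ∀ i : ℕ, fr l * ((i : ℝ) / n) = fr l / n * i := fun i => by ring
  simp only [h2]
  rw [h1]
  refine (abs_sub _ _).trans ?_
  linarith [Real.abs_cos_le_one ((m - 1 / 2) * (fr l / n)), Real.abs_cos_le_one (fr l / n / 2)]

end Pool.Agent.Work.MP_95d40a_an.R2
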