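import Pool.Agent.Work.MP_95d40a_an.R2.Num

set_option autoImplicit false

/-!
# PartsD: derivatives of `hh` and the value `∫ SS = qq - q0`

`mm' = 2 cd`, `ff' = - mm`.  `hh' = - mm (1 + log ff) = h1`, `h1' = h2`, `h2' = h3` where `ff > 0` (on `[0,1]`).
`SS_eq`: `SS = t h3(v) + cm h2(v) - 2 cd h1(v) + h3(w) + cb h2(w) - 2 cd h1(w) - 8 cM cd² v`, `w = 1 - v`: use
`cm h2(v) - 2 cd h1(v) = - 2 cd (1 + log f(v)) (cm - mm v) + cm mm(v)²/f(v)` with `cm - mm v = 2 cd (1 - v)` (`cm_eq`) and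
`cb h2(w) - 2 cd h1(w) = - 2 cd (1 + log f(w)) (cb - mm w) + cb mm(w)²/f(w)` with `cb - mm w = - 2 cd w`, `w = 1 - v`.
`integral_SS`: fundamental theorem (`intervalIntegral.integral_eq_sub_of_hasDerivAt`, all functions continuous on `[0,1]`),
`∫ g(1-v) = ∫ g` (`intervalIntegral.integral_comp_sub_left`); values at `0` and `1`:
`ff 0 = 1`, `ff 1 = t`, `mm 0 = cb`, `mm 1 = cm`, `hh 0 = 0`, `hh 1 = t log t`, `h1 0 = - cb`, `h1 1 = - cm (1 + log t)`,
`h2 0 = - 2 cd + cb²`, `h2 1 = - 2 cd (1 + log t) + cm² / t`.  Then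
`∫ SS = (t+1)(h2 1 - h2 0) + (cm+cb)(h1 1 - h1 0) - 4 cd (hh 1 - hh 0) - 4 cM cd²` and
`q0 + ∫ SS = qq` by algebra (`cb = t cm`, `cm² = cb² + 4 cd (1 - t)`, `cm - cb = 2 cd`, `cM (1 + t²) = - t log t`,
`cM (1 - t²) = t`; numerically `q0 = -3.79598`, `∫ SS = 7.12348`, `qq = 3.32750`; everything is a rational function of `t`
and `log t`).
-/

open Set

namespace Pool.Agent.Work.MP_95d40a_an.R2

variable {t : ℝ}

/-- the constant term -/
noncomputable def q0 (t : ℝ) : ℝ :=
  2 * cM t * (4 * cd t * t + cm t ^ 2) + t * h2 t 0 + cm t * h1 t 0 - h2 t 1 - cb t * h1 t 1 + 2 * cd t * hh t 1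

theorem hasDerivAt_ff (t v : ℝ) : HasDerivAt (ff t) (- mm t v) v := by
  have h1 : HasDerivAt (fun v : ℝ => 1 - cb t * v - cd t * v ^ 2) (- mm t v) v := by
    have h2 := (((hasDerivAt_id v).const_mul (cb t)).const_sub 1).sub
      ((hasDerivAt_pow 2 v).const_mul (cd t))
    refine h2.congr_deriv ?_
    simp only [mm]
    push_cast
    ring
  exact h1

private theorem hasDerivAt_mm (t v : ℝ) : HasDerivAt (mm t) (2 * cd t) v := by
  have h1 : HasDerivAt (fun v : ℝ => cb t + 2 * cd t * v) (2 * cd t) v := by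
    have h2 := ((hasDerivAt_id v).const_mul (2 * cd t)).const_add (cb t)
    refine h2.congr_deriv ?_
    ring
  exact h1

private theorem hasDerivAt_lf (ht : Crit t) {v : ℝ} (hv : v ∈ Icc (0 : ℝ) 1) :
    HasDerivAt (fun v => Real.log (ff t v)) (- mm t v / ff t v) v :=
  (hasDerivAt_ff t v).log (ff_pos ht hv).ne'

theorem hasDerivAt_hh (ht : Crit t) {v : ℝ} (hv : v ∈ Icc (0 : ℝ) 1) : HasDerivAt (hh t) (h1 t v) v := by
  have h0 := (ff_pos ht hv).ne'
  have h2 : HasDerivAt (fun v => ff t v * Real.log (ff t v)) (h1 t v) v := by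
    refine ((hasDerivAt_ff t v).mul (hasDerivAt_lf ht hv)).congr_deriv ?_
    simp only [h1]
    field_simp
    ring
  exact h2

theorem hasDerivAt_h1 (ht : Crit t) {v : ℝ} (hv : v ∈ Icc (0 : ℝ) 1) : HasDerivAt (h1 t) (h2 t v) v := by
  have h0 := (ff_pos ht hv).ne'
  have h3 : HasDerivAt (fun v => - mm t v * (1 + Real.log (ff t v))) (h2 t v) v := by
    refine ((hasDerivAt_mm t v).neg.mul ((hasDerivAt_lf ht hv).const_add 1)).congr_deriv ?_
    simp only [h2, Pi.neg_apply]
    field_simp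
  exact h3

theorem hasDerivAt_h2 (ht : Crit t) {v : ℝ} (hv : v ∈ Icc (0 : ℝ) 1) : HasDerivAt (h2 t) (h3 t v) v := by
  have h0 := (ff_pos ht hv).ne'
  have h4 : HasDerivAt (fun v => -2 * cd t * (1 + Real.log (ff t v)) + mm t v ^ 2 / ff t v) (h3 t v) v := by
    refine ((((hasDerivAt_lf ht hv).const_add 1).const_mul (-2 * cd t)).add
      (((hasDerivAt_mm t v).pow 2).div (hasDerivAt_ff t v) h0)).congr_deriv ?_
    simp only [h3, Pi.pow_apply]
    field_simp
    ring
  exact h4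

private theorem continuous_ff (t : ℝ) : Continuous (ff t) := by
  have : ff t = fun v => 1 - cb t * v - cd t * v ^ 2 := rfl
  rw [this]
  fun_prop

private theorem continuous_mm (t : ℝ) : Continuous (mm t) := by
  have : mm t = fun v => cb t + 2 * cd t * v := rfl
  rw [this]
  fun_prop

private theorem continuousOn_lf (ht : Crit t) : ContinuousOn (fun v => Real.log (ff t v)) (Icc 0 1) :=
  ContinuousOn.log (continuous_ff t).continuousOn fun _ hv => (ff_pos ht hv).ne'

private theorem continuousOn_mf (ht : Crit t) : ContinuousOn (fun v => mm t v ^ 2 / ff t v) (Icc 0 1) :=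
  ((continuous_mm t).pow 2).continuousOn.div (continuous_ff t).continuousOn
    fun _ hv => (ff_pos ht hv).ne'

theorem continuousOn_h3 (ht : Crit t) : ContinuousOn (h3 t) (Icc 0 1) := by
  have h4 : ContinuousOn (fun v => mm t v * (6 * cd t * ff t v + mm t v ^ 2) / ff t v ^ 2) (Icc 0 1) := by
    refine ContinuousOn.div ?_ ((continuous_ff t).pow 2).continuousOn
      fun v hv => (pow_pos (ff_pos ht hv) 2).ne'
    exact ((continuous_mm t).mul (((continuous_ff t).const_mul (6 * cd t)).add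
      ((continuous_mm t).pow 2))).continuousOn
  exact h4

private theorem maps_refl : MapsTo (fun v : ℝ => 1 - v) (Icc 0 1) (Icc 0 1) := by
  intro v hv
  exact ⟨by linarith [hv.2], by linarith [hv.1]⟩

private theorem cont_refl : ContinuousOn (fun v : ℝ => 1 - v) (Icc 0 1) := by fun_prop

theorem continuousOn_SS (ht : Crit t) : ContinuousOn (SS t) (Icc 0 1) := by
  have a1 := continuousOn_h3 ht
  have a2 := continuousOn_mf ht
  have a3 := continuousOn_lf ht
  have b1 : ContinuousOn (fun v => h3 t (1 - v)) (Icc 0 1) := a1.comp cont_refl maps_refl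
  have b2 : ContinuousOn (fun v => mm t (1 - v) ^ 2 / ff t (1 - v)) (Icc 0 1) :=
    a2.comp cont_refl maps_refl
  have b3 : ContinuousOn (fun v => Real.log (ff t (1 - v))) (Icc 0 1) :=
    a3.comp cont_refl maps_refl
  have h4 : ContinuousOn (fun v => t * h3 t v + cm t * (mm t v ^ 2 / ff t v) + h3 t (1 - v) +
      cb t * (mm t (1 - v) ^ 2 / ff t (1 - v)) +
      4 * cd t ^ 2 * (1 - v) * (Real.log (ff t (1 - v)) - Real.log (ff t v)) -
      8 * cM t * cd t ^ 2 * v) (Icc 0 1) := by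
    refine ContinuousOn.sub (ContinuousOn.add (ContinuousOn.add (ContinuousOn.add
      (ContinuousOn.add (continuousOn_const.mul a1) (continuousOn_const.mul a2)) b1)
      (continuousOn_const.mul b2)) (ContinuousOn.mul (by fun_prop) (b3.sub a3))) (by fun_prop)
  exact h4

theorem SS_eq (ht : Crit t) {v : ℝ} (hv : v ∈ Icc (0 : ℝ) 1) :
    SS t v = t * h3 t v + cm t * h2 t v - 2 * cd t * h1 t v + h3 t (1 - v) + cb t * h2 t (1 - v) -
      2 * cd t * h1 t (1 - v) - 8 * cM t * cd t ^ 2 * v := by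
  have e1 := cm_eq ht
  simp only [SS, h2, h1]
  have e2 : mm t v = cm t - 2 * cd t * (1 - v) := by
    rw [mm, e1]
    ring
  have e3 : mm t (1 - v) = cb t + 2 * cd t * (1 - v) := rfl
  have e4 : -2 * cd t * cm t * (1 + Real.log (ff t v)) + 2 * cd t * mm t v * (1 + Real.log (ff t v)) =
      - (4 * cd t ^ 2 * (1 - v)) * (1 + Real.log (ff t v)) := by
    rw [e2]
    ring
  have e5 : -2 * cd t * cb t * (1 + Real.log (ff t (1 - v))) +
      2 * cd t * mm t (1 - v) * (1 + Real.log (ff t (1 - v))) =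
      4 * cd t ^ 2 * (1 - v) * (1 + Real.log (ff t (1 - v))) := by
    rw [e3]
    ring
  linear_combination -e4 - e5

private theorem h_vals (ht : Crit t) : ff t 0 = 1 ∧ ff t 1 = t ∧ mm t 0 = cb t ∧ mm t 1 = cm t ∧
    hh t 0 = 0 ∧ hh t 1 = t * Real.log t ∧ h1 t 0 = - cb t ∧ h1 t 1 = - cm t * (1 + Real.log t) ∧
    h2 t 0 = -2 * cd t + cb t ^ 2 ∧ h2 t 1 = -2 * cd t * (1 + Real.log t) + cm t ^ 2 / t := by
  have a1 := ff_zero t
  have a2 := ff_one ht
  have a3 : mm t 0 = cb t := by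
    rw [mm]
    ring
  have a4 : mm t 1 = cm t := by
    rw [mm, cm_eq ht]
    ring
  refine ⟨a1, a2, a3, a4, ?_, ?_, ?_, ?_, ?_, ?_⟩
  · rw [hh, a1, Real.log_one]
    ring
  · rw [hh, a2]
  · rw [h1, a1, a3, Real.log_one]
    ring
  · rw [h1, a2, a4]
  · rw [h2, a1, a3, Real.log_one]
    ring
  · rw [h2, a2, a4]

/-- the primitive of `SS` -/
private noncomputable def prim (t v : ℝ) : ℝ :=
  t * h2 t v + cm t * h1 t v - 2 * cd t * hh t v - h2 t (1 - v) - cb t * h1 t (1 - v) +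
    2 * cd t * hh t (1 - v) - 4 * cM t * cd t ^ 2 * v ^ 2

private theorem hasDerivAt_prim (ht : Crit t) {v : ℝ} (hv : v ∈ Icc (0 : ℝ) 1) :
    HasDerivAt (prim t) (SS t v) v := by
  have hw := maps_refl hv
  have r : HasDerivAt (fun v : ℝ => 1 - v) (-1) v := (hasDerivAt_id v).const_sub 1
  have c0 : HasDerivAt (fun v => hh t (1 - v)) (h1 t (1 - v) * (-1)) v :=
    HasDerivAt.comp v (hasDerivAt_hh ht hw) r
  have c1 : HasDerivAt (fun v => h1 t (1 - v)) (h2 t (1 - v) * (-1)) v :=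
    HasDerivAt.comp v (hasDerivAt_h1 ht hw) r
  have c2 : HasDerivAt (fun v => h2 t (1 - v)) (h3 t (1 - v) * (-1)) v :=
    HasDerivAt.comp v (hasDerivAt_h2 ht hw) r
  have h4 : HasDerivAt (fun v => t * h2 t v + cm t * h1 t v - 2 * cd t * hh t v - h2 t (1 - v) -
      cb t * h1 t (1 - v) + 2 * cd t * hh t (1 - v) - 4 * cM t * cd t ^ 2 * v ^ 2) (SS t v) v := by
    rw [SS_eq ht hv]
    refine (((((((hasDerivAt_h2 ht hv).const_mul t).add ((hasDerivAt_h1 ht hv).const_mul (cm t))).sub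
      ((hasDerivAt_hh ht hv).const_mul (2 * cd t))).sub c2).sub (c1.const_mul (cb t))).add
      (c0.const_mul (2 * cd t)) |>.sub ((hasDerivAt_pow 2 v).const_mul (4 * cM t * cd t ^ 2))).congr_deriv ?_
    push_cast
    ring
  exact h4

theorem integral_SS (ht : Crit t) : q0 t + ∫ v in (0 : ℝ)..1, SS t v = qq t := by
  have hI : (∫ v in (0 : ℝ)..1, SS t v) = prim t 1 - prim t 0 := by
    refine intervalIntegral.integral_eq_sub_of_hasDerivAt ?_ ?_
    · intro v hv
      rw [uIcc_of_le zero_le_one] at hv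
      exact hasDerivAt_prim ht hv
    · refine ContinuousOn.intervalIntegrable ?_
      rw [uIcc_of_le zero_le_one]
      exact continuousOn_SS ht
  rw [hI]
  obtain ⟨-, -, -, -, v5, v6, v7, v8, v9, v10⟩ := h_vals ht
  have ht0 : 0 < t := by linarith [ht.lo]
  have e1 : cm t - cd t = 1 - t := by
    have h3 : (1 : ℝ) + t ≠ 0 := by linarith
    rw [cm, cd]
    field_simp
    ring
  have e2 := cm_eq ht
  simp only [prim, sub_self, sub_zero]
  rw [q0, qq, v5, v6, v7, v8, v9, v10]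
  have e3 : t * (cm t ^ 2 / t) = cm t ^ 2 := by
    field_simp
  have e4 : cb t = cm t - 2 * cd t := by linarith
  have e5 : cd t = cm t - 1 + t := by linarith
  rw [e4, e5]
  linear_combination e3

end Pool.Agent.Work.MP_95d40a_an.R2
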