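import Pool.Agent.Work.MP_95d40a_an.R2.PartsD

set_option autoImplicit false

/-!
# PartsI: the identity `k⁴ AA = q0 + ∫ SS cos (k v)` for `cos k = 0`, `sin k = c = ± 1`

All integrals over `[0,1]`; `cF = ∫ ff cos kv`, `sF = ∫ ff sin kv`, `cH = ∫ hh cos kv`, `sH = ∫ hh sin kv`.
Integration by parts (`intervalIntegral.integral_mul_deriv_eq_deriv_mul` or the general lemma
`∫ g cos kv = (g(1) c - ∫ g' sin kv)/k`, `∫ g sin kv = (g(0) + ∫ g' cos kv)/k` for `cos k = 0`, `sin k = c`), applied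
three times (`ff''' = 0`, `ff'' = - 2 cd`, `ff'(0) = - cb`, `ff'(1) = - cm`, `ff(0) = 1`, `ff(1) = t`):
* `k³ sF = 2 cd - k c cm + k²`,  `k³ cF = 2 cd c + k cb + k² c t`  (from `ff' = - mm`, `mm' = 2 cd`);
* `k cH = c hh(1) - ∫ h1 sin`,  `k² cH = - h1(0) + k c hh(1) - ∫ h2 cos`,
  `k³ cH = ∫ h3 sin - c h2(1) - k h1(0) + k² c hh(1)`;
* `k sH = ∫ h1 cos` (`hh 0 = 0`),  `k² sH = c h1(1) - ∫ h2 sin`,  `k³ sH = - h2(0) + k c h1(1) - ∫ h3 cos`.
Then `c k⁴ (cH sF - sH cF) = k (cH (c k² - k cm + 2 cd c) - sH (k² t + k c cb + 2 cd))` (`c² = 1`)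
`= [t h2(0) + cm h1(0) - h2(1) - cb h1(1) + 2 cd hh(1)] + k² hh(1) - k c [h1(0) + cm hh(1) + t h1(1)]`
`  + ∫ (t h3 + cm h2 - 2 cd h1) cos + c ∫ (h3 + cb h2 - 2 cd h1) sin`,
and `c ∫ g(v) sin kv = ∫ g(1-v) cos kv` (substitution; `cos k(1-v) = c sin kv`).  Moreover
`h1(0) + cm hh(1) + t h1(1) = - 2 t cm` (`hh(1) = t log t`, `h1(1) = - cm (1 + log t)`, `h1(0) = - cb = - t cm`), and
`k⁶ (cF² + sF²) = (k² - k c cm + 2 cd)² + (k² t + k c cb + 2 cd)²`, so
`k⁴ cM (cF² + sF²) = cM [k² (1 + t²) - 2 k c cm (1 - t²) + 2 cm² + 8 cd t + 4 cd c (cb - cm)/k + 8 cd²/k²]`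
`= - k² hh(1) - 2 t cm k c + 2 cM (cm² + 4 cd t) - 8 cM cd² ∫ v cos kv`
(`cM (1 + t²) = - t log t`, `cM (1 - t²) = t`, `cb² = cm² - 4 cd (1 - t)`, `cb - cm = - 2 cd`, `∫ v cos kv = c/k - 1/k²`).
Adding up gives the identity with `q0` and `SS_eq`.
-/

open Set

namespace Pool.Agent.Work.MP_95d40a_an.R2

variable {t : ℝ}

private theorem ibp_cos {g g' : ℝ → ℝ} (k : ℝ)
    (hg : ∀ v ∈ Icc (0 : ℝ) 1, HasDerivAt g (g' v) v) (hg' : ContinuousOn g' (Icc 0 1)) :
    k * (∫ v in (0 : ℝ)..1, g v * Real.cos (k * v)) =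
      g 1 * Real.sin k - ∫ v in (0 : ℝ)..1, g' v * Real.sin (k * v) := by
  have hI : uIcc (0 : ℝ) 1 = Icc 0 1 := uIcc_of_le zero_le_one
  have hv : ∀ x ∈ uIcc (0 : ℝ) 1, HasDerivAt (fun x : ℝ => Real.sin (k * x))
      (k * Real.cos (k * x)) x := by
    intro x _
    have h1 : HasDerivAt (fun x : ℝ => k * x) k x := by
      simpa using (hasDerivAt_id x).const_mul k
    have h2 := (Real.hasDerivAt_sin (k * x)).comp x h1
    have h3 : Real.cos (k * x) * k = k * Real.cos (k * x) := mul_comm _ _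
    rw [h3] at h2
    exact h2
  have h := intervalIntegral.integral_mul_deriv_eq_deriv_mul (a := 0) (b := 1) (u := g)
    (v := fun x => Real.sin (k * x)) (u' := g') (v' := fun x => k * Real.cos (k * x))
    (by rw [hI]; exact hg) hv
    ((by rw [hI]; exact hg' : ContinuousOn g' (uIcc 0 1)).intervalIntegrable)
    ((by fun_prop : Continuous fun x : ℝ => k * Real.cos (k * x)).intervalIntegrable _ _)
  have h4 : ∫ x in (0 : ℝ)..1, g x * (k * Real.cos (k * x)) =
      k * ∫ x in (0 : ℝ)..1, g x * Real.cos (k * x) := by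
    rw [← intervalIntegral.integral_const_mul]
    congr 1
    funext x
    ring
  rw [h4] at h
  rw [h]
  simp

private theorem ibp_sin {g g' : ℝ → ℝ} (k : ℝ)
    (hg : ∀ v ∈ Icc (0 : ℝ) 1, HasDerivAt g (g' v) v) (hg' : ContinuousOn g' (Icc 0 1)) :
    k * (∫ v in (0 : ℝ)..1, g v * Real.sin (k * v)) =
      g 0 - g 1 * Real.cos k + ∫ v in (0 : ℝ)..1, g' v * Real.cos (k * v) := by
  have hI : uIcc (0 : ℝ) 1 = Icc 0 1 := uIcc_of_le zero_le_one
  have hv : ∀ x ∈ uIcc (0 : ℝ) 1, HasDerivAt (fun x : ℝ => - Real.cos (k * x))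
      (k * Real.sin (k * x)) x := by
    intro x _
    have h1 : HasDerivAt (fun x : ℝ => k * x) k x := by
      simpa using (hasDerivAt_id x).const_mul k
    have h2 := ((Real.hasDerivAt_cos (k * x)).comp x h1).neg
    have h3 : -(-Real.sin (k * x) * k) = k * Real.sin (k * x) := by ring
    rw [h3] at h2
    exact h2
  have h := intervalIntegral.integral_mul_deriv_eq_deriv_mul (a := 0) (b := 1) (u := g)
    (v := fun x => - Real.cos (k * x)) (u' := g') (v' := fun x => k * Real.sin (k * x))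
    (by rw [hI]; exact hg) hv
    ((by rw [hI]; exact hg' : ContinuousOn g' (uIcc 0 1)).intervalIntegrable)
    ((by fun_prop : Continuous fun x : ℝ => k * Real.sin (k * x)).intervalIntegrable _ _)
  have h4 : ∫ x in (0 : ℝ)..1, g x * (k * Real.sin (k * x)) =
      k * ∫ x in (0 : ℝ)..1, g x * Real.sin (k * x) := by
    rw [← intervalIntegral.integral_const_mul]
    congr 1
    funext x
    ring
  have h5 : ∫ x in (0 : ℝ)..1, g' x * (- Real.cos (k * x)) =
      - ∫ x in (0 : ℝ)..1, g' x * Real.cos (k * x) := by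
    rw [← intervalIntegral.integral_neg]
    congr 1
    funext x
    ring
  rw [h4, h5] at h
  rw [h]
  simp only [mul_one, mul_zero, Real.cos_zero]
  ring

private theorem flip {g : ℝ → ℝ} {k c : ℝ} (hcos : Real.cos k = 0) (hsin : Real.sin k = c) :
    ∫ v in (0 : ℝ)..1, g (1 - v) * Real.cos (k * v) =
      c * ∫ v in (0 : ℝ)..1, g v * Real.sin (k * v) := by
  have hc : c * c = 1 := by
    have := Real.sin_sq_add_cos_sq k
    rw [hcos, hsin] at this
    nlinarith
  have h1 : ∀ v : ℝ, Real.sin (k * (1 - v)) = c * Real.cos (k * v) := by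
    intro v
    have : k * (1 - v) = k - k * v := by ring
    rw [this, Real.sin_sub, hcos, hsin]
    ring
  have h2 := intervalIntegral.integral_comp_sub_left (a := (0 : ℝ)) (b := 1)
    (fun v => g v * Real.sin (k * v)) 1
  rw [sub_self, sub_zero] at h2
  rw [← h2, ← intervalIntegral.integral_const_mul]
  congr 1
  funext v
  rw [h1 v]
  linear_combination (- (g (1 - v) * Real.cos (k * v))) * hc

private theorem alg1 {k c t m B D cH sH cF sF S1 C1 S2 C2 S3 C3 hh1 h10 h11 h20 h21 : ℝ}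
    (hc : c = 1 ∨ c = -1)
    (e1 : k * cH = c * hh1 - S1) (e2 : k * S1 = h10 + C2) (e3 : k * C2 = c * h21 - S3)
    (e4 : k * sH = C1) (e5 : k * C1 = c * h11 - S2) (e6 : k * S2 = h20 + C3)
    (f1 : k ^ 3 * sF = 2 * D - k * c * m + k ^ 2)
    (f2 : k ^ 3 * cF = 2 * D * c + k * B + k ^ 2 * c * t) :
    k ^ 4 * (c * (cH * sF - sH * cF)) =
      k ^ 2 * hh1 - k * c * (h10 + m * hh1 + t * h11) +
      (t * h20 + m * h10 - h21 - B * h11 + 2 * D * hh1) +
      (t * C3 + m * C2 - 2 * D * C1 + c * S3 + B * (c * S2) - 2 * D * (c * S1)) := by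
  have g1 : k ^ 4 * (c * (cH * sF - sH * cF)) =
      c * (k * cH * (k ^ 3 * sF) - k * sH * (k ^ 3 * cF)) := by ring
  rw [g1, f1, f2, e1, e4]
  rcases hc with rfl | rfl
  · linear_combination (m - k) * e2 - 1 * e3 - (B + k * t) * e5 + t * e6
  · linear_combination (m + k) * e2 + 1 * e3 + (B - k * t) * e5 + t * e6

private theorem alg2 {k c t m B D M L cF sF hh1 h10 h11 V : ℝ}
    (hk : k ≠ 0) (hc : c = 1 ∨ c = -1)
    (r1 : B = t * m) (r2 : m = B + 2 * D) (r3 : m ^ 2 = B ^ 2 + 4 * D * (1 - t))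
    (r4 : M * (1 - t ^ 2) = t) (r5 : M * (1 + t ^ 2) = t * (- L))
    (a1 : hh1 = t * L) (a2 : h10 = - B) (a3 : h11 = - m * (1 + L))
    (f1 : k ^ 3 * sF = 2 * D - k * c * m + k ^ 2)
    (f2 : k ^ 3 * cF = 2 * D * c + k * B + k ^ 2 * c * t)
    (v1 : k ^ 2 * V = k * c - 1) :
    k ^ 4 * (M * (cF ^ 2 + sF ^ 2)) =
      - (k ^ 2 * hh1) + k * c * (h10 + m * hh1 + t * h11) + 2 * M * (4 * D * t + m ^ 2) -
        8 * M * D ^ 2 * V := by
  have g1 : k ^ 2 * (k ^ 4 * (M * (cF ^ 2 + sF ^ 2))) =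
      M * ((k ^ 3 * cF) ^ 2 + (k ^ 3 * sF) ^ 2) := by ring
  rw [f1, f2] at g1
  have hk2 : k ^ 2 ≠ 0 := pow_ne_zero 2 hk
  apply mul_left_cancel₀ hk2
  rw [g1]
  subst a1 a2 a3
  have r6 : M * (t * B - m) = - (t * m) := by
    rw [r1]; linear_combination (- m) * r4
  have r7 : B - m = - 2 * D := by linarith
  rcases hc with rfl | rfl
  · linear_combination (k ^ 4) * r5 + 2 * k ^ 3 * r6 - M * k ^ 2 * r3 + 4 * M * k * D * r7 + 8 * M * D ^ 2 * v1 + k ^ 3 * r1
  · linear_combination (k ^ 4) * r5 - 2 * k ^ 3 * r6 - M * k ^ 2 * r3 - 4 * M * k * D * r7 + 8 * M * D ^ 2 * v1 - k ^ 3 * r1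

private theorem cont_ii {f : ℝ → ℝ} (k : ℝ) (hf : ContinuousOn f (Icc 0 1)) :
    IntervalIntegrable (fun v => f v * Real.cos (k * v)) MeasureTheory.volume 0 1 := by
  have hI : uIcc (0 : ℝ) 1 = Icc 0 1 := uIcc_of_le zero_le_one
  apply ContinuousOn.intervalIntegrable
  rw [hI]
  exact hf.mul (by fun_prop : Continuous fun v : ℝ => Real.cos (k * v)).continuousOn

private theorem comp_flip {f : ℝ → ℝ} (hf : ContinuousOn f (Icc 0 1)) :
    ContinuousOn (fun v => f (1 - v)) (Icc 0 1) := by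
  refine hf.comp (by fun_prop : Continuous fun v : ℝ => 1 - v).continuousOn ?_
  intro v hv
  exact ⟨by linarith [hv.2], by linarith [hv.1]⟩

theorem AA_identity (ht : Crit t) {k c : ℝ} (hk : 0 < k) (hcos : Real.cos k = 0) (hsin : Real.sin k = c) :
    k ^ 4 * AA t k c = q0 t + ∫ v in (0 : ℝ)..1, SS t v * Real.cos (k * v) := by
  have hc : c = 1 ∨ c = -1 := by
    have := Real.sin_sq_add_cos_sq k
    rw [hcos, hsin] at this
    have h : (c - 1) * (c + 1) = 0 := by nlinarith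
    rcases mul_eq_zero.1 h with h | h
    · left; linarith
    · right; linarith
  have d0 : ∀ v ∈ Icc (0 : ℝ) 1, HasDerivAt (hh t) (h1 t v) v := fun v hv => hasDerivAt_hh ht hv
  have d1 : ∀ v ∈ Icc (0 : ℝ) 1, HasDerivAt (h1 t) (h2 t v) v := fun v hv => hasDerivAt_h1 ht hv
  have d2 : ∀ v ∈ Icc (0 : ℝ) 1, HasDerivAt (h2 t) (h3 t v) v := fun v hv => hasDerivAt_h2 ht hv
  have c1 : ContinuousOn (h1 t) (Icc 0 1) :=
    fun v hv => (d1 v hv).continuousAt.continuousWithinAt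
  have c2 : ContinuousOn (h2 t) (Icc 0 1) :=
    fun v hv => (d2 v hv).continuousAt.continuousWithinAt
  have c3 : ContinuousOn (h3 t) (Icc 0 1) := continuousOn_h3 ht
  have e1 := ibp_cos k d0 c1
  have e2 := ibp_sin k d1 c2
  have e3 := ibp_cos k d2 c3
  have e4 := ibp_sin k d0 c1
  have e5 := ibp_cos k d1 c2
  have e6 := ibp_sin k d2 c3
  rw [hsin] at e1 e3 e5
  rw [hcos, mul_zero, sub_zero] at e2 e4 e6
  have df : ∀ v ∈ Icc (0 : ℝ) 1, HasDerivAt (ff t) ((fun v => - mm t v) v) v :=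
    fun v _ => hasDerivAt_ff t v
  have hmm : ∀ v : ℝ, HasDerivAt (fun v => - mm t v) (-(2 * cd t)) v := by
    intro v
    have h1 : HasDerivAt (fun v : ℝ => cb t + 2 * cd t * v) (2 * cd t) v := by
      have := ((hasDerivAt_id v).const_mul (2 * cd t)).const_add (cb t)
      simpa using this
    exact h1.neg
  have cmm : ContinuousOn (fun v => - mm t v) (Icc 0 1) :=
    fun v _ => (hmm v).continuousAt.continuousWithinAt
  have dm : ∀ v ∈ Icc (0 : ℝ) 1, HasDerivAt (fun v => - mm t v)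
      ((fun _ : ℝ => -(2 * cd t)) v) v := fun v _ => hmm v
  have dc : ∀ (a v : ℝ), v ∈ Icc (0 : ℝ) 1 →
      HasDerivAt (fun _ : ℝ => a) ((fun _ : ℝ => (0 : ℝ)) v) v := fun a v _ => hasDerivAt_const v a
  have p1 := ibp_sin k df cmm
  have p2 := ibp_cos k dm continuousOn_const
  have p3 := ibp_sin k (dc (-(2 * cd t))) continuousOn_const
  have p4 := ibp_cos k df cmm
  have p5 := ibp_sin k dm continuousOn_const
  have p6 := ibp_cos k (dc (-(2 * cd t))) continuousOn_const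
  have dv : ∀ v ∈ Icc (0 : ℝ) 1, HasDerivAt (fun v : ℝ => v) ((fun _ : ℝ => (1 : ℝ)) v) v :=
    fun v _ => hasDerivAt_id v
  have p7 := ibp_cos k dv continuousOn_const
  have p8 := ibp_sin k (dc 1) continuousOn_const
  simp only [hsin, hcos, mul_zero, sub_zero, zero_mul, intervalIntegral.integral_zero, add_zero]
    at p1 p2 p3 p4 p5 p6 p7 p8
  have hff0 : ff t 0 = 1 := ff_zero t
  have hff1 : ff t 1 = t := ff_one ht
  have hm0 : mm t 0 = cb t := by unfold mm; ring
  have hm1 : mm t 1 = cm t := by rw [cm_eq ht]; unfold mm; ring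
  have hhh0 : hh t 0 = 0 := by unfold hh; rw [hff0, Real.log_one, mul_zero]
  have hhh1 : hh t 1 = t * Real.log t := by unfold hh; rw [hff1]
  have hh10 : h1 t 0 = - cb t := by unfold h1; rw [hff0, Real.log_one, hm0]; ring
  have hh11 : h1 t 1 = - cm t * (1 + Real.log t) := by unfold h1; rw [hff1, hm1]
  rw [hhh0, zero_add] at e4
  rw [mul_comm (hh t 1) c] at e1
  rw [mul_comm (h2 t 1) c] at e3
  rw [mul_comm (h1 t 1) c] at e5
  rw [hff0] at p1
  rw [hm1] at p2
  rw [hff1] at p4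
  rw [hm0] at p5
  -- the right-hand integral
  have hR : ∫ v in (0 : ℝ)..1, SS t v * Real.cos (k * v) =
      t * (∫ v in (0 : ℝ)..1, h3 t v * Real.cos (k * v)) +
      cm t * (∫ v in (0 : ℝ)..1, h2 t v * Real.cos (k * v)) +
      (-2 * cd t) * (∫ v in (0 : ℝ)..1, h1 t v * Real.cos (k * v)) +
      (∫ v in (0 : ℝ)..1, h3 t (1 - v) * Real.cos (k * v)) +
      cb t * (∫ v in (0 : ℝ)..1, h2 t (1 - v) * Real.cos (k * v)) +
      (-2 * cd t) * (∫ v in (0 : ℝ)..1, h1 t (1 - v) * Real.cos (k * v)) +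
      (-8 * cM t * cd t ^ 2) * (∫ v in (0 : ℝ)..1, v * Real.cos (k * v)) := by
    have i1 := (cont_ii k c3).const_mul t
    have i2 := (cont_ii k c2).const_mul (cm t)
    have i3 := (cont_ii k c1).const_mul (-2 * cd t)
    have i4 := cont_ii k (comp_flip c3)
    have i5 := (cont_ii k (comp_flip c2)).const_mul (cb t)
    have i6 := (cont_ii k (comp_flip c1)).const_mul (-2 * cd t)
    have i7 := (cont_ii k (f := fun v : ℝ => v) continuousOn_id).const_mul
      (-8 * cM t * cd t ^ 2)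
    have j2 := i1.add i2
    have j3 := j2.add i3
    have j4 := j3.add i4
    have j5 := j4.add i5
    have j6 := j5.add i6
    rw [← intervalIntegral.integral_const_mul, ← intervalIntegral.integral_const_mul,
      ← intervalIntegral.integral_const_mul, ← intervalIntegral.integral_const_mul,
      ← intervalIntegral.integral_const_mul, ← intervalIntegral.integral_const_mul]
    rw [← intervalIntegral.integral_add i1 i2, ← intervalIntegral.integral_add j2 i3,
      ← intervalIntegral.integral_add j3 i4, ← intervalIntegral.integral_add j4 i5,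
      ← intervalIntegral.integral_add j5 i6, ← intervalIntegral.integral_add j6 i7]
    apply intervalIntegral.integral_congr
    intro v hv
    rw [uIcc_of_le zero_le_one] at hv
    simp only [SS_eq ht hv]
    ring
  rw [flip hcos hsin, flip hcos hsin, flip hcos hsin] at hR
  rw [hR]
  unfold AA q0
  have f1 : k ^ 3 * (∫ v in (0 : ℝ)..1, ff t v * Real.sin (k * v)) =
      2 * cd t - k * c * cm t + k ^ 2 := by
    linear_combination k ^ 2 * p1 + k * p2 - p3
  have f2 : k ^ 3 * (∫ v in (0 : ℝ)..1, ff t v * Real.cos (k * v)) =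
      2 * cd t * c + k * cb t + k ^ 2 * c * t := by
    linear_combination k ^ 2 * p4 - k * p5 - p6
  have v1 : k ^ 2 * (∫ v in (0 : ℝ)..1, v * Real.cos (k * v)) = k * c - 1 := by
    linear_combination k * p7 - p8
  have A1 := alg1 (k := k) (c := c) (t := t) (m := cm t) (B := cb t) (D := cd t)
    (hh1 := hh t 1) (h10 := h1 t 0) (h11 := h1 t 1) (h20 := h2 t 0) (h21 := h2 t 1) hc
    e1 e2 e3 e4 e5 e6 f1 f2
  have A2 := alg2 (k := k) (c := c) (t := t) (m := cm t) (B := cb t) (D := cd t) (M := cM t)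
    (L := Real.log t) (hh1 := hh t 1) (h10 := h1 t 0) (h11 := h1 t 1) hk.ne' hc
    (cb_eq t) (cm_eq ht) (cm_sq ht) (cM_mul ht) (cM_mul' ht) hhh1 hh10 hh11 f1 f2 v1
  linear_combination A1 + A2

end Pool.Agent.Work.MP_95d40a_an.R2
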