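import Pool.Agent.Work.MP_95d40a_an.R2.ZetaS

set_option autoImplicit false

/-!
# Zeta: Fourier coefficients of the profile

Use `sum_quad` and `zeta_val` (note `n + i = 1 * n + i`, `i = 0 * n + i` up to `simp`/`ring_nf`).
* `ell (t x) = t (ell x) + t log t x`, `ell (- x) = - ell x` (`x ≠ 0`).
* with `k = 2 l + 1`, `κ = fr l`, `χ = (-1)^l`, `a = dsum` (so `cF = dsum (ff cos κ) n`, ...):
  `co (k (q n + i)) = cos (κ i/n + (2l+1) q π/2)`: `q = 0: cos, q = 1: - χ sin, q = 2: - cos, q = 3: χ sin`,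
  `si (k (q n + i))`: `sin, χ cos, - sin, - χ cos` (of `κ i / n`); (`2 π (2l+1) i / (4 n) = fr l * (i / n)`).
  Hence `avg zeta co = (cF - χ t sF)/2`, `avg zeta si = (sF + χ t cF)/2`,
  `avg ell(zeta) co = (cH - χ t sH - χ t log t sF)/2`, `avg ell(zeta) si = (sH + χ t cH + χ t log t cF)/2`, and
  `rhat zeta ell(zeta) (2l+1) = (1/2) (1 + t²) (cH sF - sH cF) + (1/2) χ (- t log t) (cF² + sF²)
     = (1/2) (1 + t²) χ AN t n (fr l) χ`  (`χ² = 1`, `cM (1 + t²) = - t log t`).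
* `k = 2 l`: the characters take the same values at `j` and `j + 2 n`, `zeta (j + 2n) = - zeta j`: all four averages
  vanish, `rhat = 0`.
* `rho_quarter`: `rho zeta ell(zeta) n = avg (zeta (m+n) ell (zeta m) - zeta m ell (zeta (m+n)))`; for `m` in every
  quadrant, with `f = ff (i/n)`, the expression is `- t log t f²` (quadrants 0, 2: `zeta m = ± f`, `zeta (m+n) = ± t f`;
  quadrants 1, 3: `zeta m = ± t f`, `zeta (m+n) = ∓ f`), and `avg zeta² = (1 + t²)/2 * avg_i f²`, so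
  `rho zeta ell(zeta) n = - t log t avg_i f² = 2 cM avg zeta²`.
-/

open Set

namespace Pool.Agent.Work.MP_95d40a_an.R2

variable {t : ℝ} {n : ℕ} [NeZero (4 * n)]

private theorem cos_fr' (l : ℕ) : Real.cos (fr l) = 0 := by
  have h : fr l = l * Real.pi + Real.pi / 2 := by unfold fr; ring
  rw [h, Real.cos_add_pi_div_two, Real.sin_nat_mul_pi, neg_zero]

private theorem sin_fr' (l : ℕ) : Real.sin (fr l) = (-1) ^ l := by
  have h : fr l = l * Real.pi + Real.pi / 2 := by unfold fr; ring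
  rw [h, Real.sin_add_pi_div_two, Real.cos_nat_mul_pi]

private theorem npos : (0 : ℝ) < n := by
  have h4 : 0 < 4 * n := NeZero.pos (4 * n)
  have hn : 0 < n := by omega
  exact_mod_cast hn

private theorem co_qi (k q i : ℕ) :
    co (((k : ℕ) : ZMod (4 * n)) * ((q * n + i : ℕ) : ZMod (4 * n))) =
      Real.cos (k * Real.pi / 2 * (i / n) + k * Real.pi / 2 * q) := by
  have hn := npos (n := n)
  rw [← Nat.cast_mul, co_nat]
  congr 1
  push_cast
  field_simp
  ring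

private theorem si_qi (k q i : ℕ) :
    si (((k : ℕ) : ZMod (4 * n)) * ((q * n + i : ℕ) : ZMod (4 * n))) =
      Real.sin (k * Real.pi / 2 * (i / n) + k * Real.pi / 2 * q) := by
  have hn := npos (n := n)
  rw [← Nat.cast_mul, si_nat]
  congr 1
  push_cast
  field_simp
  ring

/-- sums over the group, quadrant by quadrant -/
private theorem sum_quad' (F : ZMod (4 * n) → ℝ) : ∑ j, F j = ∑ i ∈ Finset.range n,
    (F ((0 * n + i : ℕ)) + F ((1 * n + i : ℕ)) + F ((2 * n + i : ℕ)) + F ((3 * n + i : ℕ))) := by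
  rw [sum_quad]
  simp only [zero_mul, zero_add, one_mul]

private theorem cq0 (t : ℝ) : cq t 0 = 1 := by simp [cq]
private theorem cq1 (t : ℝ) : cq t 1 = t := by simp [cq]
private theorem cq2 (t : ℝ) : cq t 2 = -1 := by simp [cq]
private theorem cq3 (t : ℝ) : cq t 3 = -t := by simp [cq]

private theorem ell_neg (x : ℝ) : ell (-x) = - ell x := by
  unfold ell; rw [Real.log_neg_eq_log]; ring

private theorem ell_mul {x : ℝ} (ht0 : 0 < t) (hx : 0 < x) :
    ell (t * x) = t * ell x + t * Real.log t * x := by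
  unfold ell; rw [Real.log_mul ht0.ne' hx.ne']; ring

private theorem fpos (ht : Crit t) {i : ℕ} (hi : i < n) : 0 < ff t ((i : ℝ) / n) := by
  have hn := npos (n := n)
  refine ff_pos ht ⟨by positivity, ?_⟩
  rw [div_le_one hn]
  exact_mod_cast hi.le

private theorem tpos (ht : Crit t) : 0 < t := by have := ht.lo; linarith

/-- sum of `zeta * W` -/
private theorem sum_zeta (W : ZMod (4 * n) → ℝ) : ∑ j, zeta t n j * W j =
    ∑ i ∈ Finset.range n, ff t ((i : ℝ) / n) * (W ((0 * n + i : ℕ)) + t * W ((1 * n + i : ℕ)) -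
      W ((2 * n + i : ℕ)) - t * W ((3 * n + i : ℕ))) := by
  rw [sum_quad']
  refine Finset.sum_congr rfl fun i hi => ?_
  have hi' := Finset.mem_range.1 hi
  rw [zeta_val hi' (by norm_num), zeta_val hi' (by norm_num), zeta_val hi' (by norm_num),
    zeta_val hi' (by norm_num), cq0, cq1, cq2, cq3]
  ring

/-- values of `ell ∘ zeta` -/
private theorem ell_zeta_val (ht : Crit t) {i : ℕ} (hi : i < n) :
    ell (zeta t n ((0 * n + i : ℕ))) = hh t ((i : ℝ) / n) ∧
    ell (zeta t n ((1 * n + i : ℕ))) =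
      t * hh t ((i : ℝ) / n) + t * Real.log t * ff t ((i : ℝ) / n) ∧
    ell (zeta t n ((2 * n + i : ℕ))) = - hh t ((i : ℝ) / n) ∧
    ell (zeta t n ((3 * n + i : ℕ))) =
      - (t * hh t ((i : ℝ) / n) + t * Real.log t * ff t ((i : ℝ) / n)) := by
  have hf := fpos ht hi
  have ht0 := tpos ht
  have h0 : ell (ff t ((i : ℝ) / n)) = hh t ((i : ℝ) / n) := rfl
  have h1 := ell_mul ht0 hf
  refine ⟨?_, ?_, ?_, ?_⟩
  · rw [zeta_val hi (by norm_num), cq0, one_mul, h0]
  · rw [zeta_val hi (by norm_num), cq1, h1, h0]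
  · rw [zeta_val hi (by norm_num), cq2, neg_one_mul, ell_neg, h0]
  · rw [zeta_val hi (by norm_num), cq3, neg_mul, ell_neg, h1, h0]

private theorem sum_ell (ht : Crit t) (W : ZMod (4 * n) → ℝ) : ∑ j, ell (zeta t n j) * W j =
    ∑ i ∈ Finset.range n, (hh t ((i : ℝ) / n) * (W ((0 * n + i : ℕ)) - W ((2 * n + i : ℕ))) +
      (t * hh t ((i : ℝ) / n) + t * Real.log t * ff t ((i : ℝ) / n)) *
        (W ((1 * n + i : ℕ)) - W ((3 * n + i : ℕ)))) := by
  rw [sum_quad']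
  refine Finset.sum_congr rfl fun i hi => ?_
  obtain ⟨h0, h1, h2, h3⟩ := ell_zeta_val ht (Finset.mem_range.1 hi)
  rw [h0, h1, h2, h3]
  ring

private theorem odd_vals (l i : ℕ) :
    let x := fr l * ((i : ℝ) / n)
    let χ : ℝ := (-1) ^ l
    co (((2 * l + 1 : ℕ) : ZMod (4 * n)) * ((0 * n + i : ℕ) : ZMod (4 * n))) = Real.cos x ∧
    co (((2 * l + 1 : ℕ) : ZMod (4 * n)) * ((1 * n + i : ℕ) : ZMod (4 * n))) = - χ * Real.sin x ∧
    co (((2 * l + 1 : ℕ) : ZMod (4 * n)) * ((2 * n + i : ℕ) : ZMod (4 * n))) = - Real.cos x ∧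
    co (((2 * l + 1 : ℕ) : ZMod (4 * n)) * ((3 * n + i : ℕ) : ZMod (4 * n))) = χ * Real.sin x ∧
    si (((2 * l + 1 : ℕ) : ZMod (4 * n)) * ((0 * n + i : ℕ) : ZMod (4 * n))) = Real.sin x ∧
    si (((2 * l + 1 : ℕ) : ZMod (4 * n)) * ((1 * n + i : ℕ) : ZMod (4 * n))) = χ * Real.cos x ∧
    si (((2 * l + 1 : ℕ) : ZMod (4 * n)) * ((2 * n + i : ℕ) : ZMod (4 * n))) = - Real.sin x ∧
    si (((2 * l + 1 : ℕ) : ZMod (4 * n)) * ((3 * n + i : ℕ) : ZMod (4 * n))) = - χ * Real.cos x := by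
  intro x χ
  have hχ : χ * χ = 1 := by
    simp only [χ]
    rw [← mul_pow]; norm_num
  have hfr : ((2 * l + 1 : ℕ) : ℝ) * Real.pi / 2 = fr l := by unfold fr; push_cast; ring
  have hc := cos_fr' l
  have hs : Real.sin (fr l) = χ := sin_fr' l
  have c2 : Real.cos (fr l * ((2 : ℕ) : ℝ)) = -1 := by
    rw [mul_comm]; push_cast; rw [Real.cos_two_mul, hc]; ring
  have s2 : Real.sin (fr l * ((2 : ℕ) : ℝ)) = 0 := by
    rw [mul_comm]; push_cast; rw [Real.sin_two_mul, hc]; ring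
  have c3 : Real.cos (fr l * ((3 : ℕ) : ℝ)) = 0 := by
    rw [mul_comm]; push_cast; rw [Real.cos_three_mul, hc]; ring
  have s3 : Real.sin (fr l * ((3 : ℕ) : ℝ)) = -χ := by
    rw [mul_comm]; push_cast; rw [Real.sin_three_mul, hs]
    linear_combination (-4 * χ) * hχ
  have c1 : Real.cos (fr l * ((1 : ℕ) : ℝ)) = 0 := by push_cast; rw [mul_one, hc]
  have s1 : Real.sin (fr l * ((1 : ℕ) : ℝ)) = χ := by push_cast; rw [mul_one, hs]
  simp only [co_qi, si_qi, hfr]
  refine ⟨?_, ?_, ?_, ?_, ?_, ?_, ?_, ?_⟩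
  · simp [x]
  · rw [Real.cos_add, c1, s1]; ring
  · rw [Real.cos_add, c2, s2]; ring
  · rw [Real.cos_add, c3, s3]; ring
  · simp [x]
  · rw [Real.sin_add, c1, s1]; ring
  · rw [Real.sin_add, c2, s2]; ring
  · rw [Real.sin_add, c3, s3]; ring

theorem rhat_odd (ht : Crit t) (l : ℕ) :
    rhat (zeta t n) (fun j => ell (zeta t n j)) ((2 * l + 1 : ℕ) : ZMod (4 * n)) =
      1 / 2 * (1 + t ^ 2) * ((-1) ^ l * AN t n (fr l) ((-1) ^ l)) := by
  have hn := npos (n := n)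
  have hχ : ((-1 : ℝ) ^ l) * (-1) ^ l = 1 := by rw [← mul_pow]; norm_num
  set χ : ℝ := (-1) ^ l with hχd
  set k : ZMod (4 * n) := ((2 * l + 1 : ℕ) : ZMod (4 * n)) with hk
  set cF := ∑ i ∈ Finset.range n, ff t ((i : ℝ) / n) * Real.cos (fr l * ((i : ℝ) / n)) with hcF
  set sF := ∑ i ∈ Finset.range n, ff t ((i : ℝ) / n) * Real.sin (fr l * ((i : ℝ) / n)) with hsF
  set cH := ∑ i ∈ Finset.range n, hh t ((i : ℝ) / n) * Real.cos (fr l * ((i : ℝ) / n)) with hcH
  set sH := ∑ i ∈ Finset.range n, hh t ((i : ℝ) / n) * Real.sin (fr l * ((i : ℝ) / n)) with hsH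
  have z_co : ∑ j, zeta t n j * co (k * j) = 2 * (cF - χ * t * sF) := by
    rw [sum_zeta, hcF, hsF, Finset.mul_sum, ← Finset.sum_sub_distrib, Finset.mul_sum]
    refine Finset.sum_congr rfl fun i _ => ?_
    obtain ⟨h0, h1, h2, h3, g0, g1, g2, g3⟩ := odd_vals (n := n) l i
    rw [h0, h1, h2, h3]
    ring
  have z_si : ∑ j, zeta t n j * si (k * j) = 2 * (sF + χ * t * cF) := by
    rw [sum_zeta, hcF, hsF, Finset.mul_sum, ← Finset.sum_add_distrib, Finset.mul_sum]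
    refine Finset.sum_congr rfl fun i _ => ?_
    obtain ⟨h0, h1, h2, h3, g0, g1, g2, g3⟩ := odd_vals (n := n) l i
    rw [g0, g1, g2, g3]
    ring
  have e_co : ∑ j, ell (zeta t n j) * co (k * j) =
      2 * (cH - χ * (t * sH + t * Real.log t * sF)) := by
    have : cH - χ * (t * sH + t * Real.log t * sF) =
        ∑ i ∈ Finset.range n, (hh t ((i : ℝ) / n) * Real.cos (fr l * ((i : ℝ) / n)) -
          χ * (t * (hh t ((i : ℝ) / n) * Real.sin (fr l * ((i : ℝ) / n))) +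
            t * Real.log t * (ff t ((i : ℝ) / n) * Real.sin (fr l * ((i : ℝ) / n))))) := by
      rw [Finset.sum_sub_distrib, ← Finset.mul_sum, Finset.sum_add_distrib, ← Finset.mul_sum,
        ← Finset.mul_sum]
    rw [sum_ell ht, this, Finset.mul_sum]
    refine Finset.sum_congr rfl fun i _ => ?_
    obtain ⟨h0, h1, h2, h3, g0, g1, g2, g3⟩ := odd_vals (n := n) l i
    rw [h0, h1, h2, h3]
    ring
  have e_si : ∑ j, ell (zeta t n j) * si (k * j) =
      2 * (sH + χ * (t * cH + t * Real.log t * cF)) := by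
    have : sH + χ * (t * cH + t * Real.log t * cF) =
        ∑ i ∈ Finset.range n, (hh t ((i : ℝ) / n) * Real.sin (fr l * ((i : ℝ) / n)) +
          χ * (t * (hh t ((i : ℝ) / n) * Real.cos (fr l * ((i : ℝ) / n))) +
            t * Real.log t * (ff t ((i : ℝ) / n) * Real.cos (fr l * ((i : ℝ) / n))))) := by
      rw [Finset.sum_add_distrib, ← Finset.mul_sum, Finset.sum_add_distrib, ← Finset.mul_sum,
        ← Finset.mul_sum]
    rw [sum_ell ht, this, Finset.mul_sum]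
    refine Finset.sum_congr rfl fun i _ => ?_
    obtain ⟨h0, h1, h2, h3, g0, g1, g2, g3⟩ := odd_vals (n := n) l i
    rw [g0, g1, g2, g3]
    ring
  have hM := cM_mul' ht
  unfold rhat avg AN dsum
  rw [z_co, z_si, e_co, e_si, ← hcF, ← hsF, ← hcH, ← hsH]
  push_cast
  have hn' : (n : ℝ) ≠ 0 := hn.ne'
  field_simp
  linear_combination (-16 * χ * (cF ^ 2 + sF ^ 2)) * hM - 16 * (sF * cH - cF * sH) * hχ

private theorem even_vals (l i : ℕ) :
    co (((2 * l : ℕ) : ZMod (4 * n)) * ((2 * n + i : ℕ) : ZMod (4 * n))) =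
      co (((2 * l : ℕ) : ZMod (4 * n)) * ((0 * n + i : ℕ) : ZMod (4 * n))) ∧
    co (((2 * l : ℕ) : ZMod (4 * n)) * ((3 * n + i : ℕ) : ZMod (4 * n))) =
      co (((2 * l : ℕ) : ZMod (4 * n)) * ((1 * n + i : ℕ) : ZMod (4 * n))) ∧
    si (((2 * l : ℕ) : ZMod (4 * n)) * ((2 * n + i : ℕ) : ZMod (4 * n))) =
      si (((2 * l : ℕ) : ZMod (4 * n)) * ((0 * n + i : ℕ) : ZMod (4 * n))) ∧
    si (((2 * l : ℕ) : ZMod (4 * n)) * ((3 * n + i : ℕ) : ZMod (4 * n))) =
      si (((2 * l : ℕ) : ZMod (4 * n)) * ((1 * n + i : ℕ) : ZMod (4 * n))) := by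
  have h2 : ((2 * l : ℕ) : ZMod (4 * n)) * ((2 * n + i : ℕ) : ZMod (4 * n)) =
      ((2 * l : ℕ) : ZMod (4 * n)) * ((0 * n + i : ℕ) : ZMod (4 * n)) := by
    have h : ((4 * n : ℕ) : ZMod (4 * n)) = 0 := ZMod.natCast_self _
    push_cast at h ⊢
    linear_combination (l : ZMod (4 * n)) * h
  have h3 : ((2 * l : ℕ) : ZMod (4 * n)) * ((3 * n + i : ℕ) : ZMod (4 * n)) =
      ((2 * l : ℕ) : ZMod (4 * n)) * ((1 * n + i : ℕ) : ZMod (4 * n)) := by
    have h : ((4 * n : ℕ) : ZMod (4 * n)) = 0 := ZMod.natCast_self _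
    push_cast at h ⊢
    linear_combination (l : ZMod (4 * n)) * h
  rw [h2, h3]
  exact ⟨rfl, rfl, rfl, rfl⟩

theorem rhat_even (ht : Crit t) (l : ℕ) :
    rhat (zeta t n) (fun j => ell (zeta t n j)) ((2 * l : ℕ) : ZMod (4 * n)) = 0 := by
  have z_co : ∑ j, zeta t n j * co (((2 * l : ℕ) : ZMod (4 * n)) * j) = 0 := by
    rw [sum_zeta]
    refine Finset.sum_eq_zero fun i _ => ?_
    obtain ⟨h0, h1, -, -⟩ := even_vals (n := n) l i
    rw [h0, h1]
    ring
  have z_si : ∑ j, zeta t n j * si (((2 * l : ℕ) : ZMod (4 * n)) * j) = 0 := by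
    rw [sum_zeta]
    refine Finset.sum_eq_zero fun i _ => ?_
    obtain ⟨-, -, h0, h1⟩ := even_vals (n := n) l i
    rw [h0, h1]
    ring
  unfold rhat avg
  rw [z_co, z_si]
  ring

theorem rho_quarter (ht : Crit t) :
    rho (zeta t n) (fun j => ell (zeta t n j)) ((n : ℕ) : ZMod (4 * n)) =
      2 * cM t * avg (fun j => zeta t n j ^ 2) := by
  have hn := npos (n := n)
  have hM := cM_mul' ht
  have e1 : ∑ m : ZMod (4 * n), (zeta t n (m + ((n : ℕ) : ZMod (4 * n))) * ell (zeta t n m) -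
      zeta t n m * ell (zeta t n (m + ((n : ℕ) : ZMod (4 * n))))) =
      4 * (t * (- Real.log t)) * ∑ i ∈ Finset.range n, ff t ((i : ℝ) / n) ^ 2 := by
    rw [sum_quad', Finset.mul_sum]
    refine Finset.sum_congr rfl fun i hi => ?_
    have hi' := Finset.mem_range.1 hi
    obtain ⟨h0, h1, h2, h3⟩ := ell_zeta_val ht hi'
    have s0 : ((0 * n + i : ℕ) : ZMod (4 * n)) + ((n : ℕ) : ZMod (4 * n)) = ((1 * n + i : ℕ) : ZMod (4 * n)) := by
      push_cast; ring
    have s1 : ((1 * n + i : ℕ) : ZMod (4 * n)) + ((n : ℕ) : ZMod (4 * n)) = ((2 * n + i : ℕ) : ZMod (4 * n)) := by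
      push_cast; ring
    have s2 : ((2 * n + i : ℕ) : ZMod (4 * n)) + ((n : ℕ) : ZMod (4 * n)) = ((3 * n + i : ℕ) : ZMod (4 * n)) := by
      push_cast; ring
    have s3 : ((3 * n + i : ℕ) : ZMod (4 * n)) + ((n : ℕ) : ZMod (4 * n)) = ((0 * n + i : ℕ) : ZMod (4 * n)) := by
      have h : ((4 * n : ℕ) : ZMod (4 * n)) = 0 := ZMod.natCast_self _
      push_cast at h ⊢
      linear_combination h
    rw [s0, s1, s2, s3, h0, h1, h2, h3, zeta_val hi' (by norm_num), zeta_val hi' (by norm_num),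
      zeta_val hi' (by norm_num), zeta_val hi' (by norm_num), cq0, cq1, cq2, cq3]
    ring
  have e2 : ∑ m : ZMod (4 * n), zeta t n m ^ 2 =
      2 * (1 + t ^ 2) * ∑ i ∈ Finset.range n, ff t ((i : ℝ) / n) ^ 2 := by
    rw [sum_quad', Finset.mul_sum]
    refine Finset.sum_congr rfl fun i hi => ?_
    have hi' := Finset.mem_range.1 hi
    rw [zeta_val hi' (by norm_num), zeta_val hi' (by norm_num),
      zeta_val hi' (by norm_num), zeta_val hi' (by norm_num), cq0, cq1, cq2, cq3]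
    ring
  unfold rho avg
  rw [e1, e2]
  rw [mul_div_assoc', div_left_inj' (by push_cast; positivity)]
  linear_combination (-4 * ∑ i ∈ Finset.range n, ff t ((i : ℝ) / n) ^ 2) * hM

end Pool.Agent.Work.MP_95d40a_an.R2
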