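import Pool.Agent.Work.MP_95d40a_an.R2.Small
import Pool.Agent.Work.MP_95d40a_an.R2.Zeta

set_option autoImplicit false

/-!
# Profile: the finite dimensional inequality

`fold`: for `F : ZMod (4n) → ℝ` with `F (-k) = F k` and `F (2l) = 0` for all `l`: `∑ F = 2 ∑_{l<n} F (2l+1)`:
`∑_{k : ZMod (4n)} F k = ∑_{k<4n} F k = ∑_{l<2n} F (2l+1)`, and `l ↦ 2n-1-l` maps `2l+1` to `4n-(2l+1) = -(2l+1)`
(`Finset.sum_range_reflect` / `Finset.sum_range_add`).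

`profile`: put `n ≥ n0, 1` from `AN_small` with `ε / 4`, `z = zeta t n`, `r_l = rhat z ell(z) (2l+1)`,
`χ_l = (-1)^l`.  `k ↦ rhat k * V k` is even and vanishes at even `k`, so `∑_k rhat_k V_k = 2 ∑_{l<n} r_l V(2l+1)`;
with `V k = si (k n)` (`si ((2l+1) n) = (-1)^l`) and `rho_eq`: `rho z ell(z) n = 2 ∑_{l<n} r_l χ_l`.
As `|V| ≤ 1`: `r_l V(2l+1) ≥ - |r_l| = χ_l r_l - 2 max (χ_l r_l) 0`, and
`χ_l r_l = (1/2)(1+t²) AN t n (fr l) χ_l`, `(1/2)(1+t²) ≤ 1`, so `max (χ_l r_l) 0 ≤ max (AN ..) 0`.  For `l = 0`: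
`r_0 V(1) = r_0 - r_0 (1 - V 1) ≥ r_0 - 2 (1 - V 1)`, since `|r_0| ≤ 4 sup |ell z| ≤ 4 * (1/2) = 2`
(`|x log x| ≤ 1/2` for `|x| ≤ 1`: `- log y ≤ ... ` e.g. `y (- log y) ≤ 1/e`; use `Real.add_one_le_exp` or
`Real.abs_log_mul_self_lt`; any bound `≤ 1/2`).  Total:
`∑_k rhat_k V_k ≥ 2 ∑_{l<n} χ_l r_l - 4 (1 - V 1) - 4 ∑_{1≤l<n} max (AN) 0 ≥ rho z ell(z) n - 4 (1 - V 1) - ε`, and
`rho z ell(z) n = 2 cM avg z²`.
-/

open Set

namespace Pool.Agent.Work.MP_95d40a_an.R2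

private lemma sum_two (g : ℕ → ℝ) (m : ℕ) :
    ∑ i ∈ Finset.range (2 * m), g i = ∑ l ∈ Finset.range m, (g (2 * l) + g (2 * l + 1)) := by
  induction m with
  | zero => simp
  | succ m ih =>
    rw [Finset.sum_range_succ, ← ih, show 2 * (m + 1) = 2 * m + 1 + 1 by ring,
      Finset.sum_range_succ, Finset.sum_range_succ]
    ring

private lemma sum_zmod {m : ℕ} [NeZero m] (F : ZMod m → ℝ) :
    ∑ k, F k = ∑ i ∈ Finset.range m, F (i : ZMod m) := by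
  refine Finset.sum_nbij' (fun k => k.val) (fun i => (i : ZMod m)) ?_ ?_ ?_ ?_ ?_
  · intro k _; exact Finset.mem_range.2 (ZMod.val_lt k)
  · intro i _; exact Finset.mem_univ _
  · intro k _; exact ZMod.natCast_zmod_val k
  · intro i hi; exact ZMod.val_natCast_of_lt (Finset.mem_range.1 hi)
  · intro k _; rw [ZMod.natCast_zmod_val]

theorem fold {n : ℕ} [NeZero (4 * n)] (F : ZMod (4 * n) → ℝ) (hF : ∀ k, F (-k) = F k)
    (he : ∀ l : ℕ, F ((2 * l : ℕ) : ZMod (4 * n)) = 0) :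
    ∑ k, F k = 2 * ∑ l ∈ Finset.range n, F ((2 * l + 1 : ℕ) : ZMod (4 * n)) := by
  have h0 : ∑ i ∈ Finset.range (4 * n), F (i : ZMod (4 * n)) =
      ∑ i ∈ Finset.range (2 * (n + n)), F (i : ZMod (4 * n)) :=
    Finset.sum_congr (by congr 1; ring) fun _ _ => rfl
  rw [sum_zmod, h0, sum_two (fun i => F (i : ZMod (4 * n)))]
  have h1 : ∑ l ∈ Finset.range (n + n), (F ((2 * l : ℕ) : ZMod (4 * n)) +
      F ((2 * l + 1 : ℕ) : ZMod (4 * n))) =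
      ∑ l ∈ Finset.range (n + n), F ((2 * l + 1 : ℕ) : ZMod (4 * n)) :=
    Finset.sum_congr rfl fun l _ => by rw [he, zero_add]
  rw [h1, Finset.sum_range_add]
  have h2 : ∑ x ∈ Finset.range n, F ((2 * (n + x) + 1 : ℕ) : ZMod (4 * n)) =
      ∑ l ∈ Finset.range n, F ((2 * l + 1 : ℕ) : ZMod (4 * n)) := by
    rw [← Finset.sum_range_reflect]
    refine Finset.sum_congr rfl fun x hx => ?_
    have hx' := Finset.mem_range.1 hx
    rw [← hF ((2 * x + 1 : ℕ) : ZMod (4 * n))]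
    congr 1
    rw [eq_neg_iff_add_eq_zero, ← Nat.cast_add,
      show 2 * (n + (n - 1 - x)) + 1 + (2 * x + 1) = 4 * n by omega]
    exact ZMod.natCast_self (4 * n)
  rw [h2]
  ring

private lemma ell_bound {x : ℝ} (h0 : 0 < |x|) (h1 : |x| ≤ 1) : |ell x| ≤ 1 / 2 := by
  unfold ell
  rw [← Real.log_abs x, abs_mul, abs_of_nonpos (Real.log_nonpos h0.le h1)]
  obtain ⟨y, hy⟩ : ∃ y, y = |x| := ⟨_, rfl⟩
  rw [← hy] at h0 h1 ⊢
  have hs : 0 < Real.sqrt y := Real.sqrt_pos.2 h0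
  have hss : Real.sqrt y * Real.sqrt y = y := Real.mul_self_sqrt h0.le
  have hlog : Real.log y = 2 * Real.log (Real.sqrt y) := by
    rw [Real.log_sqrt h0.le]; ring
  have h2 := Real.one_sub_inv_le_log_of_pos hs
  have h3 : y * (Real.sqrt y)⁻¹ = Real.sqrt y := by
    nth_rewrite 1 [← hss]
    field_simp
  have h4 : y * (1 - (Real.sqrt y)⁻¹) ≤ y * Real.log (Real.sqrt y) := mul_le_mul_of_nonneg_left h2 h0.le
  rw [hlog]
  nlinarith [sq_nonneg (Real.sqrt y - 1 / 2)]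

private lemma si_quarter {n : ℕ} [NeZero (4 * n)] (hn : 0 < n) (l : ℕ) :
    si (((2 * l + 1 : ℕ) : ZMod (4 * n)) * ((n : ℕ) : ZMod (4 * n))) = (-1) ^ l := by
  rw [← Nat.cast_mul, si_nat]
  have hn' : (n : ℝ) ≠ 0 := by exact_mod_cast hn.ne'
  have e : 2 * Real.pi * (((2 * l + 1) * n : ℕ) : ℝ) / ((4 * n : ℕ) : ℝ) = Real.pi / 2 + l * Real.pi := by
    push_cast
    field_simp
    ring
  rw [e, Real.sin_add_nat_mul_pi, Real.sin_pi_div_two, mul_one]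

theorem profile {t : ℝ} (ht : Crit t) {ε : ℝ} (hε : 0 < ε) (n0 : ℕ) :
    ∃ (N : ℕ) (_ : NeZero N) (z : ZMod N → ℝ), n0 ≤ N ∧ (∀ j, t ^ 2 ≤ |z j| ∧ |z j| ≤ 1) ∧
      ∀ V : ZMod N → ℝ, (∀ k, V (-k) = - V k) → (∀ k, |V k| ≤ 1) →
        2 * cM t * avg (fun j => z j ^ 2) - ε - 4 * (1 - V 1) ≤ ∑ k, rhat z (fun j => ell (z j)) k * V k := by
  obtain ⟨n1, hn1⟩ := AN_small ht (ε := ε / 4) (by linarith)
  obtain ⟨n, hnn1, hnn0, hn⟩ : ∃ n, n1 ≤ n ∧ n0 ≤ n ∧ 0 < n :=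
    ⟨max (max n1 n0) 1, (le_max_left _ _).trans (le_max_left _ _),
      (le_max_right _ _).trans (le_max_left _ _), lt_of_lt_of_le one_pos (le_max_right _ _)⟩
  have : NeZero (4 * n) := ⟨by omega⟩
  refine ⟨4 * n, inferInstance, zeta t n, by omega, fun j => zeta_mem ht j, fun V hV hV1 => ?_⟩
  set R : ZMod (4 * n) → ℝ := fun k => rhat (zeta t n) (fun j => ell (zeta t n j)) k with hR
  have hRneg : ∀ k, R (-k) = - R k := fun k => rhat_neg _ _ k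
  have hReven : ∀ l : ℕ, R ((2 * l : ℕ) : ZMod (4 * n)) = 0 := fun l => rhat_even ht l
  have hRodd : ∀ l : ℕ, R ((2 * l + 1 : ℕ) : ZMod (4 * n)) =
      1 / 2 * (1 + t ^ 2) * ((-1) ^ l * AN t n (fr l) ((-1) ^ l)) := fun l => rhat_odd ht l
  have s1 : ∑ k, R k * V k = 2 * ∑ l ∈ Finset.range n,
      R ((2 * l + 1 : ℕ) : ZMod (4 * n)) * V ((2 * l + 1 : ℕ) : ZMod (4 * n)) := by
    refine fold (fun k => R k * V k) (fun k => ?_) (fun l => ?_)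
    · rw [hRneg, hV]; ring
    · rw [hReven, zero_mul]
  have s2 : rho (zeta t n) (fun j => ell (zeta t n j)) ((n : ℕ) : ZMod (4 * n)) =
      2 * ∑ l ∈ Finset.range n, R ((2 * l + 1 : ℕ) : ZMod (4 * n)) * (-1) ^ l := by
    rw [rho_eq]
    have := fold (fun k => R k * si (k * ((n : ℕ) : ZMod (4 * n)))) (fun k => by
      have e : -k * ((n : ℕ) : ZMod (4 * n)) = -(k * ((n : ℕ) : ZMod (4 * n))) := by ring
      rw [hRneg, e, si_neg]; ring) (fun l => by rw [hReven, zero_mul])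
    rw [this]
    congr 1
    refine Finset.sum_congr rfl fun l _ => ?_
    rw [si_quarter hn]
  rw [rho_quarter ht] at s2
  have ht0 := ht.lo
  have ht1 := ht.hi
  have hc : 0 ≤ 1 / 2 * (1 + t ^ 2) := by positivity
  have hc1 : 1 / 2 * (1 + t ^ 2) ≤ 1 := by nlinarith
  have hchi : ∀ l : ℕ, ((-1 : ℝ) ^ l) * (-1) ^ l = 1 := fun l => by
    rw [← mul_pow]; norm_num
  have hχR : ∀ l : ℕ, R ((2 * l + 1 : ℕ) : ZMod (4 * n)) * (-1) ^ l =
      1 / 2 * (1 + t ^ 2) * AN t n (fr l) ((-1) ^ l) := by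
    intro l
    rw [hRodd]
    linear_combination (1 / 2 * (1 + t ^ 2) * AN t n (fr l) ((-1) ^ l)) * hchi l
  have hstep : ∀ l ∈ Finset.Ico 1 n, R ((2 * l + 1 : ℕ) : ZMod (4 * n)) * (-1) ^ l -
      2 * max (AN t n (fr l) ((-1) ^ l)) 0 ≤
      R ((2 * l + 1 : ℕ) : ZMod (4 * n)) * V ((2 * l + 1 : ℕ) : ZMod (4 * n)) := by
    intro l _
    have a1 := hχR l
    have a2 : |R ((2 * l + 1 : ℕ) : ZMod (4 * n))| = |R ((2 * l + 1 : ℕ) : ZMod (4 * n)) * (-1) ^ l| := by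
      rw [abs_mul, abs_pow, abs_neg, abs_one, one_pow, mul_one]
    have a3 : - |R ((2 * l + 1 : ℕ) : ZMod (4 * n))| ≤
        R ((2 * l + 1 : ℕ) : ZMod (4 * n)) * V ((2 * l + 1 : ℕ) : ZMod (4 * n)) := by
      have b1 := neg_abs_le (R ((2 * l + 1 : ℕ) : ZMod (4 * n)) * V ((2 * l + 1 : ℕ) : ZMod (4 * n)))
      rw [abs_mul] at b1
      have b2 := hV1 ((2 * l + 1 : ℕ) : ZMod (4 * n))
      have b3 := abs_nonneg (R ((2 * l + 1 : ℕ) : ZMod (4 * n)))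
      nlinarith
    have a4 : |R ((2 * l + 1 : ℕ) : ZMod (4 * n)) * (-1) ^ l| ≤
        2 * max (AN t n (fr l) ((-1) ^ l)) 0 - R ((2 * l + 1 : ℕ) : ZMod (4 * n)) * (-1) ^ l := by
      rw [a1]
      have m1 := le_max_left (AN t n (fr l) ((-1) ^ l)) 0
      have m2 := le_max_right (AN t n (fr l) ((-1) ^ l)) 0
      rw [abs_le]
      constructor <;> nlinarith
    linarith
  have hR0 : |R 1| ≤ 2 := by
    have := abs_rhat_le (z := zeta t n) (g := fun j => ell (zeta t n j)) (B := 1 / 2)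
      (fun j => (zeta_mem ht j).2) (fun j => ell_bound
        (lt_of_lt_of_le (by positivity) (zeta_mem ht j).1) (zeta_mem ht j).2) 1
    calc |R 1| ≤ 4 * (1 / 2) := this
      _ = 2 := by norm_num
  have hzero : R 1 - 2 * (1 - V 1) ≤ R 1 * V 1 := by
    have b1 := hV1 1
    have b2 := (abs_le.1 b1).2
    have b3 := (abs_le.1 hR0).2
    nlinarith
  have hcast : ((2 * 0 + 1 : ℕ) : ZMod (4 * n)) = 1 := by simp
  have hsplit : ∀ f : ℕ → ℝ, ∑ l ∈ Finset.range n, f l = f 0 + ∑ l ∈ Finset.Ico 1 n, f l := by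
    intro f
    rw [Finset.range_eq_Ico, Finset.sum_eq_sum_Ico_succ_bot hn]
  have hAN := hn1 n hnn1
  have hsum := Finset.sum_le_sum hstep
  rw [Finset.sum_sub_distrib, ← Finset.mul_sum] at hsum
  rw [hsplit, hcast, pow_zero, mul_one] at s2
  rw [hsplit, hcast] at s1
  show 2 * cM t * avg (fun j => zeta t n j ^ 2) - ε - 4 * (1 - V 1) ≤ ∑ k, R k * V k
  rw [s1, s2]
  linarith

end Pool.Agent.Work.MP_95d40a_an.R2
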