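import Pool.Agent.Work.MP_95d40a_an.R2.Defs

set_option autoImplicit false

/-!
# RSum: Riemann sums of a continuous function on `[0,1]` converge

`|dsum g n - ∫ g| ≤ ω(1/n)`, by uniform continuity (`IsCompact.uniformContinuousOn_of_continuous`):
`∫ g = ∑ ∫_{i/n}^{(i+1)/n} g` (`intervalIntegral.sum_integral_adjacent_intervals`), and
`|∫_{i/n}^{(i+1)/n} g - g(i/n)/n| ≤ ω(1/n)/n`.
-/

open Filter Topology Set

namespace Pool.Agent.Work.MP_95d40a_an.R2

theorem tendsto_dsum {g : ℝ → ℝ} (hg : ContinuousOn g (Icc 0 1)) :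
    Tendsto (dsum g) atTop (𝓝 (∫ v in (0 : ℝ)..1, g v)) := by
  rw [Metric.tendsto_atTop]
  intro ε hε
  have huc := isCompact_Icc.uniformContinuousOn_of_continuous hg
  rw [Metric.uniformContinuousOn_iff] at huc
  obtain ⟨δ, hδ, hd⟩ := huc (ε / 2) (by positivity)
  obtain ⟨N, hN⟩ := exists_nat_gt (1 / δ)
  refine ⟨max N 1, fun n hn => ?_⟩
  have hn1 : 1 ≤ n := (le_max_right _ _).trans hn
  have hnN : (N : ℝ) ≤ n := by exact_mod_cast (le_max_left _ _).trans hn
  have hn0 : (0 : ℝ) < n := by exact_mod_cast hn1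
  have hnδ : 1 / (n : ℝ) < δ := by
    rw [div_lt_iff₀ hn0]
    have h1 : 1 / δ < n := hN.trans_le hnN
    rw [div_lt_iff₀ hδ] at h1
    linarith
  -- the points
  set a : ℕ → ℝ := fun i => (i : ℝ) / n with ha
  have ha0 : a 0 = 0 := by simp [ha]
  have han : a n = 1 := by simp only [ha]; exact div_self hn0.ne'
  have hstep : ∀ i, a (i + 1) - a i = 1 / n := by
    intro i
    simp only [ha]
    push_cast
    ring
  have hle : ∀ i, a i ≤ a (i + 1) := by
    intro i
    have := hstep i
    have h2 : (0 : ℝ) < 1 / n := by positivity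
    linarith
  have hmem : ∀ i < n, Icc (a i) (a (i + 1)) ⊆ Icc 0 1 := by
    intro i hi x hx
    refine ⟨le_trans (by simp only [ha]; positivity) hx.1, hx.2.trans ?_⟩
    simp only [ha]
    rw [div_le_one hn0]
    exact_mod_cast hi
  have hint : ∀ i < n, IntervalIntegrable g MeasureTheory.volume (a i) (a (i + 1)) := by
    intro i hi
    apply ContinuousOn.intervalIntegrable
    rw [uIcc_of_le (hle i)]
    exact hg.mono (hmem i hi)
  have hsum := intervalIntegral.sum_integral_adjacent_intervals (a := a) (n := n) hint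
  rw [ha0, han] at hsum
  rw [Real.dist_eq, ← hsum]
  have hds : dsum g n = ∑ i ∈ Finset.range n, g (a i) * (1 / n) := by
    unfold dsum
    rw [Finset.sum_div]
    refine Finset.sum_congr rfl fun i _ => ?_
    simp only [ha]
    ring
  rw [hds, ← Finset.sum_sub_distrib]
  have hterm : ∀ i ∈ Finset.range n,
      |g (a i) * (1 / n) - ∫ v in (a i)..(a (i + 1)), g v| ≤ ε / 2 * (1 / n) := by
    intro i hi
    have hi' := Finset.mem_range.1 hi
    have h1 : g (a i) * (1 / n) = ∫ _v in (a i)..(a (i + 1)), g (a i) := by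
      rw [intervalIntegral.integral_const, hstep i, smul_eq_mul, mul_comm]
    rw [h1, ← intervalIntegral.integral_sub intervalIntegrable_const (hint i hi')]
    have h2 := intervalIntegral.norm_integral_le_of_norm_le_const
      (f := fun v => g (a i) - g v) (a := a i) (b := a (i + 1)) (C := ε / 2) ?_
    · rw [hstep i, Real.norm_eq_abs, abs_of_pos (a := 1 / (n : ℝ)) (by positivity)] at h2
      exact h2
    · intro v hv
      rw [uIoc_of_le (hle i)] at hv
      have hv' : v ∈ Icc (a i) (a (i + 1)) := ⟨hv.1.le, hv.2⟩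
      have h3 := hd (a i) (hmem i hi' ⟨le_rfl, hle i⟩) v (hmem i hi' hv') ?_
      · rw [Real.norm_eq_abs, ← Real.dist_eq]
        exact h3.le
      · rw [Real.dist_eq, abs_sub_comm, abs_of_nonneg (by linarith [hv.1])]
        have := hstep i
        linarith [hv.2]
  calc |∑ i ∈ Finset.range n, (g (a i) * (1 / n) - ∫ v in (a i)..(a (i + 1)), g v)|
      ≤ ∑ i ∈ Finset.range n, |g (a i) * (1 / n) - ∫ v in (a i)..(a (i + 1)), g v| :=
        Finset.abs_sum_le_sum_abs _ _
    _ ≤ ∑ _i ∈ Finset.range n, ε / 2 * (1 / n) := Finset.sum_le_sum hterm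
    _ = ε / 2 := by
        rw [Finset.sum_const, Finset.card_range, nsmul_eq_mul]
        field_simp
    _ < ε := by linarith

end Pool.Agent.Work.MP_95d40a_an.R2
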