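import Pool.Agent.Work.MP_95d40a_an.R2.Four

set_option autoImplicit false

/-!
# Sector: the modulus and the discretised argument

`M = sqrt (x² + y²)` lies in `L_p` (`|M| ≤ |x| + |y|`).  `j ω = ⌊N arg(w) / (2π)⌋` in `ZMod N`, `w = x ω + i y ω`
(measurable: `Complex.measurable_arg`, `Int.measurable_floor`, the cast `ℤ → ZMod N` is measurable with discrete
σ-algebras; use the strongly measurable representatives `Lp.stronglyMeasurable x`).  `x = M cos α`, `y = M sin α`,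
`α = arg w` (`Complex.norm_mul_cos_arg`, `Complex.norm_mul_sin_arg`), `co (j) = cos (2π ⌊N α/2π⌋/N)`, and
`|α - 2π ⌊N α/2π⌋/N| ≤ 2π/N`, `|cos a - cos b| ≤ |a - b|`.
-/

open MeasureTheory
open scoped ENNReal

namespace Pool.Agent.Work.MP_95d40a_an.R2

variable {Ω : Type*} [MeasurableSpace Ω] {μ : Measure Ω} {p : ℝ≥0∞} {N : ℕ} [NeZero N]

theorem exists_mod [Fact (1 ≤ p)] (x y : Lp ℝ p μ) :
    ∃ M : Lp ℝ p μ, ∀ᵐ ω ∂μ, 0 ≤ M ω ∧ M ω ^ 2 = x ω ^ 2 + y ω ^ 2 := by
  have hRm : MemLp (fun ω => Real.sqrt (x ω ^ 2 + y ω ^ 2)) p μ := by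
    have hab : MemLp (fun ω => |x ω| + |y ω|) p μ := by
      have a1 : MemLp (fun ω => |x ω|) p μ := (Lp.memLp x).norm
      have a2 : MemLp (fun ω => |y ω|) p μ := (Lp.memLp y).norm
      exact a1.add a2
    refine MemLp.of_le hab ?_ ?_
    · exact ((((Lp.memLp x).1.aemeasurable.pow_const 2).add
        ((Lp.memLp y).1.aemeasurable.pow_const 2)).sqrt).aestronglyMeasurable
    · refine Filter.Eventually.of_forall fun ω => ?_
      rw [Real.norm_of_nonneg (Real.sqrt_nonneg _), Real.norm_of_nonneg (by positivity)]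
      apply Real.sqrt_le_iff.2
      refine ⟨by positivity, ?_⟩
      have b1 := sq_abs (x ω)
      have b2 := sq_abs (y ω)
      nlinarith [abs_nonneg (x ω), abs_nonneg (y ω), mul_nonneg (abs_nonneg (x ω)) (abs_nonneg (y ω))]
  refine ⟨hRm.toLp _, ?_⟩
  filter_upwards [MemLp.coeFn_toLp hRm] with ω h
  rw [h]
  exact ⟨Real.sqrt_nonneg _, Real.sq_sqrt (by positivity)⟩

private lemma cos_dist (a b : ℝ) : |Real.cos a - Real.cos b| ≤ |a - b| := by
  rw [Real.cos_sub_cos, abs_mul, abs_mul]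
  have h1 := Real.abs_sin_le_one ((a + b) / 2)
  have h2 : |Real.sin ((a - b) / 2)| ≤ |(a - b) / 2| := Real.abs_sin_le_abs
  rw [abs_div, abs_two] at h2
  have h3 : |(-2 : ℝ)| = 2 := by norm_num
  rw [h3]
  nlinarith [abs_nonneg (Real.sin ((a - b) / 2)), abs_nonneg (Real.sin ((a + b) / 2))]

private lemma sin_dist (a b : ℝ) : |Real.sin a - Real.sin b| ≤ |a - b| := by
  have h := cos_dist (Real.pi / 2 - a) (Real.pi / 2 - b)
  rw [Real.cos_pi_div_two_sub, Real.cos_pi_div_two_sub] at h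
  have e : Real.pi / 2 - a - (Real.pi / 2 - b) = -(a - b) := by ring
  rwa [e, abs_neg] at h

theorem exists_sector (N : ℕ) [NeZero N] [Fact (1 ≤ p)] (M x y : Lp ℝ p μ)
    (hM : ∀ᵐ ω ∂μ, 0 ≤ M ω ∧ M ω ^ 2 = x ω ^ 2 + y ω ^ 2) :
    ∃ (j : Ω → ZMod N) (_ : ∀ i, MeasurableSet {ω | j ω = i}),
      (∀ᵐ ω ∂μ, |x ω - M ω * co (j ω)| ≤ 2 * Real.pi / N * M ω) ∧
      (∀ᵐ ω ∂μ, |y ω - M ω * si (j ω)| ≤ 2 * Real.pi / N * M ω) := by
  have hpi := Real.pi_pos
  have hN : (0 : ℝ) < N := by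
    have := NeZero.pos N
    exact_mod_cast this
  have hxm : Measurable (x : Ω → ℝ) := (Lp.stronglyMeasurable x).measurable
  have hym : Measurable (y : Ω → ℝ) := (Lp.stronglyMeasurable y).measurable
  set w : Ω → ℂ := fun ω => ⟨x ω, y ω⟩ with hw
  have hwm : Measurable w := by
    have : w = fun ω => ((x ω : ℝ) : ℂ) + ((y ω : ℝ) : ℂ) * Complex.I := by
      funext ω
      rw [hw]
      exact Complex.mk_eq_add_mul_I _ _
    rw [this]
    exact (Complex.measurable_ofReal.comp hxm).add ((Complex.measurable_ofReal.comp hym).mul_const _)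
  set m : Ω → ℤ := fun ω => ⌊(N : ℝ) * (w ω).arg / (2 * Real.pi)⌋ with hm
  have hmm : Measurable m := by
    apply Int.measurable_floor.comp
    exact ((Complex.measurable_arg.comp hwm).const_mul _).div_const _
  have hd : ∀ ω, |(w ω).arg - 2 * Real.pi * m ω / N| ≤ 2 * Real.pi / N := by
    intro ω
    have h1 : (m ω : ℝ) ≤ (N : ℝ) * (w ω).arg / (2 * Real.pi) := Int.floor_le _
    have h2 : (N : ℝ) * (w ω).arg / (2 * Real.pi) < m ω + 1 := Int.lt_floor_add_one _
    rw [le_div_iff₀ (by positivity)] at h1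
    rw [div_lt_iff₀ (by positivity)] at h2
    have e : (w ω).arg - 2 * Real.pi * m ω / N = (N * (w ω).arg - m ω * (2 * Real.pi)) / N := by
      field_simp
    rw [e, abs_of_nonneg (div_nonneg (by linarith) hN.le)]
    gcongr
    linarith
  have hnorm : ∀ᵐ ω ∂μ, M ω = ‖w ω‖ := by
    filter_upwards [hM] with ω h
    have h3 : ‖w ω‖ ^ 2 = M ω ^ 2 := by
      rw [← Complex.normSq_eq_norm_sq, h.2, Complex.normSq_apply]
      rw [hw]; ring
    exact ((sq_eq_sq₀ (norm_nonneg _) h.1).1 h3).symm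
  refine ⟨fun ω => ((m ω : ℤ) : ZMod N), fun i => ?_, ?_, ?_⟩
  · exact hmm (MeasurableSet.of_discrete (s := {a : ℤ | (a : ZMod N) = i}))
  · filter_upwards [hnorm] with ω h
    rw [co_int, h]
    have e : x ω = ‖w ω‖ * Real.cos (w ω).arg := by
      rw [Complex.norm_mul_cos_arg]
    rw [e, ← mul_sub, abs_mul, abs_of_nonneg (norm_nonneg _), mul_comm _ ‖w ω‖]
    exact mul_le_mul_of_nonneg_left ((cos_dist _ _).trans (hd ω)) (norm_nonneg _)
  · filter_upwards [hnorm] with ω h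
    rw [si_int, h]
    have e : y ω = ‖w ω‖ * Real.sin (w ω).arg := by
      rw [Complex.norm_mul_sin_arg]
    rw [e, ← mul_sub, abs_mul, abs_of_nonneg (norm_nonneg _), mul_comm _ ‖w ω‖]
    exact mul_le_mul_of_nonneg_left ((sin_dist _ _).trans (hd ω)) (norm_nonneg _)

end Pool.Agent.Work.MP_95d40a_an.R2
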