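import Pool.Agent.Work.MP_95d40a_an.R2.Neg
import Pool.Agent.Work.MP_95d40a_an.R2.Osc
import Pool.Agent.Work.MP_95d40a_an.R2.RSum

set_option autoImplicit false

/-!
# Small: the positive parts of `AN` are summably small

1. Variation: for `g = ff t`: `|g 1| + ∑ |g(i/n) - g((i+1)/n)| = t + (1 - t) = 1` (monotone, telescoping).
   For `g = hh t = f log f`: `|f_i log f_i - f_{i+1} log f_{i+1}| ≤ f_i (log f_i - log f_{i+1}) + (f_i - f_{i+1}) |log f_{i+1}|
   ≤ (L_{i+1} - L_i) + u (f_i - f_{i+1})`, `L = - log f ∈ [0, u]` increasing, `u = - log t < 1.2`; the sum is `≤ 2 u`,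
   `|g 1| = t u`; so `B = 4` works.
2. `dsum_osc_cos/sin`: `|dsum(ff ..)| ≤ 2/(2l+1)`, `|dsum (hh ..)| ≤ 8/(2l+1)`, so
   `|AN t n (fr l) (± 1)| ≤ 2 * 16/(2l+1)² + cM * 8/(2l+1)² ≤ 40/(2l+1)²` for `l < n` (`cM < 1/2`).
3. `∑_{l ≥ L} 40/(2l+1)² ≤ 10 ∑_{l ≥ L} 1/(l (l+1)) = 10/L`.  (`(2l+1)² ≥ 4 l (l+1)`; telescoping
   `1/l - 1/(l+1)`.)
4. For fixed `l ≥ 1`: `AN t n (fr l) c → AA t (fr l) c ≤ 0` (`tendsto_dsum`, `AA_nonpos`), so
   `max (AN ..) 0 → 0` and the finite sum over `1 ≤ l < L` tends to `0`.  Choose `L` with `10/L ≤ ε/2`, then `n0`.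
-/

open Filter Topology Set

namespace Pool.Agent.Work.MP_95d40a_an.R2

variable {t : ℝ}

private theorem Small_mem {n : ℕ} (hn : 0 < n) {i : ℕ} (hi : i ≤ n) : ((i : ℝ) / n) ∈ Icc (0 : ℝ) 1 := by
  have hn' : (0 : ℝ) < n := by exact_mod_cast hn
  refine ⟨by positivity, ?_⟩
  rw [div_le_one hn']
  exact_mod_cast hi

private theorem Small_step {n : ℕ} (hn : 0 < n) (i : ℕ) : (i : ℝ) / n ≤ ((i : ℝ) + 1) / n := by
  have hn' : (0 : ℝ) < n := by exact_mod_cast hn
  gcongr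
  linarith

private theorem Small_f0 (n : ℕ) (g : ℝ → ℝ) : g (((0 : ℕ) : ℝ) / n) = g 0 := by simp

private theorem Small_fn {n : ℕ} (hn : 0 < n) (g : ℝ → ℝ) : g ((n : ℝ) / n) = g 1 := by
  have hn' : (n : ℝ) ≠ 0 := by exact_mod_cast hn.ne'
  rw [div_self hn']

/-- telescoping for a decreasing function -/
private theorem Small_tel {n : ℕ} (hn : 0 < n) (g : ℝ → ℝ) :
    ∑ i ∈ Finset.range n, (g ((i : ℝ) / n) - g (((i : ℝ) + 1) / n)) = g 0 - g 1 := by
  have h := Finset.sum_range_sub' (fun i : ℕ => g ((i : ℝ) / n)) n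
  simp only [Nat.cast_add, Nat.cast_one] at h
  rw [h, Small_f0 n g, Small_fn hn g]

private theorem Small_varf (ht : Crit t) {n : ℕ} (hn : 0 < n) :
    |ff t 1| + ∑ i ∈ Finset.range n, |ff t ((i : ℝ) / n) - ff t (((i : ℝ) + 1) / n)| ≤ 1 := by
  have ht0 : 0 < t := by have := ht.lo; linarith
  have h1 : ∀ i ∈ Finset.range n, |ff t ((i : ℝ) / n) - ff t (((i : ℝ) + 1) / n)| =
      ff t ((i : ℝ) / n) - ff t (((i : ℝ) + 1) / n) := by
    intro i hi
    refine abs_of_nonneg (sub_nonneg.2 (ff_anti ht ?_ (Small_step hn i)))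
    exact (Small_mem hn (Finset.mem_range.1 hi).le).1
  rw [Finset.sum_congr rfl h1, Small_tel hn (ff t), ff_zero, ff_one ht, abs_of_pos ht0]
  linarith

private theorem Small_varh (ht : Crit t) {n : ℕ} (hn : 0 < n) :
    |hh t 1| + ∑ i ∈ Finset.range n, |hh t ((i : ℝ) / n) - hh t (((i : ℝ) + 1) / n)| ≤ 4 := by
  have ht0 : 0 < t := by have := ht.lo; linarith
  have ht1 : t < 1 := by have := ht.hi; linarith
  have hu := u_bounds ht
  have h1 : ∀ i ∈ Finset.range n, |hh t ((i : ℝ) / n) - hh t (((i : ℝ) + 1) / n)| ≤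
      (Real.log (ff t ((i : ℝ) / n)) - Real.log (ff t (((i : ℝ) + 1) / n))) +
        (- Real.log t) * (ff t ((i : ℝ) / n) - ff t (((i : ℝ) + 1) / n)) := by
    intro i hi
    have hi' := Finset.mem_range.1 hi
    have m1 := Small_mem hn hi'.le
    have m2 : (((i : ℝ) + 1) / n) ∈ Icc (0 : ℝ) 1 := by
      have := Small_mem hn (Nat.succ_le_of_lt hi')
      simpa using this
    have a := ff_mem ht m1
    have b := ff_mem ht m2
    have hle := ff_anti ht m1.1 (Small_step hn i)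
    set x := ff t ((i : ℝ) / n)
    set y := ff t (((i : ℝ) + 1) / n)
    have hy : 0 < y := lt_of_lt_of_le ht0 b.1
    have hx : 0 < x := lt_of_lt_of_le ht0 a.1
    have hl1 : Real.log y ≤ Real.log x := Real.log_le_log hy hle
    have hl2 : Real.log t ≤ Real.log y := Real.log_le_log ht0 b.1
    have hl3 : Real.log y ≤ 0 := Real.log_nonpos hy.le b.2
    have e : hh t ((i : ℝ) / n) - hh t (((i : ℝ) + 1) / n) =
        x * (Real.log x - Real.log y) + (x - y) * Real.log y := by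
      unfold hh; ring
    rw [e]
    refine (abs_add_le _ _).trans (add_le_add ?_ ?_)
    · rw [abs_of_nonneg (mul_nonneg hx.le (sub_nonneg.2 hl1))]
      nlinarith [a.2]
    · rw [abs_mul, abs_of_nonneg (sub_nonneg.2 hle), abs_of_nonpos hl3, mul_comm]
      exact mul_le_mul_of_nonneg_right (by linarith) (sub_nonneg.2 hle)
  have h2 : |hh t 1| = t * (- Real.log t) := by
    unfold hh
    rw [ff_one ht, abs_mul, abs_of_pos ht0, abs_of_neg (by linarith)]
  have h3 := Finset.sum_le_sum h1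
  rw [Finset.sum_add_distrib, ← Finset.mul_sum, Small_tel hn (fun v => Real.log (ff t v)),
    Small_tel hn (ff t), ff_zero, ff_one ht, Real.log_one] at h3
  rw [h2]
  nlinarith

private theorem Small_AN (ht : Crit t) {n l : ℕ} (hl : l < n) :
    |AN t n (fr l) ((-1) ^ l)| ≤ 40 / (2 * (l : ℝ) + 1) ^ 2 := by
  have hn : 0 < n := lt_of_le_of_lt (Nat.zero_le _) hl
  have hl0 : (0 : ℝ) ≤ l := Nat.cast_nonneg l
  set q : ℝ := 1 / (2 * (l : ℝ) + 1) with hq
  have hq0 : 0 < q := by positivity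
  have f1 := dsum_osc_cos hl (Small_varf ht hn)
  have f2 := dsum_osc_sin hl (Small_varf ht hn)
  have g1 := dsum_osc_cos hl (Small_varh ht hn)
  have g2 := dsum_osc_sin hl (Small_varh ht hn)
  have r1 : (2 * 1 / (2 * (l : ℝ) + 1)) = 2 * q := by rw [hq]; ring
  have r2 : (2 * 4 / (2 * (l : ℝ) + 1)) = 8 * q := by rw [hq]; ring
  rw [r1] at f1 f2
  rw [r2] at g1 g2
  have hM := cM_bounds ht
  have r3 : 40 / (2 * (l : ℝ) + 1) ^ 2 = 40 * q ^ 2 := by rw [hq, div_pow, one_pow]; ring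
  rw [r3]
  unfold AN
  set a := dsum (fun v => hh t v * Real.cos (fr l * v)) n
  set b := dsum (fun v => ff t v * Real.sin (fr l * v)) n
  set c := dsum (fun v => hh t v * Real.sin (fr l * v)) n
  set d := dsum (fun v => ff t v * Real.cos (fr l * v)) n
  have h1 : |a * b| ≤ 16 * q ^ 2 := by
    rw [abs_mul]
    have := mul_le_mul g1 f2 (abs_nonneg _) (by positivity)
    nlinarith
  have h2 : |c * d| ≤ 16 * q ^ 2 := by
    rw [abs_mul]
    have := mul_le_mul g2 f1 (abs_nonneg _) (by positivity)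
    nlinarith
  have h3 : d ^ 2 ≤ 4 * q ^ 2 := by
    have := mul_le_mul f1 f1 (abs_nonneg _) (by positivity)
    rw [abs_mul_abs_self] at this
    nlinarith
  have h4 : b ^ 2 ≤ 4 * q ^ 2 := by
    have := mul_le_mul f2 f2 (abs_nonneg _) (by positivity)
    rw [abs_mul_abs_self] at this
    nlinarith
  have hχ : |((-1 : ℝ)) ^ l| = 1 := by rw [abs_pow, abs_neg, abs_one, one_pow]
  refine (abs_add_le _ _).trans ?_
  have h5 : |(-1 : ℝ) ^ l * (a * b - c * d)| ≤ 32 * q ^ 2 := by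
    rw [abs_mul, hχ, one_mul]
    refine (abs_sub _ _).trans ?_
    linarith
  have h6 : |cM t * (d ^ 2 + b ^ 2)| ≤ 8 * q ^ 2 := by
    rw [abs_of_nonneg (mul_nonneg (by linarith) (by positivity))]
    have h7 : 0 ≤ d ^ 2 + b ^ 2 := by positivity
    nlinarith
  linarith

private theorem Small_tail {L n : ℕ} (hL : 1 ≤ L) (hLn : L ≤ n) :
    ∑ l ∈ Finset.Ico L n, 40 / (2 * (l : ℝ) + 1) ^ 2 ≤ 10 / (L : ℝ) := by
  have h : ∀ m : ℕ, L ≤ m → ∑ l ∈ Finset.Ico L m, 40 / (2 * (l : ℝ) + 1) ^ 2 ≤ 10 / (L : ℝ) - 10 / (m : ℝ) := by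
    intro m hm
    induction m, hm using Nat.le_induction with
    | base => simp
    | succ m hm ih =>
      rw [Finset.sum_Ico_succ_top hm]
      have hm0 : (0 : ℝ) < m := by
        have : 0 < m := lt_of_lt_of_le hL hm
        exact_mod_cast this
      have h1 : 40 / (2 * (m : ℝ) + 1) ^ 2 ≤ 10 / m - 10 / ((m + 1 : ℕ) : ℝ) := by
        push_cast
        rw [div_sub_div _ _ hm0.ne' (by positivity), div_le_div_iff₀ (by positivity) (by positivity)]
        nlinarith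
      linarith
  have h1 := h n hLn
  have h2 : (0 : ℝ) ≤ 10 / n := by positivity
  linarith

private theorem Small_cont (ht : Crit t) : ContinuousOn (ff t) (Icc 0 1) ∧ ContinuousOn (hh t) (Icc 0 1) := by
  have h1 : Continuous (ff t) := by unfold ff; fun_prop
  refine ⟨h1.continuousOn, ?_⟩
  unfold hh
  exact h1.continuousOn.mul (h1.continuousOn.log fun v hv => (ff_pos ht hv).ne')

private theorem Small_lim (ht : Crit t) (l : ℕ) :
    Tendsto (fun n => AN t n (fr l) ((-1) ^ l)) atTop (𝓝 (AA t (fr l) ((-1) ^ l))) := by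
  obtain ⟨hf, hg⟩ := Small_cont ht
  have hc : ContinuousOn (fun v : ℝ => Real.cos (fr l * v)) (Icc 0 1) :=
    (by fun_prop : Continuous (fun v : ℝ => Real.cos (fr l * v))).continuousOn
  have hs : ContinuousOn (fun v : ℝ => Real.sin (fr l * v)) (Icc 0 1) :=
    (by fun_prop : Continuous (fun v : ℝ => Real.sin (fr l * v))).continuousOn
  have a := tendsto_dsum (hg.mul hc)
  have b := tendsto_dsum (hf.mul hs)
  have c := tendsto_dsum (hg.mul hs)
  have d := tendsto_dsum (hf.mul hc)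
  unfold AN AA
  exact (((a.mul b).sub (c.mul d)).const_mul _).add (((d.pow 2).add (b.pow 2)).const_mul _)

theorem AN_small (ht : Crit t) {ε : ℝ} (hε : 0 < ε) :
    ∃ n0 : ℕ, ∀ n ≥ n0, ∑ l ∈ Finset.Ico 1 n, max (AN t n (fr l) ((-1) ^ l)) 0 ≤ ε := by
  obtain ⟨L, hL⟩ := exists_nat_gt (20 / ε)
  have hL0 : 0 < (L : ℝ) := lt_trans (by positivity) hL
  have hL1 : 1 ≤ L := by
    have : 0 < L := by exact_mod_cast hL0
    omega
  have hL2 : 10 / (L : ℝ) ≤ ε / 2 := by
    rw [div_lt_iff₀ hε] at hL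
    rw [div_le_iff₀ hL0]
    linarith
  have hlim : Tendsto (fun n => ∑ l ∈ Finset.Ico 1 L, max (AN t n (fr l) ((-1) ^ l)) 0) atTop (𝓝 0) := by
    have h1 : Tendsto (fun n => ∑ l ∈ Finset.Ico 1 L, max (AN t n (fr l) ((-1) ^ l)) 0) atTop
        (𝓝 (∑ _l ∈ Finset.Ico 1 L, (0 : ℝ))) := by
      refine tendsto_finsetSum _ fun l hl => ?_
      have h2 := (Small_lim ht l).max (tendsto_const_nhds (x := (0 : ℝ)))
      rwa [max_eq_right (AA_nonpos ht (Finset.mem_Ico.1 hl).1)] at h2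
    simpa using h1
  obtain ⟨n1, hn1⟩ := eventually_atTop.1 (hlim.eventually (ge_mem_nhds (half_pos hε)))
  refine ⟨max n1 L, fun n hn => ?_⟩
  have hLn : L ≤ n := le_trans (le_max_right _ _) hn
  have hA := hn1 n (le_trans (le_max_left _ _) hn)
  rw [← Finset.sum_Ico_consecutive _ hL1 hLn]
  have hB : ∑ l ∈ Finset.Ico L n, max (AN t n (fr l) ((-1) ^ l)) 0 ≤ 10 / L := by
    refine le_trans (Finset.sum_le_sum fun l hl => ?_) (Small_tail hL1 hLn)
    refine max_le ((le_abs_self _).trans (Small_AN ht (Finset.mem_Ico.1 hl).2)) (by positivity)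
  linarith

end Pool.Agent.Work.MP_95d40a_an.R2
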