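import Pool.Agent.Work.MP_95d40a_an.R2.Num
import Pool.Agent.Work.MP_95d40a_an.R2.Four

set_option autoImplicit false

/-!
# ZetaS: the profile on `ZMod (4 n)`, sums over quadrants

`zeta t n j = cq t (j.val / n) * ff t ((j.val % n) / n)`, `cq = 1, t, -1, -t` on the four quadrants.
`ell x = x log x` (Mathlib's `Real.log x = Real.log |x|`).
* `sum_quad`: `∑_{j : ZMod (4n)} F j = ∑_{k<4n} F k` (`Finset.sum_nbij' ZMod.val (fun k => (k : ZMod _))` or similar)
  and split the range four times (`Finset.sum_range_add`-like / `Finset.range_eq_Ico`).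
* `zeta_val`: for `i < n`, `q < 4`: `((q n + i : ℕ) : ZMod (4n)).val = q n + i` (`ZMod.val_natCast_of_lt`).
* `zeta_mem`: `|cq| ∈ {1, t}`, `ff ∈ [t, 1]` (`ff_mem`).
-/

open Set

namespace Pool.Agent.Work.MP_95d40a_an.R2

noncomputable def ell (x : ℝ) : ℝ := x * Real.log x

noncomputable def cq (t : ℝ) (q : ℕ) : ℝ :=
  if q = 0 then 1 else if q = 1 then t else if q = 2 then -1 else -t

noncomputable def zeta (t : ℝ) (n : ℕ) (j : ZMod (4 * n)) : ℝ :=
  cq t (j.val / n) * ff t (((j.val % n : ℕ) : ℝ) / n)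

variable {t : ℝ} {n : ℕ} [NeZero (4 * n)]

theorem sum_quad (F : ZMod (4 * n) → ℝ) : ∑ j, F j = ∑ i ∈ Finset.range n,
    (F ((i : ℕ)) + F ((n + i : ℕ)) + F ((2 * n + i : ℕ)) + F ((3 * n + i : ℕ))) := by
  have h1 : ∑ j, F j = ∑ k ∈ Finset.range (4 * n), F ((k : ℕ) : ZMod (4 * n)) := by
    refine Finset.sum_nbij' ZMod.val (fun k => ((k : ℕ) : ZMod (4 * n))) ?_ ?_ ?_ ?_ ?_
    · intro a _
      exact Finset.mem_range.2 (ZMod.val_lt a)
    · intro a _
      exact Finset.mem_univ _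
    · intro a _
      exact ZMod.natCast_zmod_val a
    · intro a ha
      exact ZMod.val_cast_of_lt (Finset.mem_range.1 ha)
    · intro a _
      rw [ZMod.natCast_zmod_val a]
  have h2 : 4 * n = ((n + n) + n) + n := by ring
  have h3 : ∑ k ∈ Finset.range (4 * n), F ((k : ℕ) : ZMod (4 * n)) =
      ∑ k ∈ Finset.range (((n + n) + n) + n), F ((k : ℕ) : ZMod (4 * n)) := by
    rw [← h2]
  rw [h1, h3, Finset.sum_range_add, Finset.sum_range_add, Finset.sum_range_add,
    ← Finset.sum_add_distrib, ← Finset.sum_add_distrib, ← Finset.sum_add_distrib]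
  refine Finset.sum_congr rfl fun i _ => ?_
  have e1 : n + n + i = 2 * n + i := by ring
  have e2 : n + n + n + i = 3 * n + i := by ring
  rw [e1, e2]

theorem zeta_val {i q : ℕ} (hi : i < n) (hq : q < 4) :
    zeta t n ((q * n + i : ℕ)) = cq t q * ff t ((i : ℝ) / n) := by
  have hn : 0 < n := lt_of_le_of_lt (Nat.zero_le _) hi
  have hlt : q * n + i < 4 * n := by nlinarith
  unfold zeta
  rw [ZMod.val_cast_of_lt hlt]
  have h1 : (q * n + i) / n = q := by
    rw [mul_comm, Nat.mul_add_div hn, Nat.div_eq_of_lt hi, add_zero]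
  have h2 : (q * n + i) % n = i := by
    rw [Nat.mul_add_mod_self_right, Nat.mod_eq_of_lt hi]
  rw [h1, h2]

theorem zeta_mem (ht : Crit t) (j : ZMod (4 * n)) : t ^ 2 ≤ |zeta t n j| ∧ |zeta t n j| ≤ 1 := by
  have h4 : 0 < 4 * n := NeZero.pos (4 * n)
  have hn : 0 < n := by omega
  have hn' : (0 : ℝ) < n := by exact_mod_cast hn
  have ht0 : 0 < t := by have := ht.lo; linarith
  have ht1 : t < 1 := by have := ht.hi; linarith
  have hm : ((j.val % n : ℕ) : ℝ) / n ∈ Icc (0 : ℝ) 1 := by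
    constructor
    · positivity
    · rw [div_le_one hn']
      exact_mod_cast (Nat.mod_lt _ hn).le
  have hf := ff_mem ht hm
  have hf0 := ff_pos ht hm
  have hc : t ≤ |cq t (j.val / n)| ∧ |cq t (j.val / n)| ≤ 1 := by
    unfold cq
    split_ifs
    · simp [ht1.le]
    · rw [abs_of_pos ht0]; exact ⟨le_rfl, ht1.le⟩
    · simp [ht1.le]
    · rw [abs_neg, abs_of_pos ht0]; exact ⟨le_rfl, ht1.le⟩
  unfold zeta
  rw [abs_mul, abs_of_pos hf0]
  constructor
  · rw [sq]
    exact mul_le_mul hc.1 hf.1 ht0.le (abs_nonneg _)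
  · have := mul_le_mul hc.2 hf.2 hf0.le zero_le_one
    linarith

end Pool.Agent.Work.MP_95d40a_an.R2
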